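import Pool.Agent.Helper23.OC.D01
import Pool.Agent.Helper57.G2.Psi

/-!
# Project OC, A01: superderivations of a node ring; levels; degrees

Superalgebra lemmas: `AnWL.Nd` (`Helper57/G2/Psi.lean`: `Sg`, `OD`, `ED`, `OD.inv`, `ED.inv`, `OD.add_smul_ED`, ..).
`ΔL`, `rL`, `EL` = the operators of a node as linear maps.
`Lv_inv`: `OD.inv`. `Hd_r`: `ρ j ∈ Hd (e - xd j)`, `dx a ∈ Hd (g - e)`, `e - xd j + (g - e) = g - xd j`.
-/

set_option autoImplicit false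

namespace AnOC
open AnWL.Nd

variable {M Γ : Type} [AddCommGroup Γ] {xd : M → Γ} {e d : Γ}

section NR
variable (N : NR M Γ xd e d)

theorem NR.sg : Sg N.s := ⟨N.s_s, N.even_comm, N.odd_anti⟩

theorem NR.D_od : OD N.s N.D := ⟨N.D_mul, N.s_D⟩

theorem NR.pd_od (j : M) : OD N.s (N.pd j) := ⟨N.pd_mul j, N.s_pd j⟩

theorem NR.dx_ed : ED N.s N.dx := ⟨N.dx_mul, N.s_dx⟩

theorem NR.D_one : N.D 1 = 0 := N.D_od.one

theorem NR.pd_one (j : M) : N.pd j 1 = 0 := (N.pd_od j).one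

theorem NR.dx_one : N.dx 1 = 0 := N.dx_ed.one

/-- Two elements with the same derivative and the same value at `x = 0`. -/
theorem NR.eq_of_dx {a b : N.A} (h : N.dx a = N.dx b) (h0 : N.ev a = N.ev b) : a = b := by
  have h1 : N.dx (a - b) = 0 := by rw [map_sub, h, sub_self]
  have h2 := N.ev_of _ h1
  rw [map_sub, h0, sub_self] at h2
  exact (sub_eq_zero.1 h2.symm)

theorem NR.int_dx (a : N.A) : N.int (N.dx a) = a - N.ev a := by
  apply N.eq_of_dx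
  · rw [N.dx_int, map_sub, N.dx_ev, sub_zero]
  · rw [N.ev_int, map_sub, N.ev_of (N.ev a) (N.dx_ev a), sub_self]

theorem NR.int_mul {c : N.A} (hc : N.dx c = 0) (a : N.A) : N.int (c * a) = c * N.int a := by
  apply N.eq_of_dx
  · rw [N.dx_int, N.dx_mul, hc, N.dx_int, zero_mul, zero_add]
  · rw [N.ev_int, map_mul, N.ev_int, mul_zero]

theorem NR.int_D (a : N.A) : N.int (N.D a) = N.D (N.int a) := by
  apply N.eq_of_dx
  · rw [N.dx_int, N.dx_D, N.dx_int]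
  · rw [N.ev_int, N.ev_D, N.ev_int, map_zero]

theorem NR.int_pd (j : M) (a : N.A) : N.int (N.pd j a) = N.pd j (N.int a) := by
  apply N.eq_of_dx
  · rw [N.dx_int, N.dx_pd, N.dx_int]
  · rw [N.ev_int, N.ev_pd, N.ev_int, map_zero]

theorem NR.int_s (a : N.A) : N.int (N.s a) = N.s (N.int a) := by
  apply N.eq_of_dx
  · rw [N.dx_int, ← N.s_dx, N.dx_int]
  · rw [N.ev_int, N.ev_s, N.ev_int, map_zero]

/-- The inverse of an even unit is even. -/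
theorem NR.s_inv {u : N.Aˣ} (h : N.s (u : N.A) = u) :
    N.s ((u⁻¹ : N.Aˣ) : N.A) = ((u⁻¹ : N.Aˣ) : N.A) :=
  N.sg.inv_even h (Units.mul_inv u)

variable {N}

/-! ### levels -/

theorem Lv_one (L : Finset M) : N.Lv L 1 := fun j _ => N.pd_one j

theorem Lv_zero (L : Finset M) : N.Lv L 0 := fun j _ => map_zero (N.pd j)

theorem Lv_add {L : Finset M} {a b : N.A} (ha : N.Lv L a) (hb : N.Lv L b) : N.Lv L (a + b) :=
  fun j hj => by rw [map_add, ha j hj, hb j hj, add_zero]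

theorem Lv_sub {L : Finset M} {a b : N.A} (ha : N.Lv L a) (hb : N.Lv L b) : N.Lv L (a - b) :=
  fun j hj => by rw [map_sub, ha j hj, hb j hj, sub_zero]

theorem Lv_neg {L : Finset M} {a : N.A} (ha : N.Lv L a) : N.Lv L (-a) :=
  fun j hj => by rw [map_neg, ha j hj, neg_zero]

theorem Lv_smul {L : Finset M} {a : N.A} (ha : N.Lv L a) (r : ℚ) : N.Lv L (r • a) :=
  fun j hj => by rw [map_smul, ha j hj, smul_zero]

theorem Lv_mul {L : Finset M} {a b : N.A} (ha : N.Lv L a) (hb : N.Lv L b) : N.Lv L (a * b) :=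
  fun j hj => by rw [N.pd_mul, ha j hj, hb j hj, zero_mul, mul_zero, add_zero]

theorem Lv_pow {L : Finset M} {a : N.A} (ha : N.Lv L a) (k : ℕ) : N.Lv L (a ^ k) := by
  induction k with
  | zero => rw [pow_zero]; exact Lv_one L
  | succ k ih => rw [pow_succ]; exact Lv_mul ih ha

theorem Lv_sum {L : Finset M} {α : Type} (S : Finset α) {f : α → N.A} (h : ∀ i ∈ S, N.Lv L (f i)) :
    N.Lv L (∑ i ∈ S, f i) :=
  fun j hj => by rw [map_sum]; exact Finset.sum_eq_zero fun i hi => h i hi j hj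

theorem Lv_s {L : Finset M} {a : N.A} (ha : N.Lv L a) : N.Lv L (N.s a) :=
  fun j hj => by rw [← neg_neg (N.pd j (N.s a)), ← N.s_pd, ha j hj, map_zero, neg_zero]

theorem Lv_D {L : Finset M} {a : N.A} (ha : N.Lv L a) : N.Lv L (N.D a) :=
  fun j hj => by rw [N.pd_D, ha j hj, map_zero, neg_zero]

theorem Lv_pd {L : Finset M} {a : N.A} (ha : N.Lv L a) (j : M) : N.Lv L (N.pd j a) :=
  fun i hi => by rw [N.pd_pd, ha i hi, map_zero, neg_zero]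

theorem Lv_dx {L : Finset M} {a : N.A} (ha : N.Lv L a) : N.Lv L (N.dx a) :=
  fun j hj => by rw [← N.dx_pd, ha j hj, map_zero]

theorem Lv_ev {L : Finset M} {a : N.A} (ha : N.Lv L a) : N.Lv L (N.ev a) :=
  fun j hj => by rw [← N.ev_pd, ha j hj, map_zero]

theorem Lv_int {L : Finset M} {a : N.A} (ha : N.Lv L a) : N.Lv L (N.int a) :=
  fun j hj => by rw [← N.int_pd, ha j hj, map_zero]

theorem Lv_inv {L : Finset M} {u : N.Aˣ} (hs : N.s (u : N.A) = u) (h : N.Lv L (u : N.A)) :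
    N.Lv L ((u⁻¹ : N.Aˣ) : N.A) :=
  fun j hj => by
    rw [(N.pd_od j).inv N.sg hs (Units.mul_inv u), h j hj, mul_zero, zero_mul, neg_zero]

theorem Lv_mono {L L' : Finset M} (h : L ⊆ L') {a : N.A} (ha : N.Lv L a) : N.Lv L' a :=
  fun j hj => ha j fun hj' => hj (h hj')

end NR

/-! ### the operators of a node -/

section ND
variable {N : NR M Γ xd e d} (ν : ND N)

/-- `Δ` as a linear map. -/
def ND.ΔL : N.A →ₗ[ℚ] N.A := N.D + (LinearMap.mulLeft ℚ ν.P).comp N.dx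

/-- `r j` as a linear map. -/
def ND.rL (j : M) : N.A →ₗ[ℚ] N.A := N.pd j + (LinearMap.mulLeft ℚ (ν.ρ j)).comp N.dx

/-- `E` as a linear map. -/
def ND.EL : N.A →ₗ[ℚ] N.A := (LinearMap.mulLeft ℚ (ν.φ : N.A)).comp N.dx

theorem ΔL_apply (a : N.A) : ν.ΔL a = ν.Δ a := rfl

theorem rL_apply (j : M) (a : N.A) : ν.rL j a = ν.r j a := rfl

theorem EL_apply (a : N.A) : ν.EL a = ν.E a := rfl

variable {ν}

theorem ND.Ok.Δ_od (ok : ν.Ok) : OD N.s ν.ΔL :=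
  N.D_od.add_smul_ED N.sg N.dx_ed ok.P_s

theorem ND.Ok.r_od (ok : ν.Ok) {j : M} (hj : j ∈ ν.L) : OD N.s (ν.rL j) :=
  (N.pd_od j).add_smul_ED N.sg N.dx_ed (ok.ρ_s j hj)

theorem ND.Ok.E_ed (ok : ν.Ok) : ED N.s ν.EL :=
  N.dx_ed.smul N.sg ok.φ_s

theorem Hd_Δ (ok : ν.Ok) {g : Γ} {a : N.A} (ha : a ∈ N.Hd g) : ν.Δ a ∈ N.Hd (g + d) := by
  have h1 := N.Hd_D g a ha
  have h2 := N.Hd_mul _ _ _ _ ok.P_d (N.Hd_dx g a ha)
  have h3 : e + d + (g - e) = g + d := by abel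
  rw [h3] at h2
  exact add_mem h1 h2

theorem Hd_r (ok : ν.Ok) {j : M} (hj : j ∈ ν.L) {g : Γ} {a : N.A} (ha : a ∈ N.Hd g) :
    ν.r j a ∈ N.Hd (g - xd j) := by
  have h1 := N.Hd_pd g j a ha
  have h2 := N.Hd_mul _ _ _ _ (ok.ρ_d j hj) (N.Hd_dx g a ha)
  have h3 : e - xd j + (g - e) = g - xd j := by abel
  rw [h3] at h2
  exact add_mem h1 h2

theorem Hd_E (ok : ν.Ok) {g : Γ} {a : N.A} (ha : a ∈ N.Hd g) : ν.E a ∈ N.Hd (g - e) := by
  have h2 := N.Hd_mul _ _ _ _ ok.φ_d (N.Hd_dx g a ha)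
  rw [zero_add] at h2
  exact h2

theorem Hd_rl (ok : ν.Ok) {l : List M} (hl : ∀ j ∈ l, j ∈ ν.L) {g : Γ} {a : N.A}
    (ha : a ∈ N.Hd g) : ν.rl l a ∈ N.Hd (g - (l.map xd).sum) := by
  induction l with
  | nil => simpa [ND.rl] using ha
  | cons j l ih =>
    have h1 := Hd_r ok (hl j List.mem_cons_self) (ih fun i hi => hl i (List.mem_cons_of_mem _ hi))
    have h2 : g - (l.map xd).sum - xd j = g - ((j :: l).map xd).sum := by
      rw [List.map_cons, List.sum_cons]; abel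
    rw [h2] at h1
    exact h1

theorem Hd_pow {g : Γ} {a : N.A} (ha : a ∈ N.Hd g) (k : ℕ) : a ^ k ∈ N.Hd (k • g) := by
  induction k with
  | zero => rw [pow_zero, zero_smul]; exact N.Hd_one
  | succ k ih => rw [pow_succ, succ_nsmul]; exact N.Hd_mul _ _ _ _ ih ha

/-! ### commutation relations (on all of `A`) -/

theorem ND.Ok.ΔΔ (ok : ν.Ok) (a : N.A) : ν.Δ (ν.Δ a) = 0 := by
  have h1 := N.odd_anti ν.P ν.P ok.P_s ok.P_s
  have h2 : ν.P * ν.P = 0 := N.sg.odd_sq ok.P_s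
  have h3 : N.D ν.P + ν.P * N.dx ν.P = 0 := ok.ΔP
  simp only [ND.Δ, map_add, N.D_mul, N.dx_mul, N.D_D, N.dx_D, ok.P_s, mul_add]
  have h4 : ν.P * (ν.P * N.dx (N.dx a)) = 0 := by rw [← mul_assoc, h2, zero_mul]
  rw [h4]
  have h5 : N.D ν.P * N.dx a + ν.P * (N.dx ν.P * N.dx a) = 0 := by
    rw [← mul_assoc, ← add_mul, h3, zero_mul]
  rw [neg_mul]
  calc _ = N.D ν.P * N.dx a + ν.P * (N.dx ν.P * N.dx a) := by abel
    _ = 0 := h5

theorem ND.Ok.Δr (ok : ν.Ok) {j : M} (hj : j ∈ ν.L) (a : N.A) : ν.Δ (ν.r j a) = -ν.r j (ν.Δ a) := by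
  have h1 := N.odd_anti ν.P (ν.ρ j) ok.P_s (ok.ρ_s j hj)
  have h3 : N.D (ν.ρ j) + ν.P * N.dx (ν.ρ j) = -(N.pd j ν.P + ν.ρ j * N.dx ν.P) := ok.Δρ j hj
  simp only [ND.Δ, ND.r, map_add, N.D_mul, N.dx_mul, N.pd_mul, N.dx_D, N.dx_pd, N.pd_D, ok.P_s,
    ok.ρ_s j hj, mul_add, neg_mul]
  have h4 : ν.P * (ν.ρ j * N.dx (N.dx a)) = -(ν.ρ j * (ν.P * N.dx (N.dx a))) := by
    rw [← mul_assoc, h1, neg_mul, mul_assoc]
  have h5 : N.D (ν.ρ j) * N.dx a + ν.P * (N.dx (ν.ρ j) * N.dx a)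
      = -(N.pd j ν.P * N.dx a + ν.ρ j * (N.dx ν.P * N.dx a)) := by
    rw [← mul_assoc, ← mul_assoc, ← add_mul, h3, neg_mul, add_mul]
  rw [h4]
  have h6 : N.D (ν.ρ j) * N.dx a = -(N.pd j ν.P * N.dx a + ν.ρ j * (N.dx ν.P * N.dx a))
      - ν.P * (N.dx (ν.ρ j) * N.dx a) := eq_sub_of_add_eq h5
  rw [h6]
  abel

theorem ND.Ok.ΔE (ok : ν.Ok) (a : N.A) : ν.Δ (ν.E a) = ν.E (ν.Δ a) := by
  have h3 : N.D (ν.φ : N.A) + ν.P * N.dx (ν.φ : N.A) = (ν.φ : N.A) * N.dx ν.P := ok.Δφ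
  have h4 : ν.P * ((ν.φ : N.A) * N.dx (N.dx a)) = (ν.φ : N.A) * (ν.P * N.dx (N.dx a)) := by
    rw [← mul_assoc, ← mul_assoc, N.even_comm _ ν.P ok.φ_s]
  simp only [ND.Δ, ND.E, map_add, N.D_mul, N.dx_mul, N.dx_D, ok.φ_s, mul_add]
  rw [h4]
  have h5 : N.D (ν.φ : N.A) * N.dx a + ν.P * (N.dx (ν.φ : N.A) * N.dx a)
      = (ν.φ : N.A) * (N.dx ν.P * N.dx a) := by
    rw [← mul_assoc, ← mul_assoc, ← add_mul, h3]
  rw [← h5]
  abel

theorem ND.Ok.rr (ok : ν.Ok) {i j : M} (hi : i ∈ ν.L) (hj : j ∈ ν.L) (a : N.A) :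
    ν.r i (ν.r j a) + ν.r j (ν.r i a) = ν.g i j * ν.E a := by
  have h1 := N.odd_anti (ν.ρ i) (ν.ρ j) (ok.ρ_s i hi) (ok.ρ_s j hj)
  have hg : ν.g i j * ν.E a = (ν.r i (ν.ρ j) + ν.r j (ν.ρ i)) * N.dx a := by
    have hc := N.even_comm _ (ν.r i (ν.ρ j) + ν.r j (ν.ρ i)) (N.s_inv ok.φ_s)
    rw [ND.g, hc, ND.E, mul_assoc, ← mul_assoc _ (ν.φ : N.A) (N.dx a), Units.inv_mul, one_mul]
  have h4 : ν.ρ i * (ν.ρ j * N.dx (N.dx a)) = -(ν.ρ j * (ν.ρ i * N.dx (N.dx a))) := by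
    rw [← mul_assoc, h1, neg_mul, mul_assoc]
  rw [hg]
  simp only [ND.r, map_add, N.pd_mul, N.dx_mul, N.dx_pd, ok.ρ_s i hi, ok.ρ_s j hj, mul_add,
    add_mul, neg_mul, mul_assoc]
  rw [h4, N.pd_pd i j a]
  abel

theorem ND.Ok.rE (ok : ν.Ok) {j : M} (hj : j ∈ ν.L) (a : N.A) :
    ν.r j (ν.E a) - ν.E (ν.r j a) = ν.h j * ν.E a := by
  have hg : ν.h j * ν.E a = (ν.r j (ν.φ : N.A) - ν.E (ν.ρ j)) * N.dx a := by
    have hc := N.even_comm _ (ν.r j (ν.φ : N.A) - ν.E (ν.ρ j)) (N.s_inv ok.φ_s)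
    rw [ND.h, hc, mul_assoc]
    simp only [ND.E]
    rw [← mul_assoc _ (ν.φ : N.A) (N.dx a), Units.inv_mul, one_mul]
  have h4 : ν.ρ j * ((ν.φ : N.A) * N.dx (N.dx a)) = (ν.φ : N.A) * (ν.ρ j * N.dx (N.dx a)) := by
    rw [← mul_assoc, ← mul_assoc, N.even_comm _ (ν.ρ j) ok.φ_s]
  rw [hg]
  simp only [ND.r, ND.E, map_add, N.pd_mul, N.dx_mul, N.dx_pd, ok.φ_s, mul_add,
    sub_mul, add_mul, mul_assoc]
  rw [h4]
  abel

end ND

end AnOC
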