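import Pool.Agent.Helper23.OC.A01

/-!
# Project OC, A02: the functions on a node form an algebra stable under all the operators

`Fn a`: level `L` and `Q ^ c * a ∈ R`. `Q` is central (even). `Fn_mul`: `Q^(c+c') a b = (Q^c a) (Q^c' b)`.
`Fn_pd`: `Q^(c+1) pd_j a = Q pd_j (Q^c a) - c pd_j(Q) Q^c a`; the same for `D`, `dx`.
`map_Fn`, `map_Δ`, ..: a morphism of node rings commutes with the operators of the nodes; `map_Ok`: the image of a node is a node.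
-/

set_option autoImplicit false

namespace AnOC
open AnWL.Nd

variable {M Γ : Type} [AddCommGroup Γ] {xd : M → Γ} {e d : Γ} {N : NR M Γ xd e d} {ν : ND N}

private theorem Q_R (ok : ν.Ok) : (ν.Q : N.A) ∈ N.R := N.I_le _ ok.Q_I

private theorem Q_comm (ok : ν.Ok) (a : N.A) : (ν.Q : N.A) * a = a * ν.Q :=
  N.even_comm _ _ ok.Q_s

private theorem Qpow_s (ok : ν.Ok) (c : ℕ) : N.s ((ν.Q : N.A) ^ c) = (ν.Q : N.A) ^ c := by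
  rw [map_pow, ok.Q_s]

private theorem Qpow_comm (ok : ν.Ok) (c : ℕ) (a : N.A) :
    (ν.Q : N.A) ^ c * a = a * (ν.Q : N.A) ^ c :=
  N.even_comm _ _ (Qpow_s ok c)

/-- an operator which satisfies the Leibniz rule for `Q` -/
private theorem Fn_der (ok : ν.Ok) (δ : N.A → N.A) (hR : ∀ a ∈ N.R, δ a ∈ N.R)
    (hQ : ∀ a, δ ((ν.Q : N.A) * a) = δ ν.Q * a + ν.Q * δ a) (c : ℕ) :
    ∀ a : N.A, (ν.Q : N.A) ^ c * a ∈ N.R → (ν.Q : N.A) ^ (c + 1) * δ a ∈ N.R := by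
  induction c with
  | zero =>
    intro a ha
    rw [pow_zero, one_mul] at ha
    rw [zero_add, pow_one]
    exact N.R.mul_mem (Q_R ok) (hR a ha)
  | succ c ih =>
    intro a ha
    have h1 : (ν.Q : N.A) ^ c * (ν.Q * a) ∈ N.R := by
      rw [← mul_assoc, ← pow_succ]
      exact ha
    have h2 := ih _ h1
    have h3 : δ (ν.Q : N.A) * ((ν.Q : N.A) ^ (c + 1) * a) ∈ N.R :=
      N.R.mul_mem (hR _ (Q_R ok)) ha
    have h4 : (ν.Q : N.A) ^ (c + 1 + 1) * δ a =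
        (ν.Q : N.A) ^ (c + 1) * δ (ν.Q * a) - δ (ν.Q : N.A) * ((ν.Q : N.A) ^ (c + 1) * a) := by
      rw [hQ, mul_add, ← mul_assoc _ (δ (ν.Q : N.A)) a, Qpow_comm ok (c + 1) (δ (ν.Q : N.A)),
        mul_assoc (δ (ν.Q : N.A)), add_sub_cancel_left, ← mul_assoc, ← pow_succ]
    rw [h4]
    exact N.R.sub_mem h2 h3

theorem Fn_one : ν.Fn 1 :=
  ⟨Lv_one _, 0, by rw [pow_zero, one_mul]; exact N.R.one_mem⟩

theorem Fn_zero : ν.Fn 0 :=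
  ⟨Lv_zero _, 0, by rw [mul_zero]; exact N.R.zero_mem⟩

theorem Fn_of_R {a : N.A} (hl : N.Lv ν.L a) (ha : a ∈ N.R) : ν.Fn a :=
  ⟨hl, 0, by rwa [pow_zero, one_mul]⟩

/-- Raise the exponent. -/
theorem Fn_exp (ok : ν.Ok) {a : N.A} {c c' : ℕ} (hc : c ≤ c') (h : (ν.Q : N.A) ^ c * a ∈ N.R) :
    (ν.Q : N.A) ^ c' * a ∈ N.R := by
  obtain ⟨k, rfl⟩ := Nat.exists_eq_add_of_le' hc
  rw [pow_add, mul_assoc]
  exact N.R.mul_mem (N.R.pow_mem (Q_R ok) k) h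

theorem Fn_add (ok : ν.Ok) {a b : N.A} (ha : ν.Fn a) (hb : ν.Fn b) : ν.Fn (a + b) := by
  obtain ⟨la, c, hc⟩ := ha
  obtain ⟨lb, c', hc'⟩ := hb
  refine ⟨Lv_add la lb, max c c', ?_⟩
  rw [mul_add]
  exact N.R.add_mem (Fn_exp ok (le_max_left _ _) hc) (Fn_exp ok (le_max_right _ _) hc')

theorem Fn_neg {a : N.A} (ha : ν.Fn a) : ν.Fn (-a) := by
  obtain ⟨la, c, hc⟩ := ha
  refine ⟨Lv_neg la, c, ?_⟩
  rw [mul_neg]
  exact N.R.neg_mem hc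

theorem Fn_sub (ok : ν.Ok) {a b : N.A} (ha : ν.Fn a) (hb : ν.Fn b) : ν.Fn (a - b) := by
  rw [sub_eq_add_neg]
  exact Fn_add ok ha (Fn_neg hb)

theorem Fn_smul {a : N.A} (ha : ν.Fn a) (r : ℚ) : ν.Fn (r • a) := by
  obtain ⟨la, c, hc⟩ := ha
  refine ⟨Lv_smul la r, c, ?_⟩
  rw [mul_smul_comm]
  exact N.R.smul_mem hc r

theorem Fn_mul (ok : ν.Ok) {a b : N.A} (ha : ν.Fn a) (hb : ν.Fn b) : ν.Fn (a * b) := by
  obtain ⟨la, c, hc⟩ := ha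
  obtain ⟨lb, c', hc'⟩ := hb
  refine ⟨Lv_mul la lb, c + c', ?_⟩
  have h1 : (ν.Q : N.A) ^ (c + c') * (a * b) =
      ((ν.Q : N.A) ^ c * a) * ((ν.Q : N.A) ^ c' * b) := by
    rw [pow_add, mul_assoc, ← mul_assoc ((ν.Q : N.A) ^ c') a b, Qpow_comm ok c' a]
    simp only [mul_assoc]
  rw [h1]
  exact N.R.mul_mem hc hc'

theorem Fn_pow (ok : ν.Ok) {a : N.A} (ha : ν.Fn a) (k : ℕ) : ν.Fn (a ^ k) := by
  induction k with
  | zero => rw [pow_zero]; exact Fn_one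
  | succ k ih => rw [pow_succ]; exact Fn_mul ok ih ha

theorem Fn_sum (ok : ν.Ok) {α : Type} (S : Finset α) {f : α → N.A} (h : ∀ i ∈ S, ν.Fn (f i)) :
    ν.Fn (∑ i ∈ S, f i) := by
  classical
  induction S using Finset.induction_on with
  | empty => rw [Finset.sum_empty]; exact Fn_zero
  | insert a S ha ih =>
    rw [Finset.sum_insert ha]
    exact Fn_add ok (h a (Finset.mem_insert_self _ _))
      (ih fun i hi => h i (Finset.mem_insert_of_mem hi))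

theorem Fn_s (ok : ν.Ok) {a : N.A} (ha : ν.Fn a) : ν.Fn (N.s a) := by
  obtain ⟨la, c, hc⟩ := ha
  refine ⟨Lv_s la, c, ?_⟩
  have h1 := N.s_R _ hc
  rwa [map_mul, Qpow_s ok] at h1

theorem Fn_D (ok : ν.Ok) {a : N.A} (ha : ν.Fn a) : ν.Fn (N.D a) := by
  obtain ⟨la, c, hc⟩ := ha
  exact ⟨Lv_D la, c + 1, Fn_der ok N.D N.D_R (fun b => by rw [N.D_mul, ok.Q_s]) c a hc⟩

theorem Fn_pd (ok : ν.Ok) {a : N.A} (ha : ν.Fn a) (j : M) : ν.Fn (N.pd j a) := by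
  obtain ⟨la, c, hc⟩ := ha
  exact ⟨Lv_pd la j, c + 1,
    Fn_der ok (N.pd j) (N.pd_R j) (fun b => by rw [N.pd_mul, ok.Q_s]) c a hc⟩

theorem Fn_dx (ok : ν.Ok) {a : N.A} (ha : ν.Fn a) : ν.Fn (N.dx a) := by
  obtain ⟨la, c, hc⟩ := ha
  exact ⟨Lv_dx la, c + 1, Fn_der ok N.dx N.dx_R (fun b => N.dx_mul _ _) c a hc⟩

theorem Fn_Q (ok : ν.Ok) : ν.Fn (ν.Q : N.A) := Fn_of_R ok.Q_lv (Q_R ok)

theorem Fn_Qinv (ok : ν.Ok) : ν.Fn ((ν.Q⁻¹ : N.Aˣ) : N.A) := by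
  refine ⟨Lv_inv ok.Q_s ok.Q_lv, 1, ?_⟩
  rw [pow_one, Units.mul_inv]
  exact N.R.one_mem

theorem Fn_Δ (ok : ν.Ok) {a : N.A} (ha : ν.Fn a) : ν.Fn (ν.Δ a) :=
  Fn_add ok (Fn_D ok ha) (Fn_mul ok ok.P_fn (Fn_dx ok ha))

theorem Fn_r (ok : ν.Ok) {a : N.A} (ha : ν.Fn a) {j : M} (hj : j ∈ ν.L) : ν.Fn (ν.r j a) :=
  Fn_add ok (Fn_pd ok ha j) (Fn_mul ok (ok.ρ_fn j hj) (Fn_dx ok ha))

theorem Fn_rl (ok : ν.Ok) {a : N.A} (ha : ν.Fn a) {l : List M} (hl : ∀ j ∈ l, j ∈ ν.L) :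
    ν.Fn (ν.rl l a) := by
  induction l with
  | nil => exact ha
  | cons j l ih =>
    exact Fn_r ok (ih fun i hi => hl i (List.mem_cons_of_mem _ hi)) (hl j List.mem_cons_self)

theorem Fn_E (ok : ν.Ok) {a : N.A} (ha : ν.Fn a) : ν.Fn (ν.E a) :=
  Fn_mul ok ok.φ_fn (Fn_dx ok ha)

theorem Fn_g (ok : ν.Ok) {i j : M} (hi : i ∈ ν.L) (hj : j ∈ ν.L) : ν.Fn (ν.g i j) :=
  Fn_mul ok ok.φ_fn' (Fn_add ok (Fn_r ok (ok.ρ_fn j hj) hi) (Fn_r ok (ok.ρ_fn i hi) hj))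

theorem Fn_h (ok : ν.Ok) {j : M} (hj : j ∈ ν.L) : ν.Fn (ν.h j) :=
  Fn_mul ok ok.φ_fn' (Fn_sub ok (Fn_r ok ok.φ_fn hj) (Fn_E ok (ok.ρ_fn j hj)))

private theorem Δ_Q (ok : ν.Ok) (a : N.A) : ν.Δ ((ν.Q : N.A) * a) = ν.Q * ν.Δ a := by
  have h1 := ok.Δ_od.mul (ν.Q : N.A) a
  rw [ΔL_apply, ΔL_apply, ΔL_apply, ok.ΔQ, ok.Q_s, zero_mul, zero_add] at h1
  exact h1

private theorem Δ_Qinv (ok : ν.Ok) (a : N.A) :
    ν.Δ (((ν.Q⁻¹ : N.Aˣ) : N.A) * a) = ((ν.Q⁻¹ : N.Aˣ) : N.A) * ν.Δ a := by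
  have h1 := Δ_Q ok (((ν.Q⁻¹ : N.Aˣ) : N.A) * a)
  rw [Units.mul_inv_cancel_left] at h1
  rw [h1, Units.inv_mul_cancel_left]

/-- `Δ (Q ^ c * a) = Q ^ c * Δ a`, also for negative powers. -/
theorem Δ_Qpow (ok : ν.Ok) (c : ℤ) (a : N.A) :
    ν.Δ (((ν.Q ^ c : N.Aˣ) : N.A) * a) = ((ν.Q ^ c : N.Aˣ) : N.A) * ν.Δ a := by
  induction c generalizing a with
  | zero => rw [zpow_zero, Units.val_one, one_mul, one_mul]
  | succ c ih =>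
    rw [zpow_add_one, Units.val_mul, mul_assoc, ih, Δ_Q ok, mul_assoc]
  | pred c ih =>
    rw [zpow_sub_one, Units.val_mul, mul_assoc, ih, Δ_Qinv ok, mul_assoc]

theorem g_s (ok : ν.Ok) {i j : M} (hi : i ∈ ν.L) (hj : j ∈ ν.L) : N.s (ν.g i j) = ν.g i j := by
  have h1 := (ok.r_od hi).sg (ν.ρ j)
  have h2 := (ok.r_od hj).sg (ν.ρ i)
  rw [ok.ρ_s j hj, map_neg, neg_neg, rL_apply] at h1
  rw [ok.ρ_s i hi, map_neg, neg_neg, rL_apply] at h2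
  unfold ND.g
  rw [map_mul, map_add, h1, h2, N.s_inv ok.φ_s]

theorem h_s (ok : ν.Ok) {j : M} (hj : j ∈ ν.L) : N.s (ν.h j) = -ν.h j := by
  have h1 := (ok.r_od hj).sg (ν.φ : N.A)
  have h2 := ok.E_ed.sg (ν.ρ j)
  rw [ok.φ_s, rL_apply] at h1
  rw [ok.ρ_s j hj, map_neg, EL_apply] at h2
  unfold ND.h
  rw [map_mul, map_sub, h1, h2, N.s_inv ok.φ_s, ← mul_neg]
  congr 1
  abel

end AnOC
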