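import Pool.Agent.Helper23.OC.D01
import Pool.Agent.Helper48.G2.Cls

/-!
# Project OC: morphisms of node rings, products, power series

* `NMor N N'`: structure preserving algebra maps; the degrees are mapped by `γ`.
* `NR.pi G`: the product ring of a family `G : ι → NR M Γ xd e d` (degrees `ι → Γ`).
* `psn G e`: the node ring `PowerSeries G.A` of a `GA` (`x` = the variable, of degree `e`, `e` even); `psm φ`: the map
  of a `Mor`. The proofs of the axioms of `psn`, `psm` are in `D03`.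
* `Nst K e ℓ` = the main statement `N(ℓ)`.
-/

set_option autoImplicit false

namespace AnOC

variable {M Γ Γ' Γ'' : Type} [AddCommGroup Γ] [AddCommGroup Γ'] [AddCommGroup Γ'']
  {xd : M → Γ} {e d : Γ} {xd' : M → Γ'} {e' d' : Γ'} {xd'' : M → Γ''} {e'' d'' : Γ''}

/-- Morphisms of node rings. -/
structure NMor (N : NR M Γ xd e d) (N' : NR M Γ' xd' e' d') where
  f : N.A →ₐ[ℚ] N'.A
  γ : Γ →+ Γ'
  γ_xd : ∀ j, γ (xd j) = xd' j
  γ_e : γ e = e'
  γ_d : γ d = d'
  s : ∀ a, N'.s (f a) = f (N.s a)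
  D : ∀ a, N'.D (f a) = f (N.D a)
  dx : ∀ a, N'.dx (f a) = f (N.dx a)
  pd : ∀ i a, N'.pd i (f a) = f (N.pd i a)
  ev : ∀ a, N'.ev (f a) = f (N.ev a)
  int : ∀ a, N'.int (f a) = f (N.int a)
  R : ∀ a ∈ N.R, f a ∈ N'.R
  I : ∀ a ∈ N.I, f a ∈ N'.I
  Nl : ∀ a ∈ N.Nl, f a ∈ N'.Nl
  Hd : ∀ g, ∀ a ∈ N.Hd g, f a ∈ N'.Hd (γ g)

/-- Composition: first `f`, then `g`. -/
def NMor.comp {N : NR M Γ xd e d} {N' : NR M Γ' xd' e' d'} {N'' : NR M Γ'' xd'' e'' d''}
    (f : NMor N N') (g : NMor N' N'') : NMor N N'' where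
  f := g.f.comp f.f
  γ := g.γ.comp f.γ
  γ_xd j := by simp [f.γ_xd, g.γ_xd]
  γ_e := by simp [f.γ_e, g.γ_e]
  γ_d := by simp [f.γ_d, g.γ_d]
  s a := by simp [g.s, f.s]
  D a := by simp [g.D, f.D]
  dx a := by simp [g.dx, f.dx]
  pd i a := by simp [g.pd, f.pd]
  ev a := by simp [g.ev, f.ev]
  int a := by simp [g.int, f.int]
  R a h := g.R _ (f.R _ h)
  I a h := g.I _ (f.I _ h)
  Nl a h := g.Nl _ (f.Nl _ h)
  Hd k a h := g.Hd _ _ (f.Hd _ _ h)

/-- The identity. -/
def NMor.id (N : NR M Γ xd e d) : NMor N N where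
  f := AlgHom.id ℚ N.A
  γ := AddMonoidHom.id Γ
  γ_xd _ := rfl
  γ_e := rfl
  γ_d := rfl
  s _ := rfl
  D _ := rfl
  dx _ := rfl
  pd _ _ := rfl
  ev _ := rfl
  int _ := rfl
  R _ h := h
  I _ h := h
  Nl _ h := h
  Hd _ _ h := h

/-- The image of a node. -/
def ND.map {N : NR M Γ xd e d} {N' : NR M Γ' xd' e' d'} (ν : ND N) (f : NMor N N') : ND N' where
  L := ν.L
  P := f.f ν.P
  φ := Units.map (f.f : N.A →* N'.A) ν.φ
  ρ := fun j => f.f (ν.ρ j)
  Q := Units.map (f.f : N.A →* N'.A) ν.Q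
  q := f.γ ν.q

section pi
variable {ι : Type}

/-- The product ring. -/
def NR.pi (G : ι → NR M Γ xd e d) :
    NR M (ι → Γ) (fun j _ => xd j) (fun _ => e) (fun _ => d) where
  A := ∀ i, (G i).A
  s := AlgHom.pi fun i => (G i).s.comp (Pi.evalAlgHom ℚ _ i)
  D := LinearMap.pi fun i => (G i).D.comp (LinearMap.proj i)
  dx := LinearMap.pi fun i => (G i).dx.comp (LinearMap.proj i)
  pd j := LinearMap.pi fun i => ((G i).pd j).comp (LinearMap.proj i)
  ev := AlgHom.pi fun i => (G i).ev.comp (Pi.evalAlgHom ℚ _ i)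
  int := LinearMap.pi fun i => (G i).int.comp (LinearMap.proj i)
  R :=
    { carrier := {a | ∀ i, a i ∈ (G i).R}
      mul_mem' := fun ha hb i => (G i).R.mul_mem (ha i) (hb i)
      add_mem' := fun ha hb i => (G i).R.add_mem (ha i) (hb i)
      algebraMap_mem' := fun r i => (G i).R.algebraMap_mem r }
  I :=
    { carrier := {a | ∀ i, a i ∈ (G i).I}
      add_mem' := fun ha hb i => (G i).I.add_mem (ha i) (hb i)
      zero_mem' := fun i => (G i).I.zero_mem
      smul_mem' := fun r _ ha i => (G i).I.smul_mem r (ha i) }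
  Nl :=
    { carrier := {a | ∀ i, a i ∈ (G i).Nl}
      add_mem' := fun ha hb i => (G i).Nl.add_mem (ha i) (hb i)
      zero_mem' := fun i => (G i).Nl.zero_mem
      smul_mem' := fun r _ ha i => (G i).Nl.smul_mem r (ha i) }
  Hd g :=
    { carrier := {a | ∀ i, a i ∈ (G i).Hd (g i)}
      add_mem' := fun ha hb i => ((G i).Hd (g i)).add_mem (ha i) (hb i)
      zero_mem' := fun i => ((G i).Hd (g i)).zero_mem
      smul_mem' := fun r _ ha i => ((G i).Hd (g i)).smul_mem r (ha i) }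
  s_s a := funext fun i => (G i).s_s (a i)
  even_comm a b h := funext fun i => (G i).even_comm (a i) (b i) (congrFun h i)
  odd_anti a b h h' := funext fun i => (G i).odd_anti (a i) (b i) (congrFun h i) (congrFun h' i)
  D_mul a b := funext fun i => (G i).D_mul (a i) (b i)
  D_D a := funext fun i => (G i).D_D (a i)
  s_D a := funext fun i => (G i).s_D (a i)
  pd_mul j a b := funext fun i => (G i).pd_mul j (a i) (b i)
  pd_pd j k a := funext fun i => (G i).pd_pd j k (a i)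
  pd_D j a := funext fun i => (G i).pd_D j (a i)
  s_pd j a := funext fun i => (G i).s_pd j (a i)
  dx_mul a b := funext fun i => (G i).dx_mul (a i) (b i)
  dx_D a := funext fun i => (G i).dx_D (a i)
  dx_pd j a := funext fun i => (G i).dx_pd j (a i)
  s_dx a := funext fun i => (G i).s_dx (a i)
  dx_ev a := funext fun i => (G i).dx_ev (a i)
  ev_of a h := funext fun i => (G i).ev_of (a i) (congrFun h i)
  ev_D a := funext fun i => (G i).ev_D (a i)
  ev_pd j a := funext fun i => (G i).ev_pd j (a i)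
  ev_s a := funext fun i => (G i).ev_s (a i)
  ev_unit a hu := by
    rw [Pi.isUnit_iff] at hu ⊢
    exact fun i => (G i).ev_unit (a i) (hu i)
  dx_int a := funext fun i => (G i).dx_int (a i)
  ev_int a := funext fun i => (G i).ev_int (a i)
  s_R a h i := (G i).s_R (a i) (h i)
  D_R a h i := (G i).D_R (a i) (h i)
  pd_R j a h i := (G i).pd_R j (a i) (h i)
  dx_R a h i := (G i).dx_R (a i) (h i)
  ev_R a h i := (G i).ev_R (a i) (h i)
  int_R a h i := (G i).int_R (a i) (h i)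
  I_le a h i := (G i).I_le (a i) (h i)
  mul_I r hr a h i := (G i).mul_I (r i) (hr i) (a i) (h i)
  I_mul a h r hr i := (G i).I_mul (a i) (h i) (r i) (hr i)
  s_I a h i := (G i).s_I (a i) (h i)
  D_I a h i := (G i).D_I (a i) (h i)
  pd_I j a h i := (G i).pd_I j (a i) (h i)
  dx_I a h i := (G i).dx_I (a i) (h i)
  ev_I a h i := (G i).ev_I (a i) (h i)
  int_I a h i := (G i).int_I (a i) (h i)
  Nl_le a h i := (G i).Nl_le (a i) (h i)
  mul_Nl r hr a h i := (G i).mul_Nl (r i) (hr i) (a i) (h i)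
  Nl_mul a h r hr i := (G i).Nl_mul (a i) (h i) (r i) (hr i)
  D_Nl r hr i := (G i).D_Nl (r i) (hr i)
  ev_Nl a h i := (G i).ev_Nl (a i) (h i)
  pow_Nl r hr hx k h i := (G i).pow_Nl (r i) (hr i) (congrFun hx i) k (h i)
  odd_Nl r hr hs i := (G i).odd_Nl (r i) (hr i) (congrFun hs i)
  Hd_one i := (G i).Hd_one
  Hd_mul g h a b ha hb i := (G i).Hd_mul (g i) (h i) (a i) (b i) (ha i) (hb i)
  Hd_s g a ha i := (G i).Hd_s (g i) (a i) (ha i)
  Hd_D g a ha i := (G i).Hd_D (g i) (a i) (ha i)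
  Hd_pd g j a ha i := (G i).Hd_pd (g i) j (a i) (ha i)
  Hd_dx g a ha i := (G i).Hd_dx (g i) (a i) (ha i)
  Hd_ev g a ha i := (G i).Hd_ev (g i) (a i) (ha i)
  Hd_int g a ha i := (G i).Hd_int (g i) (a i) (ha i)
  Hd_inv g u hu i := (G i).Hd_inv (g i) (MulEquiv.piUnits u i) (hu i)

/-- Componentwise morphisms. -/
def NMor.pi {G H : ι → NR M Γ xd e d} (f : ∀ i, NMor (G i) (H i)) (hf : ∀ i, (f i).γ = AddMonoidHom.id Γ) :
    NMor (NR.pi G) (NR.pi H) where
  f := AlgHom.pi fun i => (f i).f.comp (Pi.evalAlgHom ℚ _ i)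
  γ := AddMonoidHom.id _
  γ_xd _ := rfl
  γ_e := rfl
  γ_d := rfl
  s a := funext fun i => (f i).s (a i)
  D a := funext fun i => (f i).D (a i)
  dx a := funext fun i => (f i).dx (a i)
  pd j a := funext fun i => (f i).pd j (a i)
  ev a := funext fun i => (f i).ev (a i)
  int a := funext fun i => (f i).int (a i)
  R a h i := (f i).R (a i) (h i)
  I a h i := (f i).I (a i) (h i)
  Nl a h i := (f i).Nl (a i) (h i)
  Hd g a h i := by
    have := (f i).Hd (g i) (a i) (h i)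
    rw [hf i] at this
    exact this

/-- Change of the index set along `p`. -/
def NMor.pull {ι' : Type} (G : ι → NR M Γ xd e d) (p : ι' → ι) :
    NMor (NR.pi G) (NR.pi fun i' => G (p i')) where
  f := AlgHom.pi fun i' => Pi.evalAlgHom ℚ _ (p i')
  γ :=
    { toFun := fun g i' => g (p i')
      map_zero' := rfl
      map_add' := fun _ _ => rfl }
  γ_xd _ := rfl
  γ_e := rfl
  γ_d := rfl
  s _ := rfl
  D _ := rfl
  dx _ := rfl
  pd _ _ := rfl
  ev _ := rfl
  int _ := rfl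
  R _ h i' := h (p i')
  I _ h i' := h (p i')
  Nl _ h i' := h (p i')
  Hd _ _ h i' := h (p i')

end pi

end AnOC
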