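import Pool.Agent.Helper23.OC.A02
import Pool.Agent.Helper23.OC.D02

/-!
# Project OC, A03: images of nodes and filtrations under a morphism of node rings

`map_fil`: `F' k g' =` span of the `f a`, `a ∈ F k g`, `γ g = g'` (`Submodule.span ℚ {b | ∃ g a, γ g = g' ∧ a ∈ F k g ∧ b = f a}`);
all the axioms by `Submodule.span_induction` (twice for `mul`). `g`, `h` of the image are the images of `g`, `h`.
-/

set_option autoImplicit false

namespace AnOC

variable {M Γ Γ' : Type} [AddCommGroup Γ] [AddCommGroup Γ']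
  {xd : M → Γ} {e d : Γ} {xd' : M → Γ'} {e' d' : Γ'}
  {N : NR M Γ xd e d} {N' : NR M Γ' xd' e' d'} {ν : ND N} (f : NMor N N')

private theorem a03_inv (u : N.Aˣ) : f.f ((u⁻¹ : N.Aˣ) : N.A) =
    (((Units.map (f.f : N.A →* N'.A) u)⁻¹ : N'.Aˣ) : N'.A) := by
  rw [← map_inv]
  rfl

theorem map_Lv {L : Finset M} {a : N.A} (ha : N.Lv L a) : N'.Lv L (f.f a) := by
  intro j hj
  rw [f.pd, ha j hj, map_zero]

theorem map_Δ (a : N.A) : (ν.map f).Δ (f.f a) = f.f (ν.Δ a) := by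
  unfold ND.Δ
  rw [map_add, map_mul, f.D, f.dx]
  rfl

theorem map_r (j : M) (a : N.A) : (ν.map f).r j (f.f a) = f.f (ν.r j a) := by
  unfold ND.r
  rw [map_add, map_mul, f.pd, f.dx]
  rfl

theorem map_rl (l : List M) (a : N.A) : (ν.map f).rl l (f.f a) = f.f (ν.rl l a) := by
  induction l with
  | nil => rfl
  | cons j l ih =>
    change (ν.map f).r j ((ν.map f).rl l (f.f a)) = f.f (ν.r j (ν.rl l a))
    rw [ih, map_r]

theorem map_pdl (l : List M) (a : N.A) : N'.pdl l (f.f a) = f.f (N.pdl l a) := by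
  induction l with
  | nil => rfl
  | cons j l ih =>
    change N'.pd j (N'.pdl l (f.f a)) = f.f (N.pd j (N.pdl l a))
    rw [ih, f.pd]

theorem map_E (a : N.A) : (ν.map f).E (f.f a) = f.f (ν.E a) := by
  unfold ND.E
  rw [map_mul, f.dx]
  rfl

theorem map_Fn {a : N.A} (ha : ν.Fn a) : (ν.map f).Fn (f.f a) := by
  obtain ⟨h1, c, h2⟩ := ha
  refine ⟨map_Lv f h1, c, ?_⟩
  have h3 := f.R _ h2
  rw [map_mul, map_pow] at h3
  exact h3

theorem map_g (i j : M) : (ν.map f).g i j = f.f (ν.g i j) := by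
  unfold ND.g
  rw [map_mul, map_add, ← map_r, ← map_r, a03_inv f]
  rfl

theorem map_h (j : M) : (ν.map f).h j = f.f (ν.h j) := by
  unfold ND.h
  rw [map_mul, map_sub, ← map_r, ← map_E, a03_inv f]
  rfl

theorem map_Ok (ok : ν.Ok) : (ν.map f).Ok := by
  have hφi : (((ν.map f).φ⁻¹ : N'.Aˣ) : N'.A) = f.f ((ν.φ⁻¹ : N.Aˣ) : N.A) :=
    (a03_inv f ν.φ).symm
  constructor
  · exact (f.s _).trans (by rw [ok.P_s, map_neg]; rfl)
  · exact (f.s _).trans (by rw [ok.φ_s]; rfl)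
  · intro j hj
    exact (f.s _).trans (by rw [ok.ρ_s j hj, map_neg]; rfl)
  · exact (f.s _).trans (by rw [ok.Q_s]; rfl)
  · have h1 := f.Hd _ _ ok.P_d
    rw [map_add, f.γ_e, f.γ_d] at h1
    exact h1
  · have h1 := f.Hd _ _ ok.φ_d
    rw [map_zero] at h1
    exact h1
  · intro j hj
    have h1 := f.Hd _ _ (ok.ρ_d j hj)
    rw [map_sub, f.γ_e, f.γ_xd] at h1
    exact h1
  · exact f.Hd _ _ ok.Q_d
  · exact f.I _ ok.Q_I
  · exact map_Lv f ok.Q_lv
  · exact map_Fn f ok.P_fn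
  · exact map_Fn f ok.φ_fn
  · rw [hφi]
    exact map_Fn f ok.φ_fn'
  · intro j hj
    exact map_Fn f (ok.ρ_fn j hj)
  · exact (map_Δ f _).trans (by rw [ok.ΔP, map_zero])
  · exact (map_Δ f _).trans (by rw [ok.Δφ, ← map_E]; rfl)
  · intro j hj
    exact (map_Δ f _).trans (by rw [ok.Δρ j hj, map_neg, ← map_r]; rfl)
  · exact (map_Δ f _).trans (by rw [ok.ΔQ, map_zero])

/-- The image filtration. -/
private def a03F (F : ℕ → Γ → Submodule ℚ N.A) (k : ℕ) (g' : Γ') : Submodule ℚ N'.A :=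
  Submodule.span ℚ {b | ∃ g a, f.γ g = g' ∧ a ∈ F k g ∧ b = f.f a}

private theorem a03_mem {F : ℕ → Γ → Submodule ℚ N.A} {k : ℕ} {g : Γ} {a : N.A}
    (ha : a ∈ F k g) : f.f a ∈ a03F f F k (f.γ g) :=
  Submodule.subset_span ⟨g, a, rfl, ha, rfl⟩

private theorem a03_mem' {F : ℕ → Γ → Submodule ℚ N.A} {k : ℕ} {g : Γ} {g' : Γ'}
    (hg : f.γ g = g') {a : N.A} (ha : a ∈ F k g) : f.f a ∈ a03F f F k g' :=
  hg ▸ a03_mem f ha

private theorem a03_ind {F : ℕ → Γ → Submodule ℚ N.A} {k : ℕ} {g' : Γ'} {C : N'.A → Prop}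
    (h : ∀ g, f.γ g = g' → ∀ a ∈ F k g, C (f.f a)) (h0 : C 0)
    (hadd : ∀ a b, C a → C b → C (a + b)) (hsmul : ∀ (r : ℚ) a, C a → C (r • a))
    {b : N'.A} (hb : b ∈ a03F f F k g') : C b := by
  unfold a03F at hb
  induction hb using Submodule.span_induction with
  | mem x hx =>
    obtain ⟨g, a, hg, ha, rfl⟩ := hx
    exact h g hg a ha
  | zero => exact h0
  | add x y _ _ hx hy => exact hadd _ _ hx hy
  | smul r x _ hx => exact hsmul _ _ hx

private theorem a03_PFil (ok : ν.Ok) {F : ℕ → Γ → Submodule ℚ N.A} (hF : ν.PFil F) :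
    (ν.map f).PFil (a03F f F) := by
  have ok' := map_Ok f ok
  constructor
  · intro k g' b hb
    refine a03_ind f (C := fun b => b ∈ N'.Hd g') (fun g hg a ha => ?_) (zero_mem _)
      (fun _ _ h1 h2 => add_mem h1 h2) (fun r _ h1 => Submodule.smul_mem _ r h1) hb
    rw [← hg]
    exact f.Hd _ _ (hF.hd k g ha)
  · intro k g' b hb
    exact a03_ind f (C := fun b => (ν.map f).Fn b) (fun g hg a ha => map_Fn f (hF.fn k g a ha))
      Fn_zero (fun _ _ h1 h2 => Fn_add ok' h1 h2) (fun r _ h1 => Fn_smul h1 r) hb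
  · intro k g' b hb
    refine a03_ind f (C := fun b => (ν.map f).Δ b = 0) (fun g hg a ha => ?_) ?_
      (fun a b h1 h2 => ?_) (fun r a h1 => ?_) hb
    · rw [map_Δ, hF.cl k g a ha, map_zero]
    · rw [← ΔL_apply, map_zero]
    · rw [← ΔL_apply, map_add, ΔL_apply, ΔL_apply, h1, h2, add_zero]
    · rw [← ΔL_apply, map_smul, ΔL_apply, h1, smul_zero]
  · intro k g' b hb
    exact a03_ind f (C := fun b => b ∈ a03F f F k g')
      (fun g hg a ha => a03_mem' f hg (hF.mono k g ha)) (zero_mem _)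
      (fun _ _ h1 h2 => add_mem h1 h2) (fun r _ h1 => Submodule.smul_mem _ r h1) hb
  · intro k l g' h' a ha b hb
    refine a03_ind f (C := fun a => a * b ∈ a03F f F (k + l) (g' + h')) (fun g hg a ha => ?_) ?_
      (fun x y h1 h2 => ?_) (fun r x h1 => ?_) ha
    · refine a03_ind f (C := fun b => f.f a * b ∈ a03F f F (k + l) (g' + h'))
        (fun h hh b hb => ?_) ?_ (fun x y h1 h2 => ?_) (fun r x h1 => ?_) hb
      · rw [← map_mul]
        exact a03_mem' f (by rw [map_add, hg, hh]) (hF.mul k l g h a ha b hb)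
      · rw [mul_zero]; exact zero_mem _
      · rw [mul_add]; exact add_mem h1 h2
      · rw [mul_smul_comm]; exact Submodule.smul_mem _ _ h1
    · rw [zero_mul]; exact zero_mem _
    · rw [add_mul]; exact add_mem h1 h2
    · rw [smul_mul_assoc]; exact Submodule.smul_mem _ _ h1
  · intro k g' b hb
    refine a03_ind f (C := fun b => N'.s b ∈ a03F f F k g') (fun g hg a ha => ?_) ?_
      (fun x y h1 h2 => ?_) (fun r x h1 => ?_) hb
    · rw [f.s]
      exact a03_mem' f hg (hF.s_mem k g a ha)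
    · rw [map_zero]; exact zero_mem _
    · rw [map_add]; exact add_mem h1 h2
    · rw [map_smul]; exact Submodule.smul_mem _ _ h1
  · intro j hj k g' b hb
    refine a03_ind f (C := fun b => (ν.map f).r j b ∈ a03F f F (k + 1) (g' - xd' j))
      (fun g hg a ha => ?_) ?_ (fun x y h1 h2 => ?_) (fun r x h1 => ?_) hb
    · rw [map_r]
      exact a03_mem' f (by rw [map_sub, hg, f.γ_xd]) (hF.r_mem j hj k g a ha)
    · rw [← rL_apply, map_zero]; exact zero_mem _
    · rw [← rL_apply, map_add]; exact add_mem h1 h2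
    · rw [← rL_apply, map_smul]; exact Submodule.smul_mem _ _ h1
  · intro k g' b hb
    refine a03_ind f (C := fun b => (ν.map f).E b ∈ a03F f F (k + 1) (g' - e'))
      (fun g hg a ha => ?_) ?_ (fun x y h1 h2 => ?_) (fun r x h1 => ?_) hb
    · rw [map_E]
      exact a03_mem' f (by rw [map_sub, hg, f.γ_e]) (hF.E_mem k g a ha)
    · rw [← EL_apply, map_zero]; exact zero_mem _
    · rw [← EL_apply, map_add]; exact add_mem h1 h2
    · rw [← EL_apply, map_smul]; exact Submodule.smul_mem _ _ h1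
  · have h1 := a03_mem' f (g' := 0) (map_zero f.γ) hF.one
    rw [map_one] at h1
    exact h1
  · intro i hi j hj
    rw [map_g]
    exact a03_mem' f (by rw [map_sub, map_sub, f.γ_e, f.γ_xd, f.γ_xd]) (hF.g_mem i hi j hj)
  · intro j hj
    rw [map_h]
    exact a03_mem' f (by rw [map_neg, f.γ_xd]) (hF.h_mem j hj)
  · obtain ⟨K, hK⟩ := hF.ex
    refine ⟨K, fun g' b hb => ?_⟩
    refine a03_ind f (C := fun b => ∃ z, (ν.map f).Fn z ∧ z ∈ N'.Hd (g' - d') ∧
      (ν.map f).Δ z = b) (fun g hg a ha => ?_) ?_ (fun x y h1 h2 => ?_) (fun r x h1 => ?_) hb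
    · obtain ⟨z, hz1, hz2, hz3⟩ := hK g a ha
      refine ⟨f.f z, map_Fn f hz1, ?_, by rw [map_Δ, hz3]⟩
      have h1 := f.Hd _ _ hz2
      rw [map_sub, hg, f.γ_d] at h1
      exact h1
    · exact ⟨0, Fn_zero, zero_mem _, by rw [← ΔL_apply, map_zero]⟩
    · obtain ⟨z, hz1, hz2, hz3⟩ := h1
      obtain ⟨w, hw1, hw2, hw3⟩ := h2
      refine ⟨z + w, Fn_add ok' hz1 hw1, add_mem hz2 hw2, ?_⟩
      rw [← ΔL_apply, map_add, ΔL_apply, ΔL_apply, hz3, hw3]
    · obtain ⟨z, hz1, hz2, hz3⟩ := h1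
      refine ⟨r • z, Fn_smul hz1 r, Submodule.smul_mem _ _ hz2, ?_⟩
      rw [← ΔL_apply, map_smul, ΔL_apply, hz3]

theorem map_PFil (ok : ν.Ok) {F : ℕ → Γ → Submodule ℚ N.A} (hF : ν.PFil F) :
    ∃ F' : ℕ → Γ' → Submodule ℚ N'.A, (ν.map f).PFil F' ∧
      ∀ k g, ∀ a ∈ F k g, f.f a ∈ F' k (f.γ g) := by
  exact ⟨a03F f F, a03_PFil f ok hF, fun k g a ha => a03_mem f ha⟩

theorem map_Fil (ok : ν.Ok) {F : ℕ → Γ → Submodule ℚ N.A} (hF : ν.Fil F) :
    ∃ F' : ℕ → Γ' → Submodule ℚ N'.A, (ν.map f).Fil F' ∧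
      ∀ k g, ∀ a ∈ F k g, f.f a ∈ F' k (f.γ g) := by
  refine ⟨a03F f F, ⟨a03_PFil f ok hF.toPFil, ?_, ?_⟩, fun k g a ha => a03_mem f ha⟩
  · exact a03_mem f hF.Q_mem
  · have h1 := a03_mem f hF.Q_mem'
    rw [map_neg, a03_inv f] at h1
    exact h1

/-- Nodes are mapped functorially. -/
theorem map_map {Γ'' : Type} [AddCommGroup Γ''] {xd'' : M → Γ''} {e'' d'' : Γ''}
    {N'' : NR M Γ'' xd'' e'' d''} (g : NMor N' N'') (h : NMor N N'')
    (h1 : ∀ a, h.f a = g.f (f.f a)) (h2 : ∀ a, h.γ a = g.γ (f.γ a)) :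
    ν.map h = (ν.map f).map g := by
  have e1 : ∀ u : N.Aˣ, Units.map (h.f : N.A →* N''.A) u =
      Units.map (g.f : N'.A →* N''.A) (Units.map (f.f : N.A →* N'.A) u) :=
    fun u => Units.ext (h1 (u : N.A))
  unfold ND.map
  simp only [e1, h1, h2]

end AnOC
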