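import Pool.Agent.Helper57.G2.Chi3

/-!
# Project OC, B01: the child node (elimination of one odd direction `y`)

Data: a node `ν` with filtration `F`, `y ∈ L`, an odd closed `u`, `V = r y u` a unit, `V, V⁻¹, r j u ∈ F 0`, `E u ∈ F 1`.

PROOF. `w = ∂_y u = V - ε`, `ε = ρ_y φ⁻¹ (E u)` (`r y u = ∂_y u + ρ_y dx u`), `ε² = 0` (`ρ_y` odd), so `w` is an even unit with
`w⁻¹ = V⁻¹ + ε V⁻²`, `∂_y w = 0`. `v = u w⁻¹` is odd, `∂_y v = 1`, `v ∈ Fn`, `v ∈ Hd (xd y)`. `ψ a = a - v ∂_y a` is an algebra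
map onto `ker ∂_y` (`Helper57/G2/Psi.lean`: `psi_mul`, `El`), `ψ u = 0`, `ψ` commutes with `s`, preserves `Hd g`,
maps level `L` to level `L' = L.erase y`.
`φ_t = (r t u) V⁻¹` (even), `α = (E u) V⁻¹` (odd); all of `u`, `V`, `φ_t`, `α` are closed (`Δ u = 0`).
`R_t = r t - φ_t r y`, `E₁ = E - α r y` kill `u`; `ψ O ψ = ψ O` for every superderivation with `O u = 0` (`El.psi_OD`, `El.psi_ED`).
CHILD: `L' = L.erase y`, `P' = ψ P`, `φ' = ψ (φ - α ρ_y)` (unit: `(α ρ_y)² = 0`; inverse `ψ (φ⁻¹ + φ⁻² α ρ_y)`),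
`ρ'_t = ψ (ρ_t - φ_t ρ_y)`, `Q' = ψ (Q) ^ k₀ = ψ (Q ^ k₀)`, `q' = k₀ q`, `k₀ = k_v + 2` where `Q ^ k_v * v ∈ R`.
On `ker ∂_y` (`a` with `∂_y a = 0`): `Δ' a = ψ (Δ a)`, `r'_t a = ψ (R_t a)`, `E' a = ψ (E₁ a)` (direct from the definitions, `dx a`,
`∂_t a`, `D a` are killed by `∂_y`), hence for every `a`: `ψ (Δ a) = Δ' (ψ a)`, `ψ (R_t a) = r'_t (ψ a)`,
`ψ (E₁ a) = E' (ψ a)`.
`Ok`: `Q' = Q ^ k₀ - k₀ v Q ^ (k₀ - 1) ∂_y Q ∈ I`; `Q' ^ c` times `ψ a` (`a ∈ Fn`): poles lemma: `ψ` maps `Fn` of `ν` to `Fn` of `ν'`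
(`ψ (Q ^ j a) = Q ^ j a - v ∂_y (Q ^ j a)`, regular for `j` large, `j = k₀ c'`).
`Δ' P' = ψ (Δ P) = 0`, `Δ' φ' = ψ (Δ (φ - α ρ_y)) = ψ (E P - α r_y P) = ψ (E₁ P) = E' P'`, `Δ' ρ'_t = ψ (Δ (ρ_t - φ_t ρ_y)) =
-ψ (R_t P) = -r'_t P'`.
`g'_st = ψ G_st`, `G_st = g_st - φ_t g_sy - φ_s g_yt + φ_s φ_t g_yy`; `h'_s = ψ H_s`, `H_s = h_s + α g_sy - φ_s h_y - α φ_s g_yy` (direct:
`R_s (ρ_t - φ_t ρ_y) + R_t (ρ_s - φ_s ρ_y) = φ G_st - c_st ρ_y`, `c_st = R_s φ_t + R_t φ_s = G_st α` (apply `{R_s, R_t} = G_st E - c_st r_y` to `u`),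
see `Helper57/G2/Brk.lean`).
FILTRATION: `F' k g = (F k g).map ψ` (`φ_t`, `G_st ∈ F 0`, `α`, `H_s ∈ F 1`, so it is stable under `r'_t`, `E'`). `ex`: `a = Δ z` gives
`ψ a = Δ' (ψ z)`. `Q' = ψ (Q ^ k₀)`, `Q'⁻¹ = ψ (Q ^ (-k₀))`.
BACK (in `N'`, everything is mapped by `f`; write `a` for `f a`): `η'` of level `L'`, `Δ' η' = 1`: `Δ η' = 1 + w₁`, `w₁ = (P - ψ P) dx η' =
v (∂_y P) (dx η')`, `w₁² = 0` (`v` odd), `Δ w₁ = Δ (Δ η' - 1) = 0`. `η = η' (1 - w₁)`: first replace `η'` by its odd part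
`(η' - s η') / 2` (so that `w₁` is even; `Δ'` anticommutes with `s`), `Δ η = (1 + w₁) (1 - w₁) = 1`. Poles: `Q' ^ c η'` regular,
`ψ (Q) = Q - n₁`, `n₁ = v ∂_y Q`, `n₁² = 0`, `ψ (Q) ^ (-j) = Q ^ (-j) + j Q ^ (-j-1) n₁`, so `Q ^ c' η'` is regular for `c'` large.
Degrees: `w₁ ∈ Hd' 0`.
-/

set_option autoImplicit false

namespace AnOC
open AnWL.Nd

variable {M Γ : Type} [AddCommGroup Γ] {xd : M → Γ} {e d : Γ} {N : NR M Γ xd e d} {ν : ND N}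

theorem exists_child [DecidableEq M] (ok : ν.Ok) {F : ℕ → Γ → Submodule ℚ N.A} (hF : ν.Fil F) {y : M} (hy : y ∈ ν.L)
    {u : N.A} {gu : Γ} (us : N.s u = -u) (ud : u ∈ N.Hd gu) (uf : ν.Fn u) (uΔ : ν.Δ u = 0)
    {V : N.Aˣ} (hV : (V : N.A) = ν.r y u) (V0 : (V : N.A) ∈ F 0 (gu - xd y))
    (V1 : ((V⁻¹ : N.Aˣ) : N.A) ∈ F 0 (-(gu - xd y)))
    (hr : ∀ j ∈ ν.L, ν.r j u ∈ F 0 (gu - xd j)) (hE : ν.E u ∈ F 1 (gu - e)) :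
    ∃ (ν' : ND N) (F' : ℕ → Γ → Submodule ℚ N.A), ν'.Ok ∧ ν'.Fil F' ∧ ν'.L = ν.L.erase y ∧
      ∀ (Γ' : Type) [AddCommGroup Γ'] (xd' : M → Γ') (e' d' : Γ') (N' : NR M Γ' xd' e' d')
        (f : NMor N N') (η' : N'.A), (ν'.map f).Fn η' → η' ∈ N'.Hd (-d') → (ν'.map f).Δ η' = 1 →
        ∃ η : N'.A, (ν.map f).Fn η ∧ η ∈ N'.Hd (-d') ∧ N'.s η = -η ∧ (ν.map f).Δ η = 1 := by
  obtain ⟨ν', w, kv, k, C⟩ := ND.exists_isChild ok hy uf us uΔ ud hV (hF.fn _ _ _ V1)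
  refine ⟨ν', _, C.ok ok, C.fil ok hF V1 hr hE, C.L', ?_⟩
  intro Γ' _ xd' e' d' N' f η' h1 h2 h3
  have ok' : (ν.map f).Ok := map_Ok f ok
  obtain ⟨θ, t1, t2, t3⟩ := (C.map f).back ok' h1 h2 h3
  exact ND.odd_part ok' t1 t2 t3

end AnOC
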