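import Mathlib

/-!
# Project OC (one bad even column; MP_5f0082_gt, Anick): node rings, nodes

`NR`: a `ℚ`-superalgebra `A` (parity involution `s`) with a differential `D`, odd derivations `pd j` and
an even derivation `dx` which (anti)commute with `D` and with each other; `ev` (put `x = 0`), `int` (integral from
`0` to `x`); `R` = subalgebra of the regular elements, `I`, `Nl` ideals of `R`. `x` itself does not occur.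
`Hd g` = homogeneous elements of degree `g : Γ` (for the power series over a `GA` `Γ = ℤ`, for products over `ι` of
these `Γ = ι → ℤ`). `e` = degree of `x`, `d` = degree of `D`.

A node: `Δ = D + P dx`, `r j = pd j + ρ j dx` (`j ∈ L`), `E = φ dx`, `Q` a closed regular unit (the poles).
-/

set_option autoImplicit false

namespace AnOC

structure NR (M Γ : Type) [AddCommGroup Γ] (xd : M → Γ) (e d : Γ) where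
  A : Type
  [ring : Ring A]
  [alg : Algebra ℚ A]
  s : A →ₐ[ℚ] A
  D : A →ₗ[ℚ] A
  dx : A →ₗ[ℚ] A
  pd : M → A →ₗ[ℚ] A
  ev : A →ₐ[ℚ] A
  int : A →ₗ[ℚ] A
  R : Subalgebra ℚ A
  I : Submodule ℚ A
  Nl : Submodule ℚ A
  Hd : Γ → Submodule ℚ A
  s_s : ∀ a, s (s a) = a
  even_comm : ∀ a b, s a = a → a * b = b * a
  odd_anti : ∀ a b, s a = -a → s b = -b → a * b = -(b * a)
  D_mul : ∀ a b, D (a * b) = D a * b + s a * D b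
  D_D : ∀ a, D (D a) = 0
  s_D : ∀ a, s (D a) = -D (s a)
  pd_mul : ∀ i a b, pd i (a * b) = pd i a * b + s a * pd i b
  pd_pd : ∀ i j a, pd i (pd j a) = -pd j (pd i a)
  pd_D : ∀ i a, pd i (D a) = -D (pd i a)
  s_pd : ∀ i a, s (pd i a) = -pd i (s a)
  dx_mul : ∀ a b, dx (a * b) = dx a * b + a * dx b
  dx_D : ∀ a, dx (D a) = D (dx a)
  dx_pd : ∀ i a, dx (pd i a) = pd i (dx a)
  s_dx : ∀ a, s (dx a) = dx (s a)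
  dx_ev : ∀ a, dx (ev a) = 0
  ev_of : ∀ a, dx a = 0 → ev a = a
  ev_D : ∀ a, ev (D a) = D (ev a)
  ev_pd : ∀ i a, ev (pd i a) = pd i (ev a)
  ev_s : ∀ a, ev (s a) = s (ev a)
  ev_unit : ∀ a, IsUnit (ev a) → IsUnit a
  dx_int : ∀ a, dx (int a) = a
  ev_int : ∀ a, ev (int a) = 0
  s_R : ∀ a ∈ R, s a ∈ R
  D_R : ∀ a ∈ R, D a ∈ R
  pd_R : ∀ i, ∀ a ∈ R, pd i a ∈ R
  dx_R : ∀ a ∈ R, dx a ∈ R
  ev_R : ∀ a ∈ R, ev a ∈ R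
  int_R : ∀ a ∈ R, int a ∈ R
  I_le : ∀ a ∈ I, a ∈ R
  mul_I : ∀ r ∈ R, ∀ a ∈ I, r * a ∈ I
  I_mul : ∀ a ∈ I, ∀ r ∈ R, a * r ∈ I
  s_I : ∀ a ∈ I, s a ∈ I
  D_I : ∀ a ∈ I, D a ∈ I
  pd_I : ∀ i, ∀ a ∈ I, pd i a ∈ I
  dx_I : ∀ a ∈ I, dx a ∈ I
  ev_I : ∀ a ∈ I, ev a ∈ I
  int_I : ∀ a ∈ I, int a ∈ I
  Nl_le : ∀ a ∈ Nl, a ∈ R
  mul_Nl : ∀ r ∈ R, ∀ a ∈ Nl, r * a ∈ Nl
  Nl_mul : ∀ a ∈ Nl, ∀ r ∈ R, a * r ∈ Nl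
  D_Nl : ∀ r ∈ R, D r ∈ Nl
  ev_Nl : ∀ a ∈ Nl, ev a ∈ Nl
  pow_Nl : ∀ r ∈ R, dx r = 0 → ∀ k : ℕ, r ^ k ∈ Nl → r ∈ Nl
  odd_Nl : ∀ r ∈ R, s r = -r → r ∈ Nl
  Hd_one : (1 : A) ∈ Hd 0
  Hd_mul : ∀ g h a b, a ∈ Hd g → b ∈ Hd h → a * b ∈ Hd (g + h)
  Hd_s : ∀ g a, a ∈ Hd g → s a ∈ Hd g
  Hd_D : ∀ g a, a ∈ Hd g → D a ∈ Hd (g + d)
  Hd_pd : ∀ g i a, a ∈ Hd g → pd i a ∈ Hd (g - xd i)
  Hd_dx : ∀ g a, a ∈ Hd g → dx a ∈ Hd (g - e)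
  Hd_ev : ∀ g a, a ∈ Hd g → ev a ∈ Hd g
  Hd_int : ∀ g a, a ∈ Hd g → int a ∈ Hd (g + e)
  Hd_inv : ∀ g (u : Aˣ), (u : A) ∈ Hd g → ((u⁻¹ : Aˣ) : A) ∈ Hd (-g)

attribute [instance] NR.ring NR.alg

variable {M Γ : Type} [AddCommGroup Γ] {xd : M → Γ} {e d : Γ}

/-- `a` depends only on the odd directions in `L`. -/
def NR.Lv (N : NR M Γ xd e d) (L : Finset M) (a : N.A) : Prop := ∀ j, j ∉ L → N.pd j a = 0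

/-- Iterated derivatives in the odd directions. -/
def NR.pdl (N : NR M Γ xd e d) : List M → N.A → N.A
  | [], a => a
  | j :: l, a => N.pd j (N.pdl l a)

/-- The data of a node. -/
structure ND (N : NR M Γ xd e d) where
  L : Finset M
  P : N.A
  φ : N.Aˣ
  ρ : M → N.A
  Q : N.Aˣ
  q : Γ

variable {N : NR M Γ xd e d}

/-- The differential of the node. -/
def ND.Δ (ν : ND N) (a : N.A) : N.A := N.D a + ν.P * N.dx a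

/-- The odd fields of the node. -/
def ND.r (ν : ND N) (j : M) (a : N.A) : N.A := N.pd j a + ν.ρ j * N.dx a

/-- Words in the odd fields: `rl [j₁, .., j_n] = r j₁ .. r j_n`. -/
def ND.rl (ν : ND N) : List M → N.A → N.A
  | [], a => a
  | j :: l, a => ν.r j (ν.rl l a)

/-- The even field of the node. -/
def ND.E (ν : ND N) (a : N.A) : N.A := (ν.φ : N.A) * N.dx a

/-- Functions on the node: level `L`, poles only along `Q`. -/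
def ND.Fn (ν : ND N) (a : N.A) : Prop := N.Lv ν.L a ∧ ∃ c : ℕ, (ν.Q : N.A) ^ c * a ∈ N.R

/-- `{r_i, r_j} = g_ij E`. -/
def ND.g (ν : ND N) (i j : M) : N.A := ((ν.φ⁻¹ : N.Aˣ) : N.A) * (ν.r i (ν.ρ j) + ν.r j (ν.ρ i))

/-- `[r_j, E] = h_j E`. -/
def ND.h (ν : ND N) (j : M) : N.A := ((ν.φ⁻¹ : N.Aˣ) : N.A) * (ν.r j (ν.φ : N.A) - ν.E (ν.ρ j))

/-- A node. -/
structure ND.Ok (ν : ND N) : Prop where
  P_s : N.s ν.P = -ν.P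
  φ_s : N.s (ν.φ : N.A) = ν.φ
  ρ_s : ∀ j ∈ ν.L, N.s (ν.ρ j) = -ν.ρ j
  Q_s : N.s (ν.Q : N.A) = ν.Q
  P_d : ν.P ∈ N.Hd (e + d)
  φ_d : (ν.φ : N.A) ∈ N.Hd 0
  ρ_d : ∀ j ∈ ν.L, ν.ρ j ∈ N.Hd (e - xd j)
  Q_d : (ν.Q : N.A) ∈ N.Hd ν.q
  Q_I : (ν.Q : N.A) ∈ N.I
  Q_lv : N.Lv ν.L (ν.Q : N.A)
  P_fn : ν.Fn ν.P
  φ_fn : ν.Fn (ν.φ : N.A)
  φ_fn' : ν.Fn ((ν.φ⁻¹ : N.Aˣ) : N.A)
  ρ_fn : ∀ j ∈ ν.L, ν.Fn (ν.ρ j)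
  ΔP : ν.Δ ν.P = 0
  Δφ : ν.Δ (ν.φ : N.A) = ν.E ν.P
  Δρ : ∀ j ∈ ν.L, ν.Δ (ν.ρ j) = -ν.r j ν.P
  ΔQ : ν.Δ (ν.Q : N.A) = 0

/-- A pre-filtration: `F k g` = closed functions of weight `≥ k` and degree `g`. -/
structure ND.PFil (ν : ND N) (F : ℕ → Γ → Submodule ℚ N.A) : Prop where
  hd : ∀ k g, F k g ≤ N.Hd g
  fn : ∀ k g, ∀ a ∈ F k g, ν.Fn a
  cl : ∀ k g, ∀ a ∈ F k g, ν.Δ a = 0
  mono : ∀ k g, F (k + 1) g ≤ F k g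
  mul : ∀ k l g h, ∀ a ∈ F k g, ∀ b ∈ F l h, a * b ∈ F (k + l) (g + h)
  s_mem : ∀ k g, ∀ a ∈ F k g, N.s a ∈ F k g
  r_mem : ∀ j ∈ ν.L, ∀ k g, ∀ a ∈ F k g, ν.r j a ∈ F (k + 1) (g - xd j)
  E_mem : ∀ k g, ∀ a ∈ F k g, ν.E a ∈ F (k + 1) (g - e)
  one : (1 : N.A) ∈ F 0 0
  g_mem : ∀ i ∈ ν.L, ∀ j ∈ ν.L, ν.g i j ∈ F 0 (e - xd i - xd j)
  h_mem : ∀ j ∈ ν.L, ν.h j ∈ F 1 (-xd j)
  ex : ∃ K, ∀ g, ∀ a ∈ F K g, ∃ z, ν.Fn z ∧ z ∈ N.Hd (g - d) ∧ ν.Δ z = a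

/-- A filtration of closed functions on the node. -/
structure ND.Fil (ν : ND N) (F : ℕ → Γ → Submodule ℚ N.A) : Prop extends ν.PFil F where
  Q_mem : (ν.Q : N.A) ∈ F 0 ν.q
  Q_mem' : ((ν.Q⁻¹ : N.Aˣ) : N.A) ∈ F 0 (-ν.q)

end AnOC
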