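import Pool.Agent.Helper23.OC.D02
import Pool.Agent.Helper48.WL.W01
import Pool.Agent.Helper79.G2.PS2

/-!
# Project OC, D03: the node ring `PowerSeries G.A` of a `GA`; `N(ℓ)`

`psn G e`: `A = PowerSeries G.A`, everything coefficientwise (`PS.lean`), `dx` = formal derivative, `ev` = constant
coefficient, `int` = primitive; `Hd g` = the series with `coeff n ∈ Hm (g - n e)`.
`psm φ`: coefficientwise map of a `Mor`.

Proofs: all identities by `ext n` and the corresponding axiom of `GA`; products: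
`psL_mul`, `psdx_mul`; `even_comm`, `odd_anti`: `coeff_mul`, the coefficients are even/odd, antidiagonal sum and its
swap. `ev_unit`: `ps_isUnit` (`coeff 0 (C (coeff 0 a)) = coeff 0 a`). `pow_Nl`: `dx r = 0` gives `r = C r₀` (`psev_of_psdx`),
`r ^ k = C (r₀ ^ k)`. `odd_Nl`: each coefficient `r_n` is odd, `r_n ^ 2 = 0` (`odd_anti`, characteristic 0), `pow_Nl`.
`Hd_mul`: `coeff_mul`, `Hm_mul` (`WL/W01.lean`). `Hd_inv`: `T a = ∑ (2^e)^n τ(a_n) x^n` and `s` are algebra automorphisms of the
power series (`PowerSeries.mk fun n => ((2:ℚ)^(n*e)) • τ (coeff n a)` is multiplicative); `a ∈ Hd g` iff `T a = 2^g • a` and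
`s a = (-1)^g • a` (`e` even); so `T (u⁻¹) = (T u)⁻¹ = 2^(-g) • u⁻¹`.
-/

set_option autoImplicit false

namespace AnOC
open AnWL PowerSeries

variable {M : Type} {xd : M → ℤ} {N : ℕ}

/-- The node ring of power series in one variable `x` of even degree `e`. -/
noncomputable def psn (G : GA M xd N) (e : ℤ) (he : Even e) : NR M ℤ xd e 1 where
  A := PowerSeries G.A
  s := psH G.s
  D := psL G.D
  dx := psdx G.A
  pd j := psL (G.pd j)
  ev := psev G.A
  int := psint G.A
  R := psR G.R
  I := psI G.I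
  Nl := psI G.Nl
  Hd g :=
    { carrier := {a | ∀ n : ℕ, coeff n a ∈ G.Hm (g - n * e)}
      add_mem' := fun ha hb n => by rw [map_add]; exact (G.Hm _).add_mem (ha n) (hb n)
      zero_mem' := fun n => by rw [map_zero]; exact (G.Hm _).zero_mem
      smul_mem' := fun r a ha n => by rw [ps_coeff_smul]; exact (G.Hm _).smul_mem r (ha n) }
  s_s a := by ext n; rw [coeff_psH, coeff_psH, G.s_s]
  even_comm a b h := ps_comm_of fun i j => G.even_comm _ _ (by
    have := congrArg (coeff i) h
    rwa [coeff_psH] at this)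
  odd_anti a b h h' := ps_anti_of fun i j => G.odd_anti _ _
    (by
      have := congrArg (coeff i) h
      rwa [coeff_psH, map_neg] at this)
    (by
      have := congrArg (coeff j) h'
      rwa [coeff_psH, map_neg] at this)
  D_mul a b := psL_mul _ _ G.D_mul a b
  D_D a := by ext n; rw [coeff_psL, coeff_psL, G.D_D, map_zero]
  s_D a := by ext n; rw [coeff_psH, coeff_psL, G.s_D, map_neg, coeff_psL, coeff_psH]
  pd_mul i a b := psL_mul _ _ (G.pd_mul i) a b
  pd_pd i j a := by ext n; rw [coeff_psL, coeff_psL, G.pd_pd, map_neg, coeff_psL, coeff_psL]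
  pd_D i a := by ext n; rw [coeff_psL, coeff_psL, G.pd_D, map_neg, coeff_psL, coeff_psL]
  s_pd i a := by ext n; rw [coeff_psH, coeff_psL, G.s_pd, map_neg, coeff_psL, coeff_psH]
  dx_mul a b := psdx_mul a b
  dx_D a := (psL_psdx _ a).symm
  dx_pd i a := (psL_psdx _ a).symm
  s_dx a := psH_psdx _ a
  dx_ev a := psdx_psev a
  ev_of a h := psev_of_psdx h
  ev_D a := (psL_psev _ a).symm
  ev_pd i a := (psL_psev _ a).symm
  ev_s a := (psH_psev _ a).symm
  ev_unit a h := ps_isUnit (by
    rw [psev_apply] at h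
    have := ps_isUnit_ev h
    rwa [coeff_C, if_pos rfl] at this)
  dx_int a := psdx_psint a
  ev_int a := psev_psint a
  s_R a h n := by rw [coeff_psH]; exact G.s_mem _ (h n)
  D_R a h n := by rw [coeff_psL]; exact G.D_mem _ (h n)
  pd_R i a h n := by rw [coeff_psL]; exact G.pd_mem i _ (h n)
  dx_R a h := psR_dx h
  ev_R a h n := by
    rw [psev_apply, coeff_C]
    split_ifs
    · exact h 0
    · exact G.R.zero_mem
  int_R a h := psR_int h
  I_le a h n := G.I_le _ (h n)
  mul_I r hr a h n := by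
    rw [coeff_mul]
    exact Submodule.sum_mem _ fun p _ => G.mul_I _ (hr _) _ (h _)
  I_mul a h r hr n := by
    rw [coeff_mul]
    exact Submodule.sum_mem _ fun p _ => G.I_mul _ (h _) _ (hr _)
  s_I a h n := by rw [coeff_psH]; exact G.s_I _ (h n)
  D_I a h n := by rw [coeff_psL]; exact G.D_I _ (h n)
  pd_I i a h n := by rw [coeff_psL]; exact G.pd_I i _ (h n)
  dx_I a h := psI_dx h
  ev_I a h n := by
    rw [psev_apply, coeff_C]
    split_ifs
    · exact h 0
    · exact G.I.zero_mem
  int_I a h := psI_int h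
  Nl_le a h n := G.Nl_le _ (h n)
  mul_Nl r hr a h n := by
    rw [coeff_mul]
    exact Submodule.sum_mem _ fun p _ => G.mul_Nl _ (hr _) _ (h _)
  Nl_mul a h r hr n := by
    rw [coeff_mul]
    exact Submodule.sum_mem _ fun p _ => G.Nl_mul _ (h _) _ (hr _)
  D_Nl r hr n := by rw [coeff_psL]; exact G.D_Nl _ (hr n)
  ev_Nl a h n := by
    rw [psev_apply, coeff_C]
    split_ifs
    · exact h 0
    · exact G.Nl.zero_mem
  pow_Nl r hr hx k h n := by
    have h0 : coeff 0 r ∈ G.Nl := G.pow_Nl _ (hr 0) k (by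
      rw [← ps_coeff_zero_pow]
      exact h 0)
    rw [ps_coeff_eq_of_psdx hx n]
    split_ifs
    · exact h0
    · exact G.Nl.zero_mem
  odd_Nl r hr hs n := by
    have h1 : G.s (coeff n r) = -coeff n r := by
      have := congrArg (coeff n) hs
      rwa [coeff_psH, map_neg] at this
    have h2 : coeff n r * coeff n r = -(coeff n r * coeff n r) := G.odd_anti _ _ h1 h1
    have h3 : (2 : ℚ) • (coeff n r * coeff n r) = 0 := by
      rw [two_smul]
      nth_rewrite 2 [h2]
      exact add_neg_cancel _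
    have h4 : coeff n r ^ 2 = 0 := by
      rw [pow_two]
      exact (smul_eq_zero.1 h3).resolve_left (by norm_num)
    exact G.pow_Nl _ (hr n) 2 (by rw [h4]; exact G.Nl.zero_mem)
  Hd_one n := by
    rw [coeff_one]
    split_ifs with h
    · rw [h, Nat.cast_zero, zero_mul, sub_zero]
      exact Hm_one G
    · exact (G.Hm _).zero_mem
  Hd_mul g h a b ha hb n := by
    rw [coeff_mul]
    refine Submodule.sum_mem _ fun p hp => ?_
    have h1 := Hm_mul G (ha p.1) (hb p.2)
    have h2 : g - (p.1 : ℤ) * e + (h - (p.2 : ℤ) * e) = g + h - (n : ℤ) * e := by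
      rw [← Finset.HasAntidiagonal.mem_antidiagonal.1 hp]
      push_cast
      ring
    rwa [h2] at h1
  Hd_s g a ha n := by rw [coeff_psH]; exact ps_hm_s G (ha n)
  Hd_D g a ha n := by
    rw [coeff_psL]
    have h1 := Hm_D G (ha n)
    have h2 : g - (n : ℤ) * e + 1 = g + 1 - (n : ℤ) * e := by ring
    rwa [h2] at h1
  Hd_pd g i a ha n := by
    rw [coeff_psL]
    have h1 := Hm_pd G (ha n) i
    have h2 : g - (n : ℤ) * e - xd i = g - xd i - (n : ℤ) * e := by ring
    rwa [h2] at h1
  Hd_dx g a ha n := by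
    rw [coeff_psdx]
    have h1 := ha (n + 1)
    have h2 : g - ((n + 1 : ℕ) : ℤ) * e = g - e - (n : ℤ) * e := by push_cast; ring
    rw [h2] at h1
    exact (G.Hm _).smul_mem _ h1
  Hd_ev g a ha n := by
    rw [psev_apply, coeff_C]
    split_ifs with h
    · rw [h]
      exact ha 0
    · exact (G.Hm _).zero_mem
  Hd_int g a ha n := by
    cases n with
    | zero => rw [psint_zero]; exact (G.Hm _).zero_mem
    | succ n =>
      rw [psint_succ]
      have h2 : g + e - ((n + 1 : ℕ) : ℤ) * e = g - (n : ℤ) * e := by push_cast; ring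
      rw [h2]
      exact (G.Hm _).smul_mem _ (ha n)
  Hd_inv g u hu n := ps_hm_inv G he u hu n

/-- The map of the node rings of power series. -/
noncomputable def psm {G H : GA M xd N} (φ : Mor G H) (e : ℤ) (he : Even e) :
    NMor (psn G e he) (psn H e he) where
  f := psF φ.f
  γ := AddMonoidHom.id ℤ
  γ_xd _ := rfl
  γ_e := rfl
  γ_d := rfl
  s a := psF_psH φ.f G.s H.s φ.s a
  D a := psF_psL φ.f G.D H.D φ.D a
  dx a := psF_psdx φ.f a
  pd i a := psF_psL φ.f (G.pd i) (H.pd i) (φ.pd i) a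
  ev a := psF_psev φ.f a
  int a := psF_psint φ.f a
  R a h n := psF_mem φ.f (fun _ => Subalgebra.toSubmodule G.R) (fun _ => Subalgebra.toSubmodule H.R)
    (fun _ => φ.R) a h n
  I a h n := psF_mem φ.f (fun _ => G.I) (fun _ => H.I) (fun _ => φ.I) a h n
  Nl a h n := psF_mem φ.f (fun _ => G.Nl) (fun _ => H.Nl) (fun _ => φ.Nl) a h n
  Hd g a h n := psF_mem φ.f (fun n => G.Hm (g - n * e)) (fun n => H.Hm (g - n * e))
    (fun _ _ => Mor_Hm G φ) a h n

theorem psm_coeff {G H : GA M xd N} (φ : Mor G H) (e : ℤ) (he : Even e) (n : ℕ)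
    (a : PowerSeries G.A) : coeff n ((psm φ e he).f a : PowerSeries H.A) = φ.f (coeff n a) :=
  coeff_psF φ.f n a

/-- The product ring of a family of objects. -/
noncomputable def psp {ι : Type} (X : ι → GA M xd N) (e : ℤ) (he : Even e) :
    NR M (ι → ℤ) (fun j _ => xd j) (fun _ => e) (fun _ => 1) := NR.pi fun i => psn (X i) e he

/-- The map of the product rings. -/
noncomputable def pspm {ι : Type} {X Y : ι → GA M xd N} (f : ∀ i, Mor (X i) (Y i)) (e : ℤ)
    (he : Even e) : NMor (psp X e he) (psp Y e he) := NMor.pi (fun i => psm (f i) e he) fun _ => rfl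

/-- Change of the index set. -/
noncomputable def psq {ι ι' : Type} (X : ι → GA M xd N) (p : ι' → ι) (e : ℤ) (he : Even e) :
    NMor (psp X e he) (psp (fun i' => X (p i')) e he) := NMor.pull _ p

/-- The main statement `N(ℓ)`. -/
def Nst (K : Set (GA M xd N)) (e : ℤ) (he : Even e) (ℓ : ℕ) : Prop :=
  ∀ (ι : Type) (X : ι → GA M xd N), (∀ i, X i ∈ K) → ∀ (ν : ND (psp X e he))
    (F : ℕ → (ι → ℤ) → Submodule ℚ (psp X e he).A), ν.Ok → ν.Fil F → ν.L.card = ℓ →
    ∃ (Y : ι → GA M xd N) (f : ∀ i, Mor (X i) (Y i)), (∀ i, Y i ∈ K) ∧ (∀ i, (f i).Tame) ∧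
      ∃ η : (psp Y e he).A, (ν.map (pspm f e he)).Fn η ∧ η ∈ (psp Y e he).Hd (fun _ => -1) ∧
        (ν.map (pspm f e he)).Δ η = 1

end AnOC
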