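import Pool.Agent.Helper23.OC.T01
import Pool.Agent.Helper23.OC.A03

/-!
# Project OC, T04: bounds for the poles, uniform over the words

`exists_PB`: `rl_X`, `pdl_X` give for each of the finitely many nodup lists an element `b ∈ Fn`; take the maximum of the exponents (`Fn_exp`).
`map_PB`: apply `f` (`f (ν.X G) = (ν.map f).X (f G)`, `map_rl`, `map_pdl`, `int`).
`deep_dx`: `E (rl l x) ∈ G Fn` by induction on `l` (`E x = G`; `E (r j w) = r j (E w) - h j * E w`, `GF_r`, `GF_mul`, `Fn_h`), `P dx w = P φ⁻¹ E w`.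
-/

set_option autoImplicit false

namespace AnOC

variable {M Γ Γ' : Type} [AddCommGroup Γ] [AddCommGroup Γ'] {xd : M → Γ} {e d : Γ} {xd' : M → Γ'}
  {e' d' : Γ'} {N : NR M Γ xd e d} {N' : NR M Γ' xd' e' d'} {ν : ND N} {G mm : N.A} {gG : Γ}

/-- The bounds for the poles. -/
structure ND.PB (ν : ND N) (G : N.A) (c : ℕ) : Prop where
  hφ : (ν.Q : N.A) ^ c * ((ν.φ⁻¹ : N.Aˣ) : N.A) ∈ N.R
  hP : (ν.Q : N.A) ^ c * (ν.P * ((ν.φ⁻¹ : N.Aˣ) : N.A)) ∈ N.R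
  hr : ∀ l : List M, l.Nodup → (∀ j ∈ l, j ∈ ν.L) → ∃ b, N.Lv ν.L b ∧ (ν.Q : N.A) ^ c * b ∈ N.R ∧
    ν.rl l (ν.X G) - N.pdl l (ν.X G) = G * b
  hi : ∀ l : List M, l.Nodup → (∀ j ∈ l, j ∈ ν.L) → ∃ b, N.Lv ν.L b ∧ (ν.Q : N.A) ^ c * b ∈ N.R ∧
    N.pdl l (ν.X G) = N.int (G * b)

/-- a uniform exponent for a finite set -/
private theorem exists_max {α : Type} {S : Set α} (hS : S.Finite) (P : α → ℕ → Prop)
    (hm : ∀ a c c', c ≤ c' → P a c → P a c') (h : ∀ a ∈ S, ∃ c, P a c) : ∃ c, ∀ a ∈ S, P a c := by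
  classical
  choose c hc using h
  refine ⟨∑ a ∈ hS.toFinset.attach, c a.1 (hS.mem_toFinset.1 a.2), fun a ha => ?_⟩
  refine hm a _ _ ?_ (hc a ha)
  exact Finset.single_le_sum (f := fun a : hS.toFinset => c a.1 (hS.mem_toFinset.1 a.2))
    (fun _ _ => Nat.zero_le _) (Finset.mem_attach _ ⟨a, hS.mem_toFinset.2 ha⟩)

/-- there are finitely many lists without repetitions -/
private theorem finite_nodup [Finite M] : {l : List M | l.Nodup}.Finite := by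
  classical
  have := Fintype.ofFinite M
  refine (List.finite_length_le M (Fintype.card M)).subset ?_
  intro l hl
  exact List.Nodup.length_le_card hl

theorem exists_PB [Finite M] (ok : ν.Ok) (B : ν.Gp G mm gG) : ∃ c, ν.PB G c := by
  classical
  obtain ⟨c₁, h₁⟩ := ok.φ_fn'.2
  obtain ⟨c₂, h₂⟩ := (Fn_mul ok ok.P_fn ok.φ_fn').2
  obtain ⟨c₃, h₃⟩ := exists_max (finite_nodup (M := M)) (fun l c => (∀ j ∈ l, j ∈ ν.L) →
      ∃ b, N.Lv ν.L b ∧ (ν.Q : N.A) ^ c * b ∈ N.R ∧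
        ν.rl l (ν.X G) - N.pdl l (ν.X G) = G * b)
    (by
      intro l c c' hc h hl
      obtain ⟨b, hb, hb', hb''⟩ := h hl
      exact ⟨b, hb, Fn_exp ok hc hb', hb''⟩)
    (by
      intro l _
      by_cases hl : ∀ j ∈ l, j ∈ ν.L
      · obtain ⟨b, ⟨hb, c, hc⟩, hb'⟩ := rl_X ok B hl
        exact ⟨c, fun _ => ⟨b, hb, hc, hb'⟩⟩
      · exact ⟨0, fun h => absurd h hl⟩)
  obtain ⟨c₄, h₄⟩ := exists_max (finite_nodup (M := M)) (fun l c => (∀ j ∈ l, j ∈ ν.L) →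
      ∃ b, N.Lv ν.L b ∧ (ν.Q : N.A) ^ c * b ∈ N.R ∧ N.pdl l (ν.X G) = N.int (G * b))
    (by
      intro l c c' hc h hl
      obtain ⟨b, hb, hb', hb''⟩ := h hl
      exact ⟨b, hb, Fn_exp ok hc hb', hb''⟩)
    (by
      intro l _
      obtain ⟨b, ⟨hb, c, hc⟩, hb'⟩ := pdl_X ok B l
      exact ⟨c, fun _ => ⟨b, hb, hc, hb'⟩⟩)
  refine ⟨c₁ + c₂ + c₃ + c₄, Fn_exp ok (by omega) h₁, Fn_exp ok (by omega) h₂, ?_, ?_⟩
  · intro l hn hl
    obtain ⟨b, hb, hb', hb''⟩ := h₃ l hn hl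
    exact ⟨b, hb, Fn_exp ok (by omega) hb', hb''⟩
  · intro l hn hl
    obtain ⟨b, hb, hb', hb''⟩ := h₄ l hn hl
    exact ⟨b, hb, Fn_exp ok (by omega) hb', hb''⟩

private theorem map_φinv (f : NMor N N') :
    (((ν.map f).φ⁻¹ : N'.Aˣ) : N'.A) = f.f ((ν.φ⁻¹ : N.Aˣ) : N.A) :=
  Units.coe_map_inv (f.f : N.A →* N'.A) ν.φ

private theorem map_Qp (f : NMor N N') (c : ℕ) (a : N.A) :
    ((ν.map f).Q : N'.A) ^ c * f.f a = f.f ((ν.Q : N.A) ^ c * a) := by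
  rw [map_mul, map_pow]
  rfl

private theorem map_X (f : NMor N N') : (ν.map f).X (f.f G) = f.f (ν.X G) := by
  unfold ND.X
  rw [map_φinv, ← map_mul, f.int]

theorem map_PB (f : NMor N N') {c : ℕ} (h : ν.PB G c) : (ν.map f).PB (f.f G) c := by
  refine ⟨?_, ?_, ?_, ?_⟩
  · rw [map_φinv, map_Qp]
    exact f.R _ h.hφ
  · have h1 : (ν.map f).P = f.f ν.P := rfl
    rw [map_φinv, h1, ← map_mul, map_Qp]
    exact f.R _ h.hP
  · intro l hn hl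
    obtain ⟨b, hb, hb', hb''⟩ := h.hr l hn hl
    refine ⟨f.f b, map_Lv f hb, ?_, ?_⟩
    · rw [map_Qp]
      exact f.R _ hb'
    · rw [map_X, map_rl, map_pdl, ← map_sub, hb'', map_mul]
  · intro l hn hl
    obtain ⟨b, hb, hb', hb''⟩ := h.hi l hn hl
    refine ⟨f.f b, map_Lv f hb, ?_, ?_⟩
    · rw [map_Qp]
      exact f.R _ hb'
    · rw [map_X, map_pdl, hb'', ← map_mul, f.int]

private theorem GF_neg {a : N.A} (ha : ν.GF G a) : ν.GF G (-a) := by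
  obtain ⟨b, hb, rfl⟩ := ha
  exact ⟨-b, Fn_neg hb, (mul_neg _ _).symm⟩

private theorem deep_E (ok : ν.Ok) (B : ν.Gp G mm gG) {x : N.A} (hx : ν.E x = G) {l : List M}
    (hl : ∀ j ∈ l, j ∈ ν.L) : ν.GF G (ν.E (ν.rl l x)) := by
  induction l with
  | nil => exact ⟨1, Fn_one, by rw [mul_one]; exact hx⟩
  | cons j l ih =>
    have hj : j ∈ ν.L := hl j List.mem_cons_self
    have h1 := ih fun i hi => hl i (List.mem_cons_of_mem _ hi)
    have h2 : ν.E (ν.rl (j :: l) x) =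
        ν.r j (ν.E (ν.rl l x)) + -(ν.h j * ν.E (ν.rl l x)) := by
      rw [← ok.rE hj (ν.rl l x)]
      show ν.E (ν.r j (ν.rl l x)) = _
      abel
    rw [h2]
    exact GF_add ok (GF_r ok B h1 hj) (GF_neg (GF_mul ok B (Fn_h ok hj) h1))

theorem deep_dx (ok : ν.Ok) (B : ν.Gp G mm gG) {x : N.A} (hx : ν.E x = G) {l : List M}
    (hl : ∀ j ∈ l, j ∈ ν.L) : ν.GF G (ν.P * N.dx (ν.rl l x)) := by
  have h1 := GF_mul ok B (Fn_mul ok ok.P_fn ok.φ_fn') (deep_E ok B hx hl)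
  have h2 : ν.P * ((ν.φ⁻¹ : N.Aˣ) : N.A) * ν.E (ν.rl l x) = ν.P * N.dx (ν.rl l x) := by
    unfold ND.E
    rw [mul_assoc, Units.inv_mul_cancel_left]
  rwa [h2] at h1

theorem exists_deep [Finite M] (ok : ν.Ok) (B : ν.Gp G mm gG) {x : N.A} (hx : ν.E x = G) :
    ∃ c : ℕ, ∀ l : List M, l.Nodup → (∀ j ∈ l, j ∈ ν.L) → ∃ b, (ν.Q : N.A) ^ c * b ∈ N.R ∧
      ν.P * N.dx (ν.rl l x) = G * b := by
  classical
  obtain ⟨c, hc⟩ := exists_max (finite_nodup (M := M)) (fun l c => (∀ j ∈ l, j ∈ ν.L) →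
      ∃ b, (ν.Q : N.A) ^ c * b ∈ N.R ∧ ν.P * N.dx (ν.rl l x) = G * b)
    (by
      intro l c c' hc h hl
      obtain ⟨b, hb, hb'⟩ := h hl
      exact ⟨b, Fn_exp ok hc hb, hb'⟩)
    (by
      intro l _
      by_cases hl : ∀ j ∈ l, j ∈ ν.L
      · obtain ⟨b, ⟨_, c, hc⟩, hb⟩ := deep_dx ok B hx hl
        exact ⟨c, fun _ => ⟨b, hc, hb⟩⟩
      · exact ⟨0, fun h => absurd h hl⟩)
  exact ⟨c, fun l hn hl => hc l hn hl⟩

end AnOC
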