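import Pool.Agent.Helper23.OC.D03
import Pool.Agent.Helper23.OC.T04

/-!
# Project OC, D04: families: powers with variable exponents, stages

`punit u m` = the unit `i ↦ u_i ^ (m i)` of a product ring, `pnat m` = `i ↦ m i`.
`nd ν p f` = the node over the family `Y` induced by a node `ν` over the family `X`, a map `p` of the index sets and morphisms
`f z : X (p z) → Y z`.
`ND.Dn ν V c`: exactness of the node with poles in `Q V`.
`Stg K X ν p m Y f y`: a stage: `G = Q ^ m` (`m z` the exponent at the index `z`), `X = int (φ⁻¹ G)` (`ν.X G`), `y` the field with the bent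
coordinate `x_b = X - y`.
-/

set_option autoImplicit false

namespace AnOC
open AnWL PowerSeries

variable {M : Type} {xd : M → ℤ} {N : ℕ} {ι ι' : Type} {e : ℤ} {he : Even e}

/-- Powers with variable exponents. -/
noncomputable def punit {X : ι → GA M xd N} (u : (psp X e he).Aˣ) (m : ι → ℕ) : (psp X e he).Aˣ where
  val := fun i => (u.val i) ^ m i
  inv := fun i => (u.inv i) ^ m i
  val_inv := funext fun i => by
    have h1 : u.val i * u.inv i = 1 := congrFun u.val_inv i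
    have h2 : u.inv i * u.val i = 1 := congrFun u.inv_val i
    show u.val i ^ m i * u.inv i ^ m i = 1
    rw [← (show Commute (u.val i) (u.inv i) from h1.trans h2.symm).mul_pow, h1, one_pow]
  inv_val := funext fun i => by
    have h1 : u.val i * u.inv i = 1 := congrFun u.val_inv i
    have h2 : u.inv i * u.val i = 1 := congrFun u.inv_val i
    show u.inv i ^ m i * u.val i ^ m i = 1
    rw [← (show Commute (u.inv i) (u.val i) from h2.trans h1.symm).mul_pow, h2, one_pow]

/-- The family of natural numbers `m` as an element of the product ring. -/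
noncomputable def pnat (X : ι → GA M xd N) (e : ℤ) (he : Even e) (m : ι → ℕ) : (psp X e he).A :=
  fun i => (((m i : ℕ) : (psn (X i) e he).A))

/-- The node induced on a family over `X`. -/
noncomputable def nd {X : ι → GA M xd N} (ν : ND (psp X e he)) (p : ι' → ι) {Y : ι' → GA M xd N}
    (f : ∀ z, Mor (X (p z)) (Y z)) : ND (psp Y e he) :=
  ν.map ((psq X p e he).comp (pspm f e he))

/-- Exactness with poles along `Q V`. -/
def ND.Dn {Γ : Type} [AddCommGroup Γ] {xd : M → Γ} {e d : Γ} {N : NR M Γ xd e d} (ν : ND N)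
    (V : N.A) (c : ℕ) : Prop :=
  ∃ η, N.Lv ν.L η ∧ η ∈ N.Hd (-d) ∧ N.s η = -η ∧ ((ν.Q : N.A) * V) ^ c * η ∈ N.R ∧ ν.Δ η = 1

/-- The words used: nonempty lists of even length of different elements of `L`. -/
def Wd (L : Finset M) (l : List M) : Prop :=
  l.Nodup ∧ l ≠ [] ∧ Even l.length ∧ ∀ j ∈ l, j ∈ L

/-- The bent coordinate `x_b = X - y`, `X = int (φ⁻¹ Q ^ m)`. -/
noncomputable def bx {X : ι → GA M xd N} (ν : ND (psp X e he)) (p : ι' → ι) (m : ι' → ℕ)
    {Y : ι' → GA M xd N} (f : ∀ z, Mor (X (p z)) (Y z)) (y : (psp Y e he).A) : (psp Y e he).A :=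
  (nd ν p f).X ((punit (nd ν p f).Q m : (psp Y e he).Aˣ) : (psp Y e he).A) - y

/-- Stages. -/
structure Stg (K : Set (GA M xd N)) {X : ι → GA M xd N} (ν : ND (psp X e he)) (p : ι' → ι)
    (m : ι' → ℕ) (Y : ι' → GA M xd N) (f : ∀ z, Mor (X (p z)) (Y z)) (y : (psp Y e he).A) : Prop where
  hY : ∀ z, Y z ∈ K
  y_s : (psp Y e he).s y = y
  y_I : y ∈ (psp Y e he).I
  y_d : y ∈ (psp Y e he).Hd (fun z => m z • ν.q (p z) + e)
  y_x : (psp Y e he).dx y = 0
  y_l : (psp Y e he).Lv ν.L y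
  c_p : ∀ j, (psp Y e he).pd j ((nd ν p f).Δ (bx ν p m f y)) = 0
  σI : (nd ν p f).Δ ((nd ν p f).X ((punit (nd ν p f).Q m : (psp Y e he).Aˣ) : (psp Y e he).A)) ∈
    (psp Y e he).I
  hΨ : (((nd ν p f).φ⁻¹ : (psp Y e he).Aˣ) : (psp Y e he).A) *
    ((punit (nd ν p f).Q m : (psp Y e he).Aˣ) : (psp Y e he).A) ∈ (psp Y e he).R
  hR : ∀ l : List M, l.Nodup → (∀ j ∈ l, j ∈ ν.L) →
    (nd ν p f).rl l (bx ν p m f y) ∈ (psp Y e he).I
  hU : ∀ l : List M, Wd ν.L l → IsUnit ((psp Y e he).ev ((nd ν p f).rl l (bx ν p m f y)))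
  hev : ∀ l : List M, Wd ν.L l → ∃ r ∈ (psp Y e he).R,
    (psp Y e he).ev ((nd ν p f).rl l (bx ν p m f y)) + (psp Y e he).pdl l y =
      (psp Y e he).ev ((nd ν p f).Q : (psp Y e he).A) * r
  tm : ∀ z, ∀ t ∈ (Y z).Gen, t ∈ (f z).f '' (X (p z)).Gen ∨
    ∀ H ∈ K, ∀ ψ : Mor (Y z) H,
      (∀ l : List M, Wd ν.L l → ψ.f ((Y z).pdl l (coeff 0 (y z : PowerSeries (Y z).A))) ∈ H.Nl) →
        ψ.f t ∈ H.Nl

end AnOC
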