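import Pool.Agent.Helper23.OC.D04

/-!
# Project OC, D05: facts on families

`Gp_punit`: componentwise: in the ring `psn (X i)`: `dx (Q ^ m) = m Q ^ (m-1) dx Q = (m (Q⁻¹ dx Q)) Q ^ m` (`Q` even), the same for `pd j`; `Δ (Q ^ m) = 0`;
`(ν.Δ a) i = D (a i) + P i * dx (a i)` by definition. `Q ^ m ∈ R`, level `L`.
`nd_push`, `nd_pull`: `map_map`. `bx_push`, `bx_pull`: `int`, `φ⁻¹`, powers commute with the maps.
`map_Dn`: the image of `η`.
-/

set_option autoImplicit false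

namespace AnOC
open AnWL PowerSeries

variable {M : Type} {xd : M → ℤ} {N : ℕ} {ι ι' ι'' : Type} {e : ℤ} {he : Even e}
  {X : ι → GA M xd N} {ν : ND (psp X e he)}

private theorem der_pow {A : Type} [Ring A] (a b : A) (hab : a * b = 1)
    (hc : ∀ x, a * x = x * a) (δ : A → A) (h1 : δ 1 = 0)
    (hm : ∀ k : ℕ, δ (a ^ k * a) = δ (a ^ k) * a + a ^ k * δ a) (k : ℕ) :
    δ (a ^ k) = (k : A) * (b * δ a) * a ^ k := by
  have hck : ∀ k : ℕ, ∀ x, a ^ k * x = x * a ^ k := fun k x =>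
    ((show Commute a x from hc x).pow_left k).eq
  induction k with
  | zero => rw [pow_zero, h1, Nat.cast_zero, zero_mul, zero_mul]
  | succ k ih =>
    have h2 : a ^ k * δ a = b * δ a * a ^ (k + 1) := by
      rw [mul_assoc, ← hck (k + 1) (δ a), ← mul_assoc, pow_succ', ← mul_assoc, ← hc b, hab, one_mul]
    rw [pow_succ, hm, ih, h2, pow_succ, Nat.cast_succ, add_mul, add_mul, one_mul]
    congr 1
    rw [mul_assoc _ (a ^ k) a]

section one
variable {Γ₀ : Type} [AddCommGroup Γ₀] {xd₀ : M → Γ₀} {e₀ d₀ : Γ₀} {N₀ : NR M Γ₀ xd₀ e₀ d₀}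

private theorem spow {a : N₀.A} (ha : N₀.s a = a) (k : ℕ) : N₀.s (a ^ k) = a ^ k := by
  rw [map_pow, ha]

private theorem dx_pow {a b : N₀.A} (hab : a * b = 1) (ha : N₀.s a = a) (k : ℕ) :
    N₀.dx (a ^ k) = (k : N₀.A) * (b * N₀.dx a) * a ^ k :=
  der_pow a b hab (fun x => N₀.even_comm a x ha) N₀.dx N₀.dx_one (fun _ => N₀.dx_mul _ _) k

private theorem pd_pow {a b : N₀.A} (hab : a * b = 1) (ha : N₀.s a = a) (j : M) (k : ℕ) :
    N₀.pd j (a ^ k) = (k : N₀.A) * (b * N₀.pd j a) * a ^ k :=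
  der_pow a b hab (fun x => N₀.even_comm a x ha) (N₀.pd j) (N₀.pd_one j)
    (fun k => by rw [N₀.pd_mul, spow ha]) k

private theorem Δ_pow {a b P : N₀.A} (hab : a * b = 1) (ha : N₀.s a = a)
    (h0 : N₀.D a + P * N₀.dx a = 0) (k : ℕ) : N₀.D (a ^ k) + P * N₀.dx (a ^ k) = 0 := by
  have h1 := der_pow a b hab (fun x => N₀.even_comm a x ha) (fun x => N₀.D x + P * N₀.dx x)
    (by rw [N₀.D_one, N₀.dx_one, mul_zero, add_zero]) (fun k => by
      rw [N₀.D_mul, N₀.dx_mul, spow ha, mul_add, mul_add, add_mul, ← mul_assoc P (a ^ k),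
        ← N₀.even_comm (a ^ k) P (spow ha k), mul_assoc P, mul_assoc (a ^ k)]
      abel) k
  simp only [h0, mul_zero, zero_mul] at h1
  exact h1

private theorem nat_smul (k : ℕ) : (k : N₀.A) = (k : ℚ) • (1 : N₀.A) := by
  rw [Nat.cast_smul_eq_nsmul, nsmul_one]

end one

theorem Gp_punit (ok : ν.Ok) (m : ι → ℕ) :
    ν.Gp ((punit ν.Q m : (psp X e he).Aˣ) : (psp X e he).A) (pnat X e he m)
      (fun i => m i • ν.q i) := by
  have hab : ∀ i, (ν.Q : (psp X e he).A) i * ((ν.Q⁻¹ : (psp X e he).Aˣ) : (psp X e he).A) i = 1 :=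
    fun i => congrFun ν.Q.val_inv i
  have hs : ∀ i, (psn (X i) e he).s ((ν.Q : (psp X e he).A) i) = (ν.Q : (psp X e he).A) i :=
    fun i => congrFun ok.Q_s i
  have hI : ∀ i, (ν.Q : (psp X e he).A) i ∈ (psn (X i) e he).R :=
    fun i => (psn (X i) e he).I_le _ (ok.Q_I i)
  constructor
  · exact funext fun i => spow (hs i) (m i)
  · exact fun i => Hd_pow (N := psn (X i) e he) (ok.Q_d i) (m i)
  · refine Fn_of_R (fun j hj => funext fun i => ?_) (fun i => (psn (X i) e he).R.pow_mem (hI i) (m i))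
    have h1 := pd_pow (N₀ := psn (X i) e he) (hab i) (hs i) j (m i)
    have h2 : (psn (X i) e he).pd j ((ν.Q : (psp X e he).A) i) = 0 := congrFun (ok.Q_lv j hj) i
    rw [h2, mul_zero, mul_zero, zero_mul] at h1
    exact h1
  · exact funext fun i => Δ_pow (N₀ := psn (X i) e he) (P := ν.P i) (hab i) (hs i)
      (congrFun ok.ΔQ i) (m i)
  · exact funext fun i => dx_pow (N₀ := psn (X i) e he) (hab i) (hs i) (m i)
  · exact fun j => funext fun i => pd_pow (N₀ := psn (X i) e he) (hab i) (hs i) j (m i)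
  · exact funext fun i => map_natCast (psn (X i) e he).s (m i)
  · exact fun i => natCast_mem (psn (X i) e he).R (m i)
  · intro i
    show ((m i : ℕ) : (psn (X i) e he).A) ∈ (psn (X i) e he).Hd 0
    rw [nat_smul]
    exact Submodule.smul_mem _ _ (psn (X i) e he).Hd_one
  · refine funext fun i => ?_
    show (psn (X i) e he).D ((m i : ℕ) : (psn (X i) e he).A) = 0
    rw [nat_smul, map_smul, (psn (X i) e he).D_one, smul_zero]
  · refine funext fun i => ?_
    show (psn (X i) e he).dx ((m i : ℕ) : (psn (X i) e he).A) = 0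
    rw [nat_smul, map_smul, (psn (X i) e he).dx_one, smul_zero]
  · refine fun j => funext fun i => ?_
    show (psn (X i) e he).pd j ((m i : ℕ) : (psn (X i) e he).A) = 0
    rw [nat_smul, map_smul, (psn (X i) e he).pd_one, smul_zero]

theorem punit_const (u : (psp X e he).Aˣ) (m : ℕ) : punit u (fun _ => m) = u ^ m := by
  refine Units.ext ?_
  rw [Units.val_pow_eq_pow_val]
  rfl

theorem punit_map {Y : ι → GA M xd N} (g : ∀ i, Mor (X i) (Y i)) (u : (psp X e he).Aˣ) (m : ι → ℕ) :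
    Units.map ((pspm g e he).f : (psp X e he).A →* (psp Y e he).A) (punit u m) =
      punit (Units.map ((pspm g e he).f : (psp X e he).A →* (psp Y e he).A) u) m :=
  Units.ext (funext fun i => map_pow (psm (g i) e he).f _ (m i))

theorem punit_pull (p : ι' → ι) (u : (psp X e he).Aˣ) (m : ι → ℕ) :
    Units.map ((psq X p e he).f : (psp X e he).A →* (psp (fun z => X (p z)) e he).A) (punit u m) =
      punit (Units.map ((psq X p e he).f : (psp X e he).A →* (psp (fun z => X (p z)) e he).A) u)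
        (fun z => m (p z)) := rfl

theorem nd_Ok (ok : ν.Ok) (p : ι' → ι) {Y : ι' → GA M xd N} (f : ∀ z, Mor (X (p z)) (Y z)) :
    (nd ν p f).Ok := map_Ok _ ok

private theorem psm_comp {G H I : GA M xd N} (f : Mor G H) (g : Mor H I) (a : PowerSeries G.A) :
    ((psm (f.comp g) e he).f a : PowerSeries I.A) = (psm g e he).f ((psm f e he).f a) := by
  refine PowerSeries.ext fun n => ?_
  have h1 := psm_coeff (f.comp g) e he n a
  have h2 := psm_coeff g e he n ((psm f e he).f a : PowerSeries H.A)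
  have h3 := psm_coeff f e he n a
  exact h1.trans ((congrArg g.f h3.symm).trans h2.symm)

theorem nd_push (p : ι' → ι) {Y Y' : ι' → GA M xd N} (f : ∀ z, Mor (X (p z)) (Y z))
    (g : ∀ z, Mor (Y z) (Y' z)) :
    nd ν p (fun z => (f z).comp (g z)) = (nd ν p f).map (pspm g e he) :=
  map_map ((psq X p e he).comp (pspm f e he)) (pspm g e he)
    ((psq X p e he).comp (pspm (fun z => (f z).comp (g z)) e he))
    (fun a => funext fun z => psm_comp (f z) (g z) (a (p z))) (fun _ => rfl)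

theorem nd_pull (p : ι' → ι) (q : ι'' → ι') {Y : ι' → GA M xd N} (f : ∀ z, Mor (X (p z)) (Y z)) :
    nd ν (fun z => p (q z)) (fun z => f (q z)) = (nd ν p f).map (psq Y q e he) :=
  map_map ((psq X p e he).comp (pspm f e he)) (psq Y q e he)
    ((psq X (fun z => p (q z)) e he).comp (pspm (fun z => f (q z)) e he)) (fun _ => rfl)
    (fun _ => rfl)

theorem nd_id {Y : ι → GA M xd N} (f : ∀ i, Mor (X i) (Y i)) :
    nd ν (fun i => i) f = ν.map (pspm f e he) := rfl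

private theorem map_X' {Γ Γ' : Type} [AddCommGroup Γ] [AddCommGroup Γ'] {xd : M → Γ} {e d : Γ}
    {xd' : M → Γ'} {e' d' : Γ'} {N : NR M Γ xd e d} {N' : NR M Γ' xd' e' d'} {ν : ND N}
    (f : NMor N N') {G : N.A} {G' : N'.A} (h : G' = f.f G) : (ν.map f).X G' = f.f (ν.X G) := by
  subst h
  unfold ND.X
  have h1 : f.f ((ν.φ⁻¹ : N.Aˣ) : N.A) = (((ν.map f).φ⁻¹ : N'.Aˣ) : N'.A) := by
    have h2 : Units.map (f.f : N.A →* N'.A) ν.φ⁻¹ = (ν.map f).φ⁻¹ := map_inv _ _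
    rw [← h2]
    rfl
  rw [← f.int, map_mul f.f, h1]

theorem bx_push (p : ι' → ι) (m : ι' → ℕ) {Y Y' : ι' → GA M xd N}
    (f : ∀ z, Mor (X (p z)) (Y z)) (g : ∀ z, Mor (Y z) (Y' z)) (y : (psp Y e he).A) :
    bx ν p m (fun z => (f z).comp (g z)) ((pspm g e he).f y) = (pspm g e he).f (bx ν p m f y) := by
  unfold bx
  rw [nd_push, map_sub]
  congr 1
  exact map_X' (pspm g e he) (congrArg Units.val (punit_map g (nd ν p f).Q m)).symm

theorem bx_pull (p : ι' → ι) (m : ι' → ℕ) (q : ι'' → ι') {Y : ι' → GA M xd N}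
    (f : ∀ z, Mor (X (p z)) (Y z)) (y : (psp Y e he).A) :
    bx ν (fun z => p (q z)) (fun z => m (q z)) (fun z => f (q z)) ((psq Y q e he).f y) =
      (psq Y q e he).f (bx ν p m f y) := by
  unfold bx
  rw [nd_pull, map_sub]
  congr 1

section
variable {Γ Γ' : Type} [AddCommGroup Γ] [AddCommGroup Γ'] {xd : M → Γ} {e d : Γ} {xd' : M → Γ'}
  {e' d' : Γ'} {N : NR M Γ xd e d} {N' : NR M Γ' xd' e' d'} {ν : ND N}

theorem map_Dn (f : NMor N N') {V : N.A} {c : ℕ} (h : ν.Dn V c) : (ν.map f).Dn (f.f V) c := by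
  obtain ⟨η, h1, h2, h3, h4, h5⟩ := h
  refine ⟨f.f η, map_Lv f h1, ?_, ?_, ?_, ?_⟩
  · have := f.Hd _ _ h2
    rwa [map_neg, f.γ_d] at this
  · rw [f.s, h3, map_neg]
  · have := f.R _ h4
    rw [map_mul, map_pow, map_mul] at this
    exact this
  · rw [map_Δ, h5, map_one]

theorem Dn_mono (ok : ν.Ok) {V : N.A} (hV : V ∈ N.R) (V_s : N.s V = V) {c c' : ℕ} (hc : c ≤ c')
    (h : ν.Dn V c) : ν.Dn V c' := by
  obtain ⟨η, h1, h2, h3, h4, h5⟩ := h
  refine ⟨η, h1, h2, h3, ?_, h5⟩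
  obtain ⟨k, rfl⟩ := Nat.exists_eq_add_of_le' hc
  rw [pow_add, mul_assoc]
  exact N.R.mul_mem (N.R.pow_mem (N.R.mul_mem (N.I_le _ ok.Q_I) hV) k) h4

/-- The power `V ^ c` is exact on the node. -/
theorem Dn_exact (ok : ν.Ok) {V : N.A} {gV : Γ} (V_d : V ∈ N.Hd gV) (V_s : N.s V = V)
    (V_l : N.Lv ν.L V) (V_Δ : ν.Δ V = 0) {c : ℕ} (h : ν.Dn V c) :
    ∃ z, ν.Fn z ∧ z ∈ N.Hd (c • gV - d) ∧ ν.Δ z = V ^ c := by
  obtain ⟨η, h1, h2, _, h4, h5⟩ := h
  have hmul : ∀ a b : N.A, ν.Δ (a * b) = ν.Δ a * b + N.s a * ν.Δ b := fun a b =>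
    ok.Δ_od.mul a b
  have h6 : ∀ k : ℕ, ν.Δ (V ^ k) = 0 := by
    intro k
    induction k with
    | zero => rw [pow_zero]; exact ok.Δ_od.one
    | succ k ih => rw [pow_succ, hmul, ih, V_Δ, zero_mul, mul_zero, add_zero]
  refine ⟨V ^ c * η, ⟨Lv_mul (Lv_pow V_l c) h1, c, ?_⟩, ?_, ?_⟩
  · rw [← mul_assoc, ← (show Commute (ν.Q : N.A) V from N.even_comm _ _ ok.Q_s).mul_pow]
    exact h4
  · rw [sub_eq_add_neg]
    exact N.Hd_mul _ _ _ _ (Hd_pow V_d c) h2
  · rw [hmul, h6, h5, zero_mul, zero_add, mul_one, map_pow, V_s]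

end

end AnOC
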