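import Pool.Agent.Helper57.G2.Chi3
import Pool.Agent.Helper57.G2.Key

/-!
# Project OC, F02: the KEY LEMMA

`Bt ν x G mm gx`: a bent coordinate: `x` even of degree `gx`, `Δ x` is killed by all `r j`, `E x = G`, `G` an even closed element with
`r j G = (mm Q⁻¹ r j Q) G`, `E G = (mm Q⁻¹ E Q) G`, `mm` a constant (an integer, or a family of integers). In the applications `G = Q ^ m`.
`rl l x` = the words in the odd fields applied to `x`.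

KEY LEMMA for a pre-filtration `F` with `G ∈ F 0` (`n` = length of the word):
`key_E`: `E (rl l x) ∈ F n`: induction on `l`: `E x = G`; `E (r j w) = r j (E w) - h j * E w`.
`key_perm`: `l ~ l'`: `rl l x = ± rl l' x + F (n - 2)` (`List.Perm` induction: `cons`: apply `r j` (note `n - 2 + 1 ≤ n + 1 - 2` if `n ≥ 2`; for `n ≤ 1` the difference
is `0`: put the sharper statement `(n < 2 ∧ difference = 0) ∨ difference ∈ F (n - 2)` in the induction); `swap`: `r a (r b w) + r b (r a w) = g a b * E w ∈ F |w|`; `trans`).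
`key_dup`: `l` not nodup: `rl l x ∈ F (n - 2)`: `l ~ a :: a :: l'`, `r a (r a w) = (1/2) g a a * E w`.
-/

set_option autoImplicit false

namespace AnOC
open AnWL.Nd

variable {M Γ : Type} [AddCommGroup Γ] {xd : M → Γ} {e d : Γ} {N : NR M Γ xd e d}

/-- A bent coordinate. -/
structure ND.Bt (ν : ND N) (x G mm : N.A) (gx : Γ) : Prop where
  x_s : N.s x = x
  x_d : x ∈ N.Hd gx
  x_l : N.Lv ν.L x
  r_c : ∀ j ∈ ν.L, ν.r j (ν.Δ x) = 0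
  E_x : ν.E x = G
  G_s : N.s G = G
  G_f : ν.Fn G
  G_Δ : ν.Δ G = 0
  G_r : ∀ j ∈ ν.L, ν.r j G = mm * (((ν.Q⁻¹ : N.Aˣ) : N.A) * ν.r j (ν.Q : N.A)) * G
  G_E : ν.E G = mm * (((ν.Q⁻¹ : N.Aˣ) : N.A) * ν.E (ν.Q : N.A)) * G
  m_s : N.s mm = mm
  m_R : mm ∈ N.R
  m_d : mm ∈ N.Hd 0
  m_D : N.D mm = 0
  m_dx : N.dx mm = 0
  m_pd : ∀ j, N.pd j mm = 0

variable {ν : ND N} {x G mm : N.A} {gx : Γ}

theorem Bt_s (ok : ν.Ok) (B : ν.Bt x G mm gx) {l : List M} (hl : ∀ j ∈ l, j ∈ ν.L) :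
    N.s (ν.rl l x) = (-1 : ℚ) ^ l.length • ν.rl l x := by
  rw [← ND.wd_rl]
  exact wd_s (ND.br ok) B.x_s hl

theorem Bt_Δ (ok : ν.Ok) (B : ν.Bt x G mm gx) {l : List M} (hl : ∀ j ∈ l, j ∈ ν.L) (h : l ≠ []) :
    ν.Δ (ν.rl l x) = 0 := by
  rw [← ND.wd_rl]
  exact wd_D (ND.br ok) B.x_l B.r_c hl h

theorem key_E (ok : ν.Ok) {F : ℕ → Γ → Submodule ℚ N.A} (hF : ν.PFil F) (B : ν.Bt x G mm gx)
    (hG : G ∈ F 0 (gx - e)) {l : List M} (hl : ∀ j ∈ l, j ∈ ν.L) :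
    ν.E (ν.rl l x) ∈ F l.length (gx - (l.map xd).sum - e) := by
  obtain ⟨K, hK⟩ := hF.fl ok
  have h1 := wd_E (ND.br ok) hK hF.h_mem B.x_l (e := gx)
    (by rw [ND.EL_apply, B.E_x]; exact hG) hl
  rw [ND.wd_rl] at h1
  have e1 : gx - e - (l.map xd).sum = gx - (l.map xd).sum - e := by abel
  rw [e1] at h1
  exact h1

theorem key_perm (ok : ν.Ok) {F : ℕ → Γ → Submodule ℚ N.A} (hF : ν.PFil F) (B : ν.Bt x G mm gx)
    (hG : G ∈ F 0 (gx - e)) {l l' : List M} (hl : ∀ j ∈ l, j ∈ ν.L) (h : l.Perm l') :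
    ∃ ε : ℚ, (ε = 1 ∨ ε = -1) ∧
      ν.rl l x - ε • ν.rl l' x ∈ F (l.length - 2) (gx - (l.map xd).sum) := by
  obtain ⟨K, hK⟩ := hF.fl ok
  obtain ⟨c, hc, h1⟩ := wd_perm (ND.br ok) hK hF.g_mem hF.h_mem B.x_l (e := gx)
    (by rw [ND.EL_apply, B.E_x]; exact hG) h hl
  rw [ND.wd_rl, ND.wd_rl] at h1
  exact ⟨c, hc, h1⟩

theorem key_dup (ok : ν.Ok) {F : ℕ → Γ → Submodule ℚ N.A} (hF : ν.PFil F) (B : ν.Bt x G mm gx)
    (hG : G ∈ F 0 (gx - e)) {l : List M} (hl : ∀ j ∈ l, j ∈ ν.L) (h : ¬ l.Nodup) :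
    ν.rl l x ∈ F (l.length - 2) (gx - (l.map xd).sum) := by
  classical
  obtain ⟨K, hK⟩ := hF.fl ok
  have h1 := wd_dup (ND.br ok) hK hF.g_mem hF.h_mem B.x_l (e := gx)
    (by rw [ND.EL_apply, B.E_x]; exact hG) hl h
  rw [ND.wd_rl] at h1
  exact h1

end AnOC
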