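import Pool.Agent.Helper23.OC.D05
import Pool.Agent.Helper23.OC.F02

/-!
# Project OC, D06: stages under extension and change of the index set; the bent coordinate

`Stg.push`: rewrite `nd_push`, `bx_push`; all the properties are preserved by the morphism `pspm g` (`map_Δ`, `map_rl`, `map_pdl`, units). `tm`: `t ∈ (Y' z).Gen`,
`g z` tame: `t ∈ Nl` (then `ψ t ∈ Nl`), or `t = g t'`, `t' ∈ (Y z).Gen`: use `tm` for `t'` with `(g z).comp ψ`
(`Mor_pdl`, `coeff 0` of the image is the image of `coeff 0`: `psm_coeff`).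
`Stg.pull`: componentwise (`nd_pull`, `bx_pull`); units: the image of a unit.
`Stg.Bt`: `r j c = pd j c + ρ j dx c = 0`: `c = Δ (X - y) = σ - D y` is `x`-free (`σ_dx`; `Δ y = D y`); `E x_b = G - φ dx y = G`; `r j G`, `E G` from `G_x`, `G_p`
(`r j G = pd j G + ρ j dx G`).
-/

set_option autoImplicit false

namespace AnOC
open AnWL PowerSeries

variable {M : Type} {xd : M → ℤ} {N : ℕ} {ι ι' ι'' : Type} {e : ℤ} {he : Even e}
  {X : ι → GA M xd N} {ν : ND (psp X e he)} {K : Set (GA M xd N)} {p : ι' → ι} {m : ι' → ℕ}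
  {Y : ι' → GA M xd N} {f : ∀ z, Mor (X (p z)) (Y z)} {y : (psp Y e he).A}

private theorem mor_pdl {G H : GA M xd N} (φ : Mor G H) (l : List M) (a : G.A) :
    H.pdl l (φ.f a) = φ.f (G.pdl l a) := by
  induction l with
  | nil => rfl
  | cons j l ih =>
    show H.pd j (H.pdl l (φ.f a)) = φ.f (G.pd j (G.pdl l a))
    rw [ih, φ.pd]

section
variable {Γ Γ' : Type} [AddCommGroup Γ] [AddCommGroup Γ'] {xd : M → Γ} {e d : Γ} {xd' : M → Γ'}
  {e' d' : Γ'} {N : NR M Γ xd e d} {N' : NR M Γ' xd' e' d'} {ν : ND N}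

private theorem map_X (f : NMor N N') (a : N.A) : (ν.map f).X (f.f a) = f.f (ν.X a) := by
  have h1 : f.f (((ν.φ⁻¹ : N.Aˣ) : N.A) * a) =
      (((ν.map f).φ⁻¹ : N'.Aˣ) : N'.A) * f.f a := map_mul f.f _ _
  unfold ND.X
  rw [← f.int, h1]

end

theorem Stg.push (ok : ν.Ok) (S : Stg K ν p m Y f y) {Y' : ι' → GA M xd N} (g : ∀ z, Mor (Y z) (Y' z))
    (hY' : ∀ z, Y' z ∈ K) (hg : ∀ z, (g z).Tame) :
    Stg K ν p m Y' (fun z => (f z).comp (g z)) ((pspm g e he).f y) := by
  have hQ : ((punit ((nd ν p f).map (pspm g e he)).Q m : (psp Y' e he).Aˣ) : (psp Y' e he).A) =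
      (pspm g e he).f ((punit (nd ν p f).Q m : (psp Y e he).Aˣ) : (psp Y e he).A) := by
    have h1 := punit_map g (nd ν p f).Q m
    exact (congrArg Units.val h1).symm
  refine
    { hY := hY'
      y_s := by rw [(pspm g e he).s, S.y_s]
      y_I := (pspm g e he).I _ S.y_I
      y_d := (pspm g e he).Hd _ _ S.y_d
      y_x := by rw [(pspm g e he).dx, S.y_x, map_zero]
      y_l := map_Lv _ S.y_l
      c_p := fun j => by
        rw [bx_push, nd_push, map_Δ, (pspm g e he).pd, S.c_p, map_zero]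
      σI := by
        rw [nd_push, hQ, map_X, map_Δ]
        exact (pspm g e he).I _ S.σI
      hΨ := by
        rw [nd_push, hQ]
        have h1 := (pspm g e he).R _ S.hΨ
        rw [map_mul] at h1
        exact h1
      hR := fun l hl hl' => by
        rw [bx_push, nd_push, map_rl]
        exact (pspm g e he).I _ (S.hR l hl hl')
      hU := fun l hl => by
        rw [bx_push, nd_push, map_rl, (pspm g e he).ev]
        exact (S.hU l hl).map _
      hev := fun l hl => by
        obtain ⟨r, hr, h⟩ := S.hev l hl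
        refine ⟨(pspm g e he).f r, (pspm g e he).R _ hr, ?_⟩
        rw [bx_push, nd_push, map_rl, (pspm g e he).ev, map_pdl, ← map_add, h, map_mul,
          ← (pspm g e he).ev]
        rfl
      tm := fun z t ht => ?_ }
  rcases hg z t ht with ⟨t', ht', rfl⟩ | h
  · rcases S.tm z t' ht' with ⟨x, hx, rfl⟩ | h
    · exact Or.inl ⟨x, hx, rfl⟩
    · refine Or.inr fun H hH ψ hψ => h H hH ((g z).comp ψ) fun l hl => ?_
      have h1 := hψ l hl
      have h2 : coeff 0 (((pspm g e he).f y) z : PowerSeries (Y' z).A) =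
          (g z).f (coeff 0 (y z : PowerSeries (Y z).A)) := psm_coeff (g z) e he 0 (y z)
      rw [h2, mor_pdl] at h1
      exact h1
  · exact Or.inr fun H hH ψ _ => ψ.Nl _ h

theorem Stg.pull (ok : ν.Ok) (S : Stg K ν p m Y f y) (q : ι'' → ι') :
    Stg K ν (fun z => p (q z)) (fun z => m (q z)) (fun z => Y (q z)) (fun z => f (q z))
      ((psq Y q e he).f y) := by
  have hQ : ((punit ((nd ν p f).map (psq Y q e he)).Q (fun z => m (q z)) :
        (psp (fun z => Y (q z)) e he).Aˣ) : (psp (fun z => Y (q z)) e he).A) =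
      (psq Y q e he).f ((punit (nd ν p f).Q m : (psp Y e he).Aˣ) : (psp Y e he).A) := by
    have h1 := punit_pull q (nd ν p f).Q m
    exact (congrArg Units.val h1).symm
  refine
    { hY := fun z => S.hY (q z)
      y_s := by rw [(psq Y q e he).s, S.y_s]
      y_I := (psq Y q e he).I _ S.y_I
      y_d := (psq Y q e he).Hd (fun z => m z • ν.q (p z) + e) y S.y_d
      y_x := by rw [(psq Y q e he).dx, S.y_x, map_zero]
      y_l := map_Lv _ S.y_l
      c_p := fun j => by
        rw [bx_pull, nd_pull, map_Δ, (psq Y q e he).pd, S.c_p, map_zero]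
      σI := by
        rw [nd_pull, hQ, map_X, map_Δ]
        exact (psq Y q e he).I _ S.σI
      hΨ := by
        rw [nd_pull, hQ]
        have h1 := (psq Y q e he).R _ S.hΨ
        rw [map_mul] at h1
        exact h1
      hR := fun l hl hl' => by
        rw [bx_pull, nd_pull, map_rl]
        exact (psq Y q e he).I _ (S.hR l hl hl')
      hU := fun l hl => by
        rw [bx_pull, nd_pull, map_rl, (psq Y q e he).ev]
        exact (S.hU l hl).map _
      hev := fun l hl => by
        obtain ⟨r, hr, h⟩ := S.hev l hl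
        refine ⟨(psq Y q e he).f r, (psq Y q e he).R _ hr, ?_⟩
        rw [bx_pull, nd_pull, map_rl, (psq Y q e he).ev, map_pdl, ← map_add, h, map_mul,
          ← (psq Y q e he).ev]
        rfl
      tm := fun z t ht => S.tm (q z) t ht }

theorem Stg.Bt (ok : ν.Ok) (S : Stg K ν p m Y f y) :
    (nd ν p f).Bt (bx ν p m f y)
      ((punit (nd ν p f).Q m : (psp Y e he).Aˣ) : (psp Y e he).A) (pnat Y e he m)
      (fun z => m z • ν.q (p z) + e) := by
  have ok' : (nd ν p f).Ok := nd_Ok ok p f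
  have B := Gp_punit ok' m
  have hc : ∀ a, pnat Y e he m * a = a * pnat Y e he m := fun a =>
    (psp Y e he).even_comm _ _ B.m_s
  have hQi : ∀ a, (((nd ν p f).Q⁻¹ : (psp Y e he).Aˣ) : (psp Y e he).A) * a =
      a * (((nd ν p f).Q⁻¹ : (psp Y e he).Aˣ) : (psp Y e he).A) := fun a =>
    (psp Y e he).even_comm _ _ ((psp Y e he).s_inv ok'.Q_s)
  have hm : ∀ k a b : (psp Y e he).A,
      k * (pnat Y e he m * ((((nd ν p f).Q⁻¹ : (psp Y e he).Aˣ) : (psp Y e he).A) * a) * b) =
        pnat Y e he m * ((((nd ν p f).Q⁻¹ : (psp Y e he).Aˣ) : (psp Y e he).A) * (k * a)) * b := by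
    intro k a b
    rw [← mul_assoc k, ← mul_assoc k, ← hc k, mul_assoc (pnat Y e he m) k, ← mul_assoc k, ← hQi k,
      mul_assoc _ k a]
  refine
    { x_s := by
        unfold bx
        rw [map_sub, X_s ok' B, S.y_s]
      x_d := Submodule.sub_mem _ (X_d ok' B) S.y_d
      x_l := Lv_sub (X_l ok' B) S.y_l
      r_c := fun j hj => ?_
      E_x := ?_
      G_s := B.G_s
      G_f := B.G_f
      G_Δ := B.G_Δ
      G_r := fun j hj => ?_
      G_E := ?_
      m_s := B.m_s
      m_R := B.m_R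
      m_d := B.m_d
      m_D := B.m_D
      m_dx := B.m_dx
      m_pd := B.m_pd }
  · have h1 : (psp Y e he).dx ((nd ν p f).Δ (bx ν p m f y)) = 0 := by
      have h2 : (nd ν p f).Δ (bx ν p m f y) =
          (nd ν p f).Δ ((nd ν p f).X ((punit (nd ν p f).Q m : (psp Y e he).Aˣ) :
            (psp Y e he).A)) - (psp Y e he).D y := by
        unfold bx ND.Δ
        rw [map_sub, map_sub, S.y_x, sub_zero]
        abel
      rw [h2, map_sub, σ_dx ok' B, (psp Y e he).dx_D, S.y_x, map_zero, sub_zero]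
    show (psp Y e he).pd j _ + _ * (psp Y e he).dx _ = 0
    rw [S.c_p j, h1, mul_zero, add_zero]
  · unfold bx
    have h1 := X_E (ν := nd ν p f) ((punit (nd ν p f).Q m : (psp Y e he).Aˣ) : (psp Y e he).A)
    unfold ND.E at h1 ⊢
    rw [map_sub, S.y_x, sub_zero, h1]
  · unfold ND.r
    rw [B.G_p j, B.G_x, hm, ← add_mul, ← mul_add, ← mul_add]
  · unfold ND.E
    rw [B.G_x, hm]

/-- All the words are units. -/
theorem Stg.unit (S : Stg K ν p m Y f y) {l : List M} (hl : Wd ν.L l) :
    IsUnit ((nd ν p f).rl l (bx ν p m f y)) := (psp Y e he).ev_unit _ (S.hU l hl)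

end AnOC
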