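import Pool.Agent.Helper57.G2.Chi3

/-!
# Project OC, F01: adjoining a closed element to a filtration

`adj`: `b` closed of definite parity, weight `w`, degree `gb`: `F' k g = ⨆ n, b ^ n F (k - n w) (g - n gb)` (natural
subtraction in `k - n w`); use `Submodule.span ℚ {x | ∃ n a, a ∈ F (k - n * w) (g - n • gb) ∧ x = b ^ n * a}` and span induction
(`a b ^ n = b ^ n (s^[..] a)`: an element of definite parity passes every element up to `s`, `s_mem`).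
`r_mem`: `r j (b ^ n a) = (∑ ± b ^ (n-1) (r j b)) a ± b ^ n r j a`, the first term in `b ^ (n-1) F (w+1) F (k - n w) ⊂ b ^ (n-1) F (k + 1 - (n-1) w)`
(`mono`); `b` commutes or anticommutes with `r j b ∈ F (w+1)`. The same for `E`.
`ex`: for `w = 0`: `K' = K`: `b ^ n a`, `a = Δ z`: `b ^ n Δ z = ± Δ (b ^ n z)`. For `w ≥ 1` with `b ^ c = Δ z₀`: `K' = K + c w`: `n < c`: `a ∈ F K`, as
before; `n ≥ c`: `b ^ n a = Δ (z₀ b ^ (n-c) a)`. The primitive of a sum is the sum of the primitives (degree `g - d`, `Fn`).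
`adj0`: weight `0`, `r j b = a_j b`, `E b = a b` with `a_j`, `a ∈ F 1`.
`adjU`: an even unit `b` of weight `0` together with its inverse: `F' k g` = span of the `b ^ n a`, `n : ℤ`, `a ∈ F k (g - n gb)`;
`r j (b ^ n) = n b ^ (n-1) r j b`.
-/

set_option autoImplicit false

namespace AnOC
open AnWL.Nd

variable {M Γ : Type} [AddCommGroup Γ] {xd : M → Γ} {e d : Γ} {N : NR M Γ xd e d} {ν : ND N}

theorem adj (ok : ν.Ok) {F : ℕ → Γ → Submodule ℚ N.A} (hF : ν.PFil F) {b : N.A} {gb : Γ} {w : ℕ}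
    (bs : N.s b = b ∨ N.s b = -b) (bd : b ∈ N.Hd gb) (bf : ν.Fn b) (bΔ : ν.Δ b = 0)
    (hr : ∀ j ∈ ν.L, ν.r j b ∈ F (w + 1) (gb - xd j)) (hE : ν.E b ∈ F (w + 1) (gb - e))
    (hex : w = 0 ∨ ∃ (c : ℕ) (z : N.A), ν.Fn z ∧ z ∈ N.Hd (c • gb - d) ∧ ν.Δ z = b ^ c) :
    ∃ F' : ℕ → Γ → Submodule ℚ N.A, ν.PFil F' ∧ (∀ k g, F k g ≤ F' k g) ∧ b ∈ F' w gb := by
  obtain ⟨K, hK⟩ := hF.fl ok
  obtain ⟨c, hc⟩ : ∃ c : ℕ, w = 0 ∨ ∃ z ∈ N.ZZ ν.L ok.Q_ev, z ∈ N.Hd (c • gb - d) ∧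
      ν.ΔL z = b ^ c := by
    rcases hex with h0 | ⟨c, z, z1, z2, z3⟩
    · exact ⟨0, Or.inl h0⟩
    · exact ⟨c, Or.inr ⟨z, z1, z2, z3⟩⟩
  have h1 := hK.adj N.sg (ND.br ok).Del_od (ND.br ok).E_ed (ND.br ok).r_od
    (fun {g h a b} ha hb => N.Hd_mul g h a b ha hb) (fun {g a} ha => N.Hd_s g a ha)
    (fun a ha => NR.ZZ_s ha) (ω := gb) (κ := w) (c := c) (w := b) bs bf bd bΔ
    (fun j hj => adj_base (hr j hj)) (adj_base hE) hc
  refine ⟨AnWL.Nd.adj F b gb w, ND.PFil.of_fl h1 (fun a ha => ha)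
    (fun i hi j hj => adj_base (hF.g_mem i hi j hj)) (fun j hj => adj_base (hF.h_mem j hj)),
    fun k g a ha => adj_base ha, adj_self hK⟩

theorem adj0 (ok : ν.Ok) {F : ℕ → Γ → Submodule ℚ N.A} (hF : ν.PFil F) {b : N.A} {gb : Γ}
    (bs : N.s b = b) (bd : b ∈ N.Hd gb) (bf : ν.Fn b) (bΔ : ν.Δ b = 0)
    (hr : ∀ j ∈ ν.L, ∃ a ∈ F 1 (-xd j), ν.r j b = a * b) (hE : ∃ a ∈ F 1 (-e), ν.E b = a * b) :
    ∃ F' : ℕ → Γ → Submodule ℚ N.A, ν.PFil F' ∧ (∀ k g, F k g ≤ F' k g) ∧ b ∈ F' 0 gb := by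
  obtain ⟨K, hK⟩ := hF.fl ok
  have h1 := hK.adj N.sg (ND.br ok).Del_od (ND.br ok).E_ed (ND.br ok).r_od
    (fun {g h a b} ha hb => N.Hd_mul g h a b ha hb) (fun {g a} ha => N.Hd_s g a ha)
    (fun a ha => NR.ZZ_s ha) (ω := gb) (κ := 0) (c := 0) (w := b) (Or.inl bs) bf bd bΔ
    (fun j hj => by
      obtain ⟨a, ha, h2⟩ := hr j hj
      have h3 : ν.rL j b = b ^ 1 * a := by rw [ND.rL_apply, h2, pow_one, N.even_comm b a bs]
      rw [h3]
      exact adj_gen ha (by omega) (by rw [one_smul]; abel))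
    (by
      obtain ⟨a, ha, h2⟩ := hE
      have h3 : ν.EL b = b ^ 1 * a := by rw [ND.EL_apply, h2, pow_one, N.even_comm b a bs]
      rw [h3]
      exact adj_gen ha (by omega) (by rw [one_smul]; abel))
    (Or.inl rfl)
  refine ⟨AnWL.Nd.adj F b gb 0, ND.PFil.of_fl h1 (fun a ha => ha)
    (fun i hi j hj => adj_base (hF.g_mem i hi j hj)) (fun j hj => adj_base (hF.h_mem j hj)),
    fun k g a ha => adj_base ha, adj_self hK⟩

theorem adjU (ok : ν.Ok) {F : ℕ → Γ → Submodule ℚ N.A} (hF : ν.PFil F) {b : N.Aˣ} {gb : Γ}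
    (bs : N.s (b : N.A) = b) (bd : (b : N.A) ∈ N.Hd gb) (bf : ν.Fn (b : N.A))
    (bf' : ν.Fn ((b⁻¹ : N.Aˣ) : N.A)) (bΔ : ν.Δ (b : N.A) = 0)
    (hr : ∀ j ∈ ν.L, ν.r j (b : N.A) ∈ F 1 (gb - xd j)) (hE : ν.E (b : N.A) ∈ F 1 (gb - e)) :
    ∃ F' : ℕ → Γ → Submodule ℚ N.A, ν.PFil F' ∧ (∀ k g, F k g ≤ F' k g) ∧ (b : N.A) ∈ F' 0 gb ∧
      ((b⁻¹ : N.Aˣ) : N.A) ∈ F' 0 (-gb) := by
  obtain ⟨F₁, f1, f2, f3⟩ := adj ok hF (w := 0) (Or.inl bs) bd bf bΔ hr hE (Or.inl rfl)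
  have bis : N.s (ui b) = ui b := N.sg.inv_even bs b.mul_inv
  obtain ⟨K, hK⟩ := f1.fl ok
  have h1 := hK.adj N.sg (ND.br ok).Del_od (ND.br ok).E_ed (ND.br ok).r_od
    (fun {g h a b} ha hb => N.Hd_mul g h a b ha hb) (fun {g a} ha => N.Hd_s g a ha)
    (fun a ha => NR.ZZ_s ha) (ω := -gb) (κ := 0) (c := 0) (w := ui b) (Or.inl bis) bf'
    (N.Hd_inv gb b bd)
    (by
      rw [(ND.br ok).Del_od.inv N.sg bs b.mul_inv, ND.ΔL_apply, bΔ, mul_zero, zero_mul,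
        neg_zero])
    (fun j hj => by
      have h1 : ν.rL j (ui b) = -(ui b ^ 2 * ν.r j (b : N.A)) := by
        rw [((ND.br ok).r_od j hj).inv N.sg bs b.mul_inv, mul_assoc, ND.rL_apply,
          ← N.even_comm (ui b) _ bis, ← mul_assoc, pow_two]
      rw [h1]
      refine neg_mem (adj_gen (f2 _ _ (hr j hj)) (by omega) ?_)
      rw [two_nsmul]; abel)
    (by
      have h1 : ν.EL (ui b) = -(ui b ^ 2 * ν.E (b : N.A)) := by
        rw [(ND.br ok).E_ed.inv N.sg bs b.mul_inv, mul_assoc, ND.EL_apply,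
          ← N.even_comm (ui b) _ bis, ← mul_assoc, pow_two]
      rw [h1]
      refine neg_mem (adj_gen (f2 _ _ hE) (by omega) ?_)
      rw [two_nsmul]; abel)
    (Or.inl rfl)
  refine ⟨AnWL.Nd.adj F₁ (ui b) (-gb) 0, ND.PFil.of_fl h1 (fun a ha => ha)
    (fun i hi j hj => adj_base (f1.g_mem i hi j hj)) (fun j hj => adj_base (f1.h_mem j hj)),
    fun k g a ha => adj_base (f2 _ _ ha), adj_base f3, adj_self hK⟩

/-- More poles are allowed. -/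
theorem PFil_poles (ok : ν.Ok) {F : ℕ → Γ → Submodule ℚ N.A} (hF : ν.PFil F) {V : N.Aˣ} {gV : Γ}
    (Vs : N.s (V : N.A) = V) (VR : (V : N.A) ∈ N.R) (Vl : N.Lv ν.L (V : N.A))
    (Vd : (V : N.A) ∈ N.Hd gV) (VΔ : ν.Δ (V : N.A) = 0) :
    ({ ν with Q := ν.Q * V, q := ν.q + gV } : ND N).Ok ∧
      ({ ν with Q := ν.Q * V, q := ν.q + gV } : ND N).PFil F := by
  have VE : N.Ev (V : N.A) := ⟨Vs, VR⟩
  have hle : ∀ a, ν.Fn a → ({ ν with Q := ν.Q * V, q := ν.q + gV } : ND N).Fn a := by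
    intro a ha
    have h1 : a ∈ N.ZZ ν.L ok.Q_ev := ha
    have h2 := NR.ZZ_le ok.Q_ev VE (ok.Q_ev.mul VE) h1
    exact h2
  constructor
  · exact
      { P_s := ok.P_s
        φ_s := ok.φ_s
        ρ_s := ok.ρ_s
        Q_s := by
          show N.s ((ν.Q : N.A) * V) = (ν.Q : N.A) * V
          rw [map_mul, ok.Q_s, Vs]
        P_d := ok.P_d
        φ_d := ok.φ_d
        ρ_d := ok.ρ_d
        Q_d := N.Hd_mul _ _ _ _ ok.Q_d Vd
        Q_I := N.I_mul _ ok.Q_I _ VR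
        Q_lv := (N.LvS ν.L).mul_mem ok.Q_lv Vl
        P_fn := hle _ ok.P_fn
        φ_fn := hle _ ok.φ_fn
        φ_fn' := hle _ ok.φ_fn'
        ρ_fn := fun j hj => hle _ (ok.ρ_fn j hj)
        ΔP := ok.ΔP
        Δφ := ok.Δφ
        Δρ := ok.Δρ
        ΔQ := by
          show ν.ΔL ((ν.Q : N.A) * V) = 0
          rw [(ND.br ok).Del_od.mul, ND.ΔL_apply, ok.ΔQ, ND.ΔL_apply, VΔ, zero_mul, mul_zero,
            add_zero] }
  · obtain ⟨K, hK⟩ := hF.ex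
    exact
      { hd := hF.hd
        fn := fun k g a ha => hle _ (hF.fn k g a ha)
        cl := hF.cl
        mono := hF.mono
        mul := hF.mul
        s_mem := hF.s_mem
        r_mem := hF.r_mem
        E_mem := hF.E_mem
        one := hF.one
        g_mem := hF.g_mem
        h_mem := hF.h_mem
        ex := ⟨K, fun g a ha => by
          obtain ⟨z, h1, h2, h3⟩ := hK g a ha
          exact ⟨z, hle _ h1, h2, h3⟩⟩ }

end AnOC
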