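import Pool.Agent.Helper23.OC.F01
import Pool.Agent.Helper23.OC.F02
import Pool.Agent.Helper57.G2.ChF

/-!
# Project OC, F03: the filtration used for the child of the word `y :: l`

`V_Z = rl Z x`. Given: all `V_Z` (`Z` nonempty, nodup, in `L`) are regular; those of even length `> |y :: l|` have an exact power; `V = V_(y :: l)` is a
unit. `ν̂ = ν` with `Q` replaced by `Q V`.

PROOF. Start with `F` as a pre-filtration of `ν̂` (`PFil_poles`). Adjoin `mm` (`adj0`, `a = 0`), `G` (`adj0`, `a_j = mm (Q⁻¹ r j Q)`, `a = mm (Q⁻¹ E Q)`,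
both in `F 1`). Let `n₀ = |y :: l| ≥ 2`. Adjoin `V_Z`, `Z = S.toList`, for all finsets `S ⊆ L` with `n₀ ≤ card S`, in decreasing order of
`card S`, with weight `card S - n₀` (`adj`): outer induction on `n` from `card L` down to `n₀`, inner induction over the finsets of cardinality
`n` (`Finset.induction`); invariant: `V_S ∈ F (card S - n₀)` for all `S` already adjoined. Hypotheses of `adj` for `S`, `n = card S`, `w = n - n₀`:
`r j V_S = rl (j :: S.toList) x`: `j ∈ S`: `key_dup`: `∈ F (n - 1) ⊆ F (w + 1)` (`n₀ ≥ 2`); `j ∉ S`: `key_perm` with `(insert j S).toList`: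
`± V_(S ∪ j) + F (n - 1)`, weight `n + 1 - n₀ = w + 1`. `E V_S ∈ F n ⊆ F (w + 1)`. `hex`: `w = 0`, or `w ≥ 1`: `n` even: hypothesis;
`n` odd: `V_S` odd, `V_S ^ 2 = 0 = Δ 0`. (`V_S` is in `Fn ν̂`: regular, level `L`.)
Now `V = V_(y :: l) ∈ F 0` (`key_perm`), `r j V ∈ F 1` (`key_dup` or `key_perm`, weight `1`), `E V ∈ F n₀ ⊆ F 1`: `adjU` (`V⁻¹ ∈ Fn ν̂`: `Q V V⁻¹ = Q`).
`Q V`, `(Q V)⁻¹ ∈ F 0`. `u = rl l x`: `r j u ∈ F 0` (`key_dup`/`key_perm`, `l.length + 1 = n₀`), `E u ∈ F (n₀ - 1) ⊆ F 1` (`key_E`).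
-/

set_option autoImplicit false

namespace AnOC
open AnWL.Nd

variable {M Γ : Type} [AddCommGroup Γ] {xd : M → Γ} {e d : Γ} {N : NR M Γ xd e d}
  {ν : ND N} {x G mm : N.A} {gx : Γ}

theorem exists_fil [DecidableEq M] (ok : ν.Ok) {F : ℕ → Γ → Submodule ℚ N.A} (hF : ν.Fil F)
    (B : ν.Bt x G mm gx)
    (hR : ∀ l : List M, l.Nodup → l ≠ [] → (∀ j ∈ l, j ∈ ν.L) → ν.rl l x ∈ N.R)
    {y : M} {l : List M} (hyl : (y :: l).Nodup) (hL : ∀ j ∈ y :: l, j ∈ ν.L)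
    (hev : Even (y :: l).length)
    (hdone : ∀ l' : List M, l'.Nodup → (∀ j ∈ l', j ∈ ν.L) → Even l'.length →
      (y :: l).length < l'.length →
      ∃ (c : ℕ) (z : N.A), ν.Fn z ∧ z ∈ N.Hd (c • (gx - (l'.map xd).sum) - d) ∧
        ν.Δ z = ν.rl l' x ^ c)
    {V : N.Aˣ} (hV : (V : N.A) = ν.rl (y :: l) x) :
    ({ ν with Q := ν.Q * V, q := ν.q + (gx - ((y :: l).map xd).sum) } : ND N).Ok ∧
      ∃ F' : ℕ → Γ → Submodule ℚ N.A,
        ({ ν with Q := ν.Q * V, q := ν.q + (gx - ((y :: l).map xd).sum) } : ND N).Fil F' ∧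
        (V : N.A) ∈ F' 0 (gx - ((y :: l).map xd).sum) ∧
        ((V⁻¹ : N.Aˣ) : N.A) ∈ F' 0 (-(gx - ((y :: l).map xd).sum)) ∧
        (∀ j ∈ ν.L, ν.r j (ν.rl l x) ∈ F' 0 (gx - (l.map xd).sum - xd j)) ∧
        ν.E (ν.rl l x) ∈ F' 1 (gx - (l.map xd).sum - e) := by
  have B0 := ND.br ok
  have hlen : 2 ≤ (y :: l).length := by
    obtain ⟨t, ht⟩ := hev
    have : (y :: l).length = l.length + 1 := List.length_cons
    omega
  have hlen' : 1 ≤ l.length := by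
    have : (y :: l).length = l.length + 1 := List.length_cons
    omega
  have VR : (V : N.A) ∈ N.R := by rw [hV]; exact hR _ hyl (List.cons_ne_nil _ _) hL
  have Vlv : (V : N.A) ∈ N.LvS ν.L := by
    rw [hV, ← ND.wd_rl]
    exact wd_mem B0 B.x_l hL
  have Vs : N.s (V : N.A) = V := by
    rw [hV, Bt_s ok B hL, hev.neg_one_pow, one_smul]
  have Vd : (V : N.A) ∈ N.Hd (gx - ((y :: l).map xd).sum) := by
    rw [hV]; exact Hd_rl ok hL B.x_d
  have VΔ : ν.Δ (V : N.A) = 0 := by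
    rw [hV]; exact Bt_Δ ok B hL (List.cons_ne_nil _ _)
  obtain ⟨ok', -⟩ := PFil_poles ok hF.toPFil Vs VR Vlv Vd VΔ
  refine ⟨ok', ?_⟩
  have VE : N.Ev (V : N.A) := ⟨Vs, VR⟩
  -- `mm`
  have hmm : ∃ F₁ : ℕ → Γ → Submodule ℚ N.A, ν.PFil F₁ ∧ (∀ k g, F k g ≤ F₁ k g) ∧
      mm ∈ F₁ 0 0 := by
    refine adj0 ok hF.toPFil B.m_s B.m_d ⟨fun j _ => B.m_pd j, 0, ?_⟩ ?_ ?_ ?_
    · rw [pow_zero, one_mul]; exact B.m_R
    · rw [ND.Δ, B.m_D, B.m_dx, mul_zero, add_zero]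
    · intro j _
      exact ⟨0, zero_mem _, by rw [ND.r, B.m_pd, B.m_dx, mul_zero, add_zero, zero_mul]⟩
    · exact ⟨0, zero_mem _, by rw [ND.E, B.m_dx, mul_zero, zero_mul]⟩
  obtain ⟨F₁, p1, i1, m1⟩ := hmm
  -- `G`
  have hGd : G ∈ N.Hd (gx - e) := by
    have := Hd_E ok B.x_d
    rwa [B.E_x] at this
  have hGG : ∃ F₂ : ℕ → Γ → Submodule ℚ N.A, ν.PFil F₂ ∧ (∀ k g, F₁ k g ≤ F₂ k g) ∧
      G ∈ F₂ 0 (gx - e) := by
    refine adj0 ok p1 B.G_s hGd B.G_f B.G_Δ ?_ ?_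
    · intro j hj
      refine ⟨_, ?_, B.G_r j hj⟩
      have h1 := p1.r_mem j hj _ _ _ (i1 _ _ hF.Q_mem)
      have h2 := p1.mul _ _ _ _ _ m1 _ (p1.mul _ _ _ _ _ (i1 _ _ hF.Q_mem') _ h1)
      have e1 : (0 : Γ) + (-ν.q + (ν.q - xd j)) = -xd j := by abel
      rw [e1] at h2
      exact h2
    · refine ⟨_, ?_, B.G_E⟩
      have h1 := p1.E_mem _ _ _ (i1 _ _ hF.Q_mem)
      have h2 := p1.mul _ _ _ _ _ m1 _ (p1.mul _ _ _ _ _ (i1 _ _ hF.Q_mem') _ h1)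
      have e1 : (0 : Γ) + (-ν.q + (ν.q - e)) = -e := by abel
      rw [e1] at h2
      exact h2
  obtain ⟨F₂, p2, i2, m2⟩ := hGG
  obtain ⟨K, hK⟩ := p2.fl ok
  have hEx : ν.EL x ∈ F₂ 0 (gx - e) := by rw [ND.EL_apply, B.E_x]; exact m2
  have ZZ' : N.ZZ ν.L ok.Q_ev ≤ N.ZZ ν.L (ok.Q_ev.mul VE) := NR.ZZ_le ok.Q_ev VE _
  obtain ⟨F₃, K₃, f1, f2, f3, f4⟩ := Fl.words B0 hK p2.g_mem p2.h_mem
    (fun {g h a b} ha hb => N.Hd_mul g h a b ha hb) (fun {g a} ha => N.Hd_s g a ha)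
    (fun t ht γ a ha => Hd_r ok ht ha) (fun a ha => NR.ZZ_s ha) B.x_l B.x_s B.x_d hEx B.r_c
    (fun l' hn hl' hne => by
      refine ⟨wd_mem B0 B.x_l hl', 0, ?_⟩
      rw [pow_zero, one_mul, ND.wd_rl]
      exact hR l' hn hne hl')
    (Y := y :: l) hyl hL hlen hev
    (fun S hS hc hSe => by
      obtain ⟨c, z, z1, z2, z3⟩ := hdone S.toList (Finset.nodup_toList S)
        (fun t ht => hS (Finset.mem_toList.1 ht)) (by rwa [Finset.length_toList])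
        (by rwa [Finset.length_toList])
      refine ⟨c, z, z1, z2, ?_⟩
      rw [wS, ND.wd_rl]
      exact z3)
    (Z' := N.ZZ ν.L (ok.Q_ev.mul VE)) ZZ' (fun a ha => NR.ZZ_s ha) (Vi := ui V)
    (by rw [ND.wd_rl, ← hV]; exact V.mul_inv)
    ⟨NR.LvS_inv Vlv Vs V.mul_inv, 1, by
      rw [pow_one, mul_assoc, Units.mul_inv, mul_one]; exact ok.Q_ev.R⟩
    (N.Hd_inv _ V Vd)
  have hP : ({ ν with Q := ν.Q * V, q := ν.q + (gx - ((y :: l).map xd).sum) } : ND N).PFil F₃ :=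
    ND.PFil.of_fl f1 (fun a ha => ha) (fun i hi j hj => f2 _ _ _ (p2.g_mem i hi j hj))
      (fun j hj => f2 _ _ _ (p2.h_mem j hj))
  have hV0 : (V : N.A) ∈ F₃ 0 (gx - ((y :: l).map xd).sum) := by
    have := f3 (y :: l) hyl hL le_rfl
    rw [Nat.sub_self, ND.wd_rl, ← hV] at this
    exact this
  have hlL : ∀ t ∈ l, t ∈ ν.L := fun t ht => hL t (List.mem_cons_of_mem _ ht)
  refine ⟨F₃, ⟨hP, ?_, ?_⟩, hV0, f4, ?_, ?_⟩
  · have := hP.mul _ _ _ _ _ (f2 _ _ _ (i2 _ _ (i1 _ _ hF.Q_mem))) _ hV0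
    exact this
  · have := hP.mul _ _ _ _ _ f4 _ (f2 _ _ _ (i2 _ _ (i1 _ _ hF.Q_mem')))
    have e1 : -(gx - ((y :: l).map xd).sum) + -ν.q = -(ν.q + (gx - ((y :: l).map xd).sum)) := by
      abel
    rw [e1] at this
    have e2 : (((ν.Q * V)⁻¹ : N.Aˣ) : N.A) = ui V * ui ν.Q := by
      rw [mul_inv_rev, Units.val_mul]
    show (((ν.Q * V)⁻¹ : N.Aˣ) : N.A) ∈ _
    rw [e2]
    exact this
  · intro j hj
    have hjl : ∀ t ∈ j :: l, t ∈ ν.L := by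
      intro t ht
      rcases List.mem_cons.1 ht with rfl | ht
      · exact hj
      · exact hlL t ht
    have e1 : gx - ((j :: l).map xd).sum = gx - (l.map xd).sum - xd j := by
      rw [List.map_cons, List.sum_cons]; abel
    show ν.rl (j :: l) x ∈ _
    rw [← e1]
    by_cases hn : (j :: l).Nodup
    · have := f3 (j :: l) hn hjl (by rw [List.length_cons, List.length_cons])
      rw [List.length_cons, List.length_cons, Nat.sub_self, ND.wd_rl] at this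
      exact this
    · have := key_dup ok p2 B m2 hjl hn
      have h5 : (j :: l).length - 2 + 0 = (j :: l).length - 2 := rfl
      exact f2 _ _ _ (hK.anti' (Nat.zero_le _) this)
  · have h1 := key_E ok p2 B m2 hlL
    exact f2 _ _ _ (hK.anti' hlen' h1)

end AnOC
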