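import Pool.Agent.Helper23.OC.A02

/-!
# Project OC, K01: the closed element `Ω` used to kill `ev V`

`V` even closed (`Δ V = 0`), `V₀ = ev V` a unit, `P dx V = Q^m b`, `Q^c₀ b ∈ R`, `m` large; `η` with `Δ η = 1`, `(Q V)^c η ∈ R`.
`Q₀ = ev Q`, `P₀ = ev P`, `η₀ = ev η`. `D η₀ = ev (D η) = ev (1 - P dx η) = 1 + P₀ κ`, `κ = -ev (dx η)` (odd... `dx η` odd), `(P₀ κ)² = 0`,
`D (P₀ κ) = D (D η₀) = 0`. `η₁ = η₀ (1 - P₀ κ)`: `D η₁ = (1 + P₀ κ)(1 - P₀ κ) = 1`. `D V₀ = ev (D V) = -ev (P dx V) = -Q₀^m ev b`.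
`Ω = V₀^B + D (V₀^B) η₁`, `B = 2 c + cP + 3`: `D Ω = D (V₀^B) - D (V₀^B) D η₁ = 0`. `D (V₀^B) = B V₀^(B-1) D V₀`, `(D V₀)² = 0`, so `Ω` is a unit (unit plus
nilpotent, even). Poles: `(Q V)^(c+1) dx η ∈ R`, so `(Q₀ V₀)^(2c+1) Q₀^cP η₁ ∈ R`; with `n = 2 c + 1 + cP`:
`D (V₀^B) η₁ = -B (V₀ (ev b Q₀^c₀)) (V₀^n Q₀^n η₁) Q₀^(m - c₀ - n)` is regular, in `I` (contains the factor `V₀ ∈ I`), and in `Nl` because
`Q₀^c₀ ev b` is an odd regular element (`b` may be replaced by its odd part, or: `Q₀^m ev b = -D V₀` is odd; the odd part of `Q₀^c₀ ev b`).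
-/

set_option autoImplicit false

namespace AnOC
open AnWL.Nd

variable {M Γ : Type} [AddCommGroup Γ] {xd : M → Γ} {e d : Γ} {N : NR M Γ xd e d} {ν : ND N}

private theorem k_swap {A : Type} [Ring A] {t : A} (ht : ∀ y, t * y = y * t) (a b : A) :
    a * (t * b) = t * (a * b) := by
  rw [← mul_assoc, ← ht a, mul_assoc]

private theorem k_dx {T : N.A} (T_s : N.s T = T) (T_R : T ∈ N.R) (c : ℕ) :
    ∀ a : N.A, T ^ c * a ∈ N.R → T ^ (c + 1) * N.dx a ∈ N.R := by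
  induction c with
  | zero =>
    intro a ha
    rw [pow_zero, one_mul] at ha
    rw [zero_add, pow_one]
    exact N.R.mul_mem T_R (N.dx_R _ ha)
  | succ c ih =>
    intro a ha
    have h1 : T ^ c * (T * a) ∈ N.R := by
      rw [← mul_assoc, ← pow_succ]
      exact ha
    have h2 := ih _ h1
    have h3 : N.dx T * (T ^ (c + 1) * a) ∈ N.R := N.R.mul_mem (N.dx_R _ T_R) ha
    have hT : ∀ y, T ^ (c + 1) * y = y * T ^ (c + 1) :=
      fun y => N.even_comm _ _ (by rw [map_pow, T_s])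
    have h4 : T ^ (c + 1 + 1) * N.dx a =
        T ^ (c + 1) * N.dx (T * a) - N.dx T * (T ^ (c + 1) * a) := by
      rw [N.dx_mul, mul_add, k_swap hT (N.dx T) a, add_sub_cancel_left, ← mul_assoc, ← pow_succ]
    rw [h4]
    exact N.R.sub_mem h2 h3

private theorem k_D_pow {V : N.A} (V_s : N.s V = V) (k : ℕ) :
    N.D (V ^ (k + 1)) = (k + 1) • (V ^ k * N.D V) := by
  induction k with
  | zero => rw [zero_add, pow_one, pow_zero, one_mul, one_smul]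
  | succ k ih =>
    have h1 : V ^ k * N.D V * V = V ^ (k + 1) * N.D V := by
      rw [mul_assoc, ← N.even_comm V (N.D V) V_s, ← mul_assoc, ← pow_succ]
    rw [pow_succ, N.D_mul, ih, map_pow, V_s, smul_mul_assoc, h1, succ_nsmul _ (k + 1)]

/-- The pole estimate for `η (1 + P a)`. -/
private theorem k_poles {T Qc P Vc η a : N.A} {c : ℕ} (T_s : N.s T = T) (T_R : T ∈ N.R)
    (Qc_s : N.s Qc = Qc) (Qc_R : Qc ∈ N.R) (Vc_s : N.s Vc = Vc) (Vc_R : Vc ∈ N.R)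
    (hη : T ^ c * η ∈ N.R) (ha : T ^ (c + 1) * a ∈ N.R) (hP : Qc * P ∈ N.R) :
    T ^ c * (T ^ (c + 1) * (Qc * Vc)) * (η * (1 + P * a)) ∈ N.R := by
  have h1 : ∀ y, T ^ c * y = y * T ^ c := fun y => N.even_comm _ _ (by rw [map_pow, T_s])
  have h2 : ∀ y, T ^ (c + 1) * y = y * T ^ (c + 1) :=
    fun y => N.even_comm _ _ (by rw [map_pow, T_s])
  have h3 : ∀ y, Qc * y = y * Qc := fun y => N.even_comm _ _ Qc_s
  have h5 : T ^ c * (T ^ (c + 1) * (Qc * Vc)) * (η * (1 + P * a)) =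
      T ^ (c + 1) * (Qc * Vc) * (T ^ c * η) +
        Vc * ((T ^ c * η) * ((Qc * P) * (T ^ (c + 1) * a))) := by
    have h6 : T ^ c * (T ^ (c + 1) * (Qc * Vc)) * (η * (1 + P * a)) =
        T ^ (c + 1) * (Qc * Vc) * ((T ^ c * η) * (1 + P * a)) := by
      rw [h1 (T ^ (c + 1) * (Qc * Vc)), mul_assoc (T ^ (c + 1) * (Qc * Vc)), ← mul_assoc (T ^ c) η]
    rw [h6, mul_add, mul_one, mul_add]
    congr 1
    rw [mul_assoc Qc P, k_swap h2 P a, k_swap h3 (T ^ c * η), k_swap h2 (T ^ c * η),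
      k_swap h3 Vc, k_swap h2 Vc, k_swap h2 Qc]
    rw [mul_assoc (T ^ (c + 1)) (Qc * Vc), mul_assoc Qc Vc]
  rw [h5]
  exact N.R.add_mem (N.R.mul_mem (N.R.mul_mem (N.R.pow_mem T_R _) (N.R.mul_mem Qc_R Vc_R)) hη)
    (N.R.mul_mem Vc_R (N.R.mul_mem hη (N.R.mul_mem hP ha)))

private theorem k_unit {W Y : N.A} (W_s : N.s W = W) (hW : IsUnit W)
    (hY : Y * Y = 0) : IsUnit (W + Y) := by
  have h0 : W * Y = Y * W := N.even_comm _ _ W_s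
  have h1 : (W + Y) * (W - Y) = W * W := by
    rw [mul_sub, add_mul, add_mul, hY, add_zero, h0]
    abel
  have h2 : (W - Y) * (W + Y) = W * W := by
    rw [mul_add, sub_mul, sub_mul, hY, sub_zero, h0]
    abel
  have h3 : Commute (W + Y) (W - Y) := h1.trans h2.symm
  have h4 : IsUnit ((W + Y) * (W - Y)) := by
    rw [h1]
    exact hW.mul hW
  exact (h3.isUnit_mul_iff.mp h4).1

theorem exists_omega (ok : ν.Ok) {V : N.A} {gV : Γ} (V_s : N.s V = V) (V_I : V ∈ N.I)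
    (V_d : V ∈ N.Hd gV) (V_l : N.Lv ν.L V) (V_Δ : ν.Δ V = 0) (V_u : IsUnit (N.ev V))
    {η : N.A} {c : ℕ} (η_s : N.s η = -η) (η_d : η ∈ N.Hd (-d)) (η_l : N.Lv ν.L η)
    (η_Δ : ν.Δ η = 1) (η_p : ((ν.Q : N.A) * V) ^ c * η ∈ N.R)
    {cP : ℕ} (hP : (ν.Q : N.A) ^ cP * ν.P ∈ N.R)
    {m c₀ : ℕ} {b : N.A} (hb : (ν.Q : N.A) ^ c₀ * b ∈ N.R)
    (hV : ν.P * N.dx V = (ν.Q : N.A) ^ m * b) (hm : c₀ + (2 * c + cP + 1) ≤ m) :
    ∃ (B : ℕ) (Ω : N.A), 1 ≤ B ∧ Ω ∈ N.I ∧ Ω ∈ N.Hd (B • gV) ∧ N.s Ω = Ω ∧ N.D Ω = 0 ∧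
      N.dx Ω = 0 ∧ N.Lv ν.L Ω ∧ IsUnit Ω ∧ N.ev V ^ B - Ω ∈ N.Nl := by
  have hs := N.sg
  have P_l : N.Lv ν.L ν.P := ok.P_fn.1
  have Q_R : (ν.Q : N.A) ∈ N.R := N.I_le _ ok.Q_I
  have V_R : V ∈ N.R := N.I_le _ V_I
  have T_R : (ν.Q : N.A) * V ∈ N.R := N.R.mul_mem Q_R V_R
  have T_s : N.s ((ν.Q : N.A) * V) = (ν.Q : N.A) * V := by rw [map_mul, ok.Q_s, V_s]
  have a_s : N.s (N.dx η) = -N.dx η := by rw [N.s_dx, η_s, map_neg]
  have X_s : N.s (ν.P * N.dx η) = ν.P * N.dx η := by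
    rw [map_mul, ok.P_s, a_s, neg_mul_neg]
  have X_X : ν.P * N.dx η * (ν.P * N.dx η) = 0 := by
    rw [← mul_assoc, hs.odd_mul_mul ok.P_s, zero_mul]
  have η'_s : N.s (η * (1 + ν.P * N.dx η)) = -(η * (1 + ν.P * N.dx η)) := by
    rw [map_mul, map_add, map_one, X_s, η_s, neg_mul]
  have Dη : N.D η = 1 - ν.P * N.dx η := by
    have h : N.D η + ν.P * N.dx η = 1 := η_Δ
    rw [← h, add_sub_cancel_right]
  have DV : N.D V = -((ν.Q : N.A) ^ m * b) := by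
    have h : N.D V + ν.P * N.dx V = 0 := V_Δ
    rw [hV] at h
    exact eq_neg_of_add_eq_zero_left h
  -- the values at `x = 0`
  have V₀_s : N.s (N.ev V) = N.ev V := by rw [← N.ev_s, V_s]
  have DV₀ : N.D (N.ev V) = -(N.ev (ν.Q : N.A) ^ m * N.ev b) := by
    rw [← N.ev_D, DV, map_neg, map_mul, map_pow]
  have Q₀_s : N.s (N.ev (ν.Q : N.A)) = N.ev (ν.Q : N.A) := by rw [← N.ev_s, ok.Q_s]
  have Q₀_u : IsUnit (N.ev (ν.Q : N.A)) := ν.Q.isUnit.map N.ev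
  have b₀_s : N.s (N.ev b) = -N.ev b := by
    have h1 : N.s (N.D (N.ev V)) = -N.D (N.ev V) := by rw [N.s_D, V₀_s]
    rw [DV₀, map_neg, map_mul, map_pow, Q₀_s, neg_inj, ← mul_neg] at h1
    exact (Q₀_u.pow m).mul_left_cancel h1
  have Dη₁ : N.D (N.ev (η * (1 + ν.P * N.dx η))) = 1 := by
    have h1 : N.D (N.ev η) = 1 - N.ev (ν.P * N.dx η) := by
      rw [← N.ev_D, Dη, map_sub, map_one]
    have h2 : N.D (N.ev (ν.P * N.dx η)) = 0 := by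
      have h3 := N.D_D (N.ev η)
      rw [h1, map_sub, N.D_one, zero_sub, neg_eq_zero] at h3
      exact h3
    have h4 : N.ev (ν.P * N.dx η) * N.ev (ν.P * N.dx η) = 0 := by
      rw [← map_mul, X_X, map_zero]
    rw [map_mul N.ev, map_add N.ev, map_one, N.D_mul, map_add N.D, N.D_one, h2, h1, add_zero, mul_zero,
      add_zero, sub_mul, one_mul, mul_add, mul_one, h4, add_zero]
    abel
  -- the pole estimate
  have h_pole : ((ν.Q : N.A) * V) ^ (2 * c + 1 + cP) * (η * (1 + ν.P * N.dx η)) ∈ N.R := by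
    have h1 := k_poles (η := η) (a := N.dx η) (P := ν.P) (c := c) T_s T_R
      (Qc := (ν.Q : N.A) ^ cP) (Vc := V ^ cP) (by rw [map_pow, ok.Q_s]) (N.R.pow_mem Q_R _)
      (by rw [map_pow, V_s]) (N.R.pow_mem V_R _) η_p (k_dx T_s T_R c η η_p) hP
    have h2 : ((ν.Q : N.A) * V) ^ (2 * c + 1 + cP) =
        ((ν.Q : N.A) * V) ^ c * (((ν.Q : N.A) * V) ^ (c + 1) * ((ν.Q : N.A) ^ cP * V ^ cP)) := by
      have h3 : Commute (ν.Q : N.A) V := N.even_comm _ _ ok.Q_s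
      rw [← h3.mul_pow, ← pow_add, ← pow_add]
      congr 1
      omega
    rw [h2]
    exact h1
  obtain ⟨r, hr⟩ : ∃ r, m = r + (c₀ + (2 * c + 1 + cP)) := ⟨m - (c₀ + (2 * c + 1 + cP)), by omega⟩
  generalize 2 * c + 1 + cP = n at h_pole hr
  generalize hη' : η * (1 + ν.P * N.dx η) = η' at *
  have η'_l : N.Lv ν.L η' := by
    rw [← hη']
    exact Lv_mul η_l (Lv_add (Lv_one _) (Lv_mul P_l (Lv_dx η_l)))
  have η'_d : η' ∈ N.Hd (-d) := by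
    have h1 : ν.P * N.dx η ∈ N.Hd 0 := by
      have h2 := N.Hd_mul _ _ _ _ ok.P_d (N.Hd_dx _ _ η_d)
      have h3 : e + d + (-d - e) = 0 := by abel
      rwa [h3] at h2
    have h4 := N.Hd_mul _ _ _ _ η_d ((N.Hd 0).add_mem N.Hd_one h1)
    rwa [add_zero, hη'] at h4
  have η₁_s : N.s (N.ev η') = -N.ev η' := by rw [← N.ev_s, η'_s, map_neg]
  have W_s : N.s (N.ev V ^ (n + 2)) = N.ev V ^ (n + 2) := by rw [map_pow, V₀_s]
  have DW_s : N.s (N.D (N.ev V ^ (n + 2))) = -N.D (N.ev V ^ (n + 2)) := by rw [N.s_D, W_s]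
  have Y_s : N.s (N.D (N.ev V ^ (n + 2)) * N.ev η') = N.D (N.ev V ^ (n + 2)) * N.ev η' := by
    rw [map_mul, DW_s, η₁_s, neg_mul_neg]
  have Y_Y : N.D (N.ev V ^ (n + 2)) * N.ev η' * (N.D (N.ev V ^ (n + 2)) * N.ev η') = 0 := by
    rw [← mul_assoc, hs.odd_mul_mul DW_s, zero_mul]
  have V₀_I : N.ev V ∈ N.I := N.ev_I _ V_I
  have V₀_R : N.ev V ∈ N.R := N.I_le _ V₀_I
  have Q₀_R : N.ev (ν.Q : N.A) ∈ N.R := N.ev_R _ Q_R
  -- the second term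
  have hZ : N.D (N.ev V ^ (n + 2)) * N.ev η' = -((n + 1 + 1) • (N.ev V * (N.ev (ν.Q : N.A) ^ r *
      (N.ev (ν.Q : N.A) ^ c₀ * N.ev b * (N.ev (((ν.Q : N.A) * V) ^ n * η')))))) := by
    have c1 : ∀ k y, N.ev V ^ k * y = y * N.ev V ^ k :=
      fun k y => N.even_comm _ _ (by rw [map_pow, V₀_s])
    have c2 : ∀ k y, N.ev (ν.Q : N.A) ^ k * y = y * N.ev (ν.Q : N.A) ^ k :=
      fun k y => N.even_comm _ _ (by rw [map_pow, Q₀_s])
    have h3 : Commute (N.ev (ν.Q : N.A)) (N.ev V) := N.even_comm _ _ Q₀_s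
    have h4 : N.ev (((ν.Q : N.A) * V) ^ n * η') =
        N.ev (ν.Q : N.A) ^ n * (N.ev V ^ n * N.ev η') := by
      rw [map_mul, map_pow, map_mul, h3.mul_pow, mul_assoc]
    have h5 : N.ev V ^ (n + 1) * (N.ev (ν.Q : N.A) ^ m * N.ev b) * N.ev η' =
        N.ev V * (N.ev (ν.Q : N.A) ^ r * (N.ev (ν.Q : N.A) ^ c₀ * N.ev b *
          (N.ev (ν.Q : N.A) ^ n * (N.ev V ^ n * N.ev η')))) := by
      rw [hr, pow_add _ r, pow_add _ c₀, pow_succ']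
      simp only [mul_assoc]
      rw [k_swap (c2 n) (N.ev b), k_swap (c1 n) (N.ev b), k_swap (c2 r) (N.ev V ^ n),
        k_swap (c2 c₀) (N.ev V ^ n), k_swap (c2 n) (N.ev V ^ n)]
    rw [k_D_pow V₀_s (n + 1), DV₀, mul_neg, smul_neg, neg_mul, smul_mul_assoc, h5, h4]
  have b₁_Nl : N.ev (ν.Q : N.A) ^ c₀ * N.ev b ∈ N.Nl := by
    refine N.odd_Nl _ ?_ ?_
    · have h1 := N.ev_R _ hb
      rwa [map_mul, map_pow] at h1
    · rw [map_mul, map_pow, Q₀_s, b₀_s, mul_neg]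
  have p₀_R : N.ev (((ν.Q : N.A) * V) ^ n * η') ∈ N.R := N.ev_R _ h_pole
  have b₂_Nl := N.Nl_mul _ b₁_Nl _ p₀_R
  have b₃_Nl := N.mul_Nl _ (N.R.pow_mem Q₀_R r) _ b₂_Nl
  have Y_I : N.D (N.ev V ^ (n + 2)) * N.ev η' ∈ N.I := by
    rw [hZ]
    exact N.I.neg_mem (N.I.smul_of_tower_mem _ (N.I_mul _ V₀_I _ (N.Nl_le _ b₃_Nl)))
  have Y_Nl : N.D (N.ev V ^ (n + 2)) * N.ev η' ∈ N.Nl := by
    rw [hZ]
    exact N.Nl.neg_mem (N.Nl.smul_of_tower_mem _ (N.mul_Nl _ V₀_R _ b₃_Nl))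
  have hΩ : N.ev (V ^ (n + 2) + N.D (V ^ (n + 2)) * η') =
      N.ev V ^ (n + 2) + N.D (N.ev V ^ (n + 2)) * N.ev η' := by
    rw [map_add, map_mul, N.ev_D, map_pow]
  refine ⟨n + 2, N.ev (V ^ (n + 2) + N.D (V ^ (n + 2)) * η'), by omega, ?_, ?_, ?_, ?_, N.dx_ev _, ?_,
    ?_, ?_⟩
  · rw [hΩ]
    refine N.I.add_mem ?_ Y_I
    rw [pow_succ']
    exact N.I_mul _ V₀_I _ (N.R.pow_mem V₀_R _)
  · refine N.Hd_ev _ _ ((N.Hd _).add_mem (Hd_pow V_d _) ?_)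
    have h1 := N.Hd_mul _ _ _ _ (N.Hd_D _ _ (Hd_pow V_d (n + 2))) η'_d
    rwa [add_neg_cancel_right] at h1
  · rw [hΩ, map_add, W_s, Y_s]
  · rw [hΩ, map_add, N.D_mul, N.D_D, zero_mul, zero_add, DW_s, Dη₁, mul_one, add_neg_cancel]
  · exact Lv_ev (Lv_add (Lv_pow V_l _) (Lv_mul (Lv_D (Lv_pow V_l _)) η'_l))
  · rw [hΩ]
    exact k_unit W_s (V_u.pow _) Y_Y
  · rw [hΩ, sub_add_cancel_left]
    exact N.Nl.neg_mem Y_Nl

end AnOC
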