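import Pool.Agent.Helper23.OC.D06
import Pool.Agent.Helper48.WL.W08

/-!
# Project OC, S02: existence of a stage (steps (1), (2))

Index set `ι × ℕ`, exponent `m z = m₀ + z.2`.
PROOF. (a) Uniform bound `c₀`: `ν₁ = ν.map (psq X Prod.fst)` over `ι × ℕ` with `G₁ = punit Q (·.2)` (`Gp_punit`), `exists_PB` gives `c₀`. The shift
`q z = (z.1, m₀ + z.2)` gives (`map_PB` for `psq _ q`) `PB` with the same `c₀` for the exponent `m₀ + z.2`, for every `m₀`.
(b) Choice of `m₀`: `m₀ ≥ c₀ + κ + 1`, `m₀ ≥ n₀ + ∑_j |xd j|` (as a natural number). Degrees: `ν.q i ≥ 2`, even: `q₀ = coeff 0 (Q i) ∈ (X i).I` is a unit, even, in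
`Hm (q i)` (`IPos`, `Nontrivial`: a unit is not `0`; an even element of odd degree satisfies `a = -a`).
(c) `G = punit Q m`; `G i = Q i ^ (m z)`. `σ = Δ X` is `x`-free, closed, `σ = ev (P φ⁻¹ G)` (`σ_eq`, `σ_dx`, `σ_D`): `σ z = C (s₀ z)`, `s₀ z = coeff 0 (σ z) =
q₀ ^ (m z - c₀) * (coeff 0 of Q ^ c₀ P φ⁻¹)`, in `(X z.1).I ^ κ` (`m z - c₀ ≥ κ`), closed, of level `L`, of degree `gx + 1`, `gx = m z q + e` (odd).
(d) `EXTo` for each `z` with `w = s₀ z`, `g = gx + 1`: `Y z`, `f z`, `y₀ z`; `y = fun z => C (y₀ z)`. `y_s`: `y₀` is of even degree.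
(e) Properties, in `psp Y`: `c = Δ (X - y) = σ - D y = C (f s₀ - D y₀)`: `c_p` from `Lv ∅`. `φ⁻¹ G = Q ^ (m - c₀) (Q ^ c₀ φ⁻¹)`: `hΨ`; `σI`: `s₀ ∈ I`.
`rl l (X - y) = pdl l X + G b - pdl l y`, `pdl l X = int (G b')` (`rl_X`-form of `PB`; `rl_free` for `y`), `G b = Q ^ (m - c₀) (Q ^ c₀ b) ∈ I` (`m > c₀`): `hR`.
`ev (rl l (X - y)) = ev (G b) - pdl l y` (`ev (int _) = 0`, `ev_pd`, `ev_of`): `hev` with `r = ev (Q ^ (m - c₀ - 1) (Q ^ c₀ b))`. `hU`: `coeff 0 (G b)` is the image of an even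
regular element of `(X z.1).A` (take `b` over `X`: `PB` over the family `fun z => X z.1`, then map by `pspm f`; the parity of `G b`: `rl l X` and `pdl l X`
are even for even `l`), unit clause of `EXTo` (`n₀ ≤ g - 1 - ∑ xd`: `g - 1 = m z q + e ≥ m₀`, `|∑_l xd| ≤ ∑_j |xd j|` as `l` is nodup). `tm`: last clause of `EXTo`
(`coeff 0 (C (y₀ z)) = y₀ z`).
-/

set_option autoImplicit false

namespace AnOC
open AnWL PowerSeries

variable {M : Type} {xd : M → ℤ} {N : ℕ} {e : ℤ} {he : Even e}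

section aux
variable {ι : Type} {X : ι → GA M xd N} {ν : ND (psp X e he)}

private theorem s02_q {K : Set (GA M xd N)} (hP : IPos K) (hnt : ∀ G ∈ K, Nontrivial G.A)
    (hX : ∀ i, X i ∈ K) (ok : ν.Ok) (i : ι) : 2 ≤ ν.q i ∧ Even (ν.q i) := by
  obtain ⟨Qi, hQi⟩ : ∃ Qi : PowerSeries (X i).A, Qi = (ν.Q : (psp X e he).A) i := ⟨_, rfl⟩
  have h1 : coeff 0 Qi ∈ (X i).Hm (ν.q i) := by
    have h2 : ∀ n : ℕ, coeff n Qi ∈ (X i).Hm (ν.q i - n * e) := by
      rw [hQi]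
      exact ok.Q_d i
    have h3 := h2 0
    rwa [Nat.cast_zero, zero_mul, sub_zero] at h3
  have h2 : (X i).s (coeff 0 Qi) = coeff 0 Qi := by
    have h3 : psH (X i).s Qi = Qi := by
      rw [hQi]
      exact congrFun ok.Q_s i
    rw [← coeff_psH, h3]
  have h3 : coeff 0 Qi ∈ (X i).I := by
    have h4 : ∀ n : ℕ, coeff n Qi ∈ (X i).I := by
      rw [hQi]
      exact ok.Q_I i
    exact h4 0
  have h4 : IsUnit (coeff 0 Qi) := by
    apply ps_isUnit_ev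
    have h5 : IsUnit (ν.Q : (psp X e he).A) := ν.Q.isUnit
    rw [hQi]
    exact (Pi.isUnit_iff (M := fun i => PowerSeries (X i).A)).1 h5 i
  have := hnt (X i) (hX i)
  have h5 : coeff 0 Qi ≠ 0 := h4.ne_zero
  have h6 : 0 < ν.q i := by
    by_contra hc
    exact h5 (hP (X i) (hX i) (ν.q i) _ h3 h1 (not_lt.1 hc))
  have h7 : Even (ν.q i) := by
    by_contra hc
    rw [Int.not_even_iff_odd] at hc
    have h8 := Hm_s_odd (X i) hc h1
    rw [h2] at h8
    apply h5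
    have h9 : (2 : ℚ) • coeff 0 Qi = 0 := by
      rw [two_smul]
      nth_rewrite 2 [h8]
      exact add_neg_cancel _
    exact (smul_eq_zero.1 h9).resolve_left (by norm_num)
  refine ⟨?_, h7⟩
  obtain ⟨k, hk⟩ := h7
  omega

private theorem s02_div (ok : ν.Ok) {m : ι → ℕ} {c k : ℕ} (hm : ∀ z, c + k ≤ m z)
    {b : (psp X e he).A} (hb : (ν.Q : (psp X e he).A) ^ c * b ∈ (psp X e he).R) :
    ∃ r ∈ (psp X e he).R, ((punit ν.Q m : (psp X e he).Aˣ) : (psp X e he).A) * b =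
      (ν.Q : (psp X e he).A) ^ k * r := by
  refine ⟨fun z => ((ν.Q : (psp X e he).A) z : (psn (X z) e he).A) ^ (m z - c - k) *
    (((ν.Q : (psp X e he).A) ^ c * b : (psp X e he).A) z), ?_, ?_⟩
  · intro z
    refine (psn (X z) e he).R.mul_mem ((psn (X z) e he).R.pow_mem ?_ _) (hb z)
    exact (psn (X z) e he).I_le _ (ok.Q_I z)
  · funext z
    show ((ν.Q : (psp X e he).A) z : (psn (X z) e he).A) ^ m z * b z =
      ((ν.Q : (psp X e he).A) z : (psn (X z) e he).A) ^ k *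
        (((ν.Q : (psp X e he).A) z : (psn (X z) e he).A) ^ (m z - c - k) *
          (((ν.Q : (psp X e he).A) z : (psn (X z) e he).A) ^ c * b z))
    rw [← mul_assoc, ← mul_assoc, ← pow_add, ← pow_add]
    congr 2
    have := hm z
    omega

private theorem s02_c0 {A : Type} [Ring A] (a b : PowerSeries A) (k : ℕ) :
    coeff 0 (a ^ k * b) = coeff 0 a ^ k * coeff 0 b := by
  rw [coeff_zero_eq_constantCoeff_apply, coeff_zero_eq_constantCoeff_apply,
    coeff_zero_eq_constantCoeff_apply, map_mul, map_pow]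

private theorem s02_psL_C {A : Type} [Ring A] [Algebra ℚ A] (g : A →ₗ[ℚ] A) (a : A) :
    psL g (C a) = C (g a) := by
  ext n
  rw [coeff_psL, coeff_C, coeff_C]
  split_ifs
  · rfl
  · exact map_zero g

private theorem s02_psH_C {A : Type} [Ring A] [Algebra ℚ A] (g : A →ₐ[ℚ] A) (a : A) :
    psH g (C a) = C (g a) := by
  ext n
  rw [coeff_psH, coeff_C, coeff_C]
  split_ifs
  · rfl
  · exact map_zero g

private theorem s02_psF_C {A B : Type} [Ring A] [Algebra ℚ A] [Ring B] [Algebra ℚ B]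
    (g : A →ₐ[ℚ] B) (a : A) : psF g (C a) = C (g a) := by
  ext n
  rw [coeff_psF, coeff_C, coeff_C]
  split_ifs
  · rfl
  · exact map_zero g

private theorem s02_psdx_C {A : Type} [Ring A] [Algebra ℚ A] (a : A) : psdx A (C a) = 0 := by
  ext n
  rw [coeff_psdx, coeff_C, if_neg (Nat.succ_ne_zero n), smul_zero, map_zero]

private theorem s02_pdl_C (y : ∀ i, (X i).A) (l : List M) :
    (psp X e he).pdl l (fun i => C (y i)) = fun i => C ((X i).pdl l (y i)) := by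
  induction l with
  | nil => rfl
  | cons j l ih =>
    show (psp X e he).pd j ((psp X e he).pdl l (fun i => C (y i))) = _
    rw [ih]
    funext i
    exact s02_psL_C _ _

end aux

section aux2
variable {Γ : Type} [AddCommGroup Γ] {xd : M → Γ} {e d : Γ} {N : NR M Γ xd e d} {ν : ND N}

private theorem s02_s_rl (ok : ν.Ok) {x : N.A} (hx : N.s x = x) {l : List M}
    (hl : ∀ j ∈ l, j ∈ ν.L) : N.s (ν.rl l x) = (-1 : ℚ) ^ l.length • ν.rl l x := by
  induction l with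
  | nil => rw [List.length_nil, pow_zero, one_smul]; exact hx
  | cons j l ih =>
    have h1 := ih fun i hi => hl i (List.mem_cons_of_mem _ hi)
    have h2 := (ok.r_od (hl j List.mem_cons_self)).sg (ν.rl l x)
    show N.s (ν.r j (ν.rl l x)) = _ • ν.r j (ν.rl l x)
    rw [h1, map_smul, rL_apply] at h2
    rw [h2, List.length_cons, pow_succ, mul_neg_one, neg_smul]

private theorem s02_s_pdl {x : N.A} (hx : N.s x = x) (l : List M) :
    N.s (N.pdl l x) = (-1 : ℚ) ^ l.length • N.pdl l x := by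
  induction l with
  | nil => rw [List.length_nil, pow_zero, one_smul]; exact hx
  | cons j l ih =>
    show N.s (N.pd j (N.pdl l x)) = _ • N.pd j (N.pdl l x)
    rw [N.s_pd, ih, map_smul, List.length_cons, pow_succ, mul_neg_one, neg_smul]

private theorem s02_rl_sub (x y : N.A) (l : List M) :
    ν.rl l (x - y) = ν.rl l x - ν.rl l y := by
  induction l with
  | nil => rfl
  | cons j l ih =>
    show ν.r j (ν.rl l (x - y)) = ν.r j (ν.rl l x) - ν.r j (ν.rl l y)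
    rw [ih, ← rL_apply, map_sub, rL_apply, rL_apply]

private theorem s02_Δ_sub (x y : N.A) : ν.Δ (x - y) = ν.Δ x - ν.Δ y := by
  rw [← ΔL_apply, map_sub, ΔL_apply, ΔL_apply]

private theorem s02_Lv_Δ (ok : ν.Ok) {x : N.A} (hx : N.Lv ν.L x) : N.Lv ν.L (ν.Δ x) :=
  Lv_add (Lv_D hx) (Lv_mul ok.P_fn.1 (Lv_dx hx))

end aux2

theorem exists_stage [Fintype M] [DecidableEq M] (K : Set (GA M xd N)) {κ : ℕ} {n₀ : ℤ}
    (hκ : 1 ≤ κ) (hK : EXTo K κ n₀) (hP : IPos K) (hnt : ∀ G ∈ K, Nontrivial G.A) (he2 : 2 ≤ e)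
    {ι : Type} (X : ι → GA M xd N) (hX : ∀ i, X i ∈ K) {ν : ND (psp X e he)} (ok : ν.Ok) :
    ∃ (m₀ : ℕ) (Y : ι × ℕ → GA M xd N) (f : ∀ z : ι × ℕ, Mor (X z.1) (Y z)) (y : (psp Y e he).A),
      Stg K ν Prod.fst (fun z => m₀ + z.2) Y f y := by
  obtain ⟨ν₁, hν₁⟩ : ∃ ν₁ : ND (psp (fun z : ι × ℕ => X z.1) e he),
    ν₁ = ν.map (psq X (Prod.fst : ι × ℕ → ι) e he) := ⟨_, rfl⟩
  have ok₁ : ν₁.Ok := by rw [hν₁]; exact map_Ok _ ok
  have hL : ν₁.L = ν.L := by rw [hν₁]; rfl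
  have hq : ∀ z, ν₁.q z = ν.q z.1 := by intro z; rw [hν₁]; rfl
  obtain ⟨c₀, hc₀⟩ := exists_PB ok₁ (Gp_punit ok₁ (fun z : ι × ℕ => z.2))
  -- the shift
  have hsh : ∀ m₀ : ℕ, ν₁.PB ((punit ν₁.Q (fun z : ι × ℕ => m₀ + z.2) :
      (psp (fun z : ι × ℕ => X z.1) e he).Aˣ) : (psp (fun z : ι × ℕ => X z.1) e he).A) c₀ := by
    intro m₀
    have h1 := map_PB (psq (fun z : ι × ℕ => X z.1) (fun z : ι × ℕ => (z.1, m₀ + z.2)) e he) hc₀
    rw [hν₁] at h1 ⊢
    exact h1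
  -- the choice of `m₀`
  obtain ⟨m₀, hm₀, hm₀'⟩ : ∃ m₀ : ℕ, c₀ + κ + 1 ≤ m₀ ∧ n₀ + ∑ j : M, |xd j| ≤ (m₀ : ℤ) := by
    refine ⟨c₀ + κ + 1 + (n₀ + ∑ j : M, |xd j|).toNat, by omega, ?_⟩
    have h1 := Int.self_le_toNat (n₀ + ∑ j : M, |xd j|)
    push_cast
    omega
  have hPB := hsh m₀
  obtain ⟨m, hm⟩ : ∃ m : ι × ℕ → ℕ, m = fun z : ι × ℕ => m₀ + z.2 := ⟨_, rfl⟩
  rw [← hm] at hPB
  have B := Gp_punit ok₁ m
  have hmz : ∀ z, m₀ ≤ m z := by intro z; rw [hm]; exact Nat.le_add_right _ _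
  refine ⟨m₀, ?_⟩
  rw [← hm]
  clear hsh hc₀
  -- the element `G`
  obtain ⟨G, hG⟩ : ∃ G : (psp (fun z : ι × ℕ => X z.1) e he).A, G = ((punit ν₁.Q m :
      (psp (fun z : ι × ℕ => X z.1) e he).Aˣ) : (psp (fun z : ι × ℕ => X z.1) e he).A) := ⟨_, rfl⟩
  rw [← hG] at hPB B
  have hdiv : ∀ (k : ℕ), k ≤ κ + 1 → ∀ b : (psp (fun z : ι × ℕ => X z.1) e he).A,
      (ν₁.Q : (psp (fun z : ι × ℕ => X z.1) e he).A) ^ c₀ * b ∈
        (psp (fun z : ι × ℕ => X z.1) e he).R →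
      ∃ r ∈ (psp (fun z : ι × ℕ => X z.1) e he).R, G * b =
        (ν₁.Q : (psp (fun z : ι × ℕ => X z.1) e he).A) ^ k * r := by
    intro k hk b hb
    rw [hG]
    refine s02_div ok₁ (fun z => ?_) hb
    have := hmz z
    omega
  -- the degrees
  have hqq : ∀ z, 2 ≤ ν₁.q z ∧ Even (ν₁.q z) := by
    intro z
    rw [hq]
    exact s02_q hP hnt hX ok z.1
  have hgx : ∀ z, Even ((m z : ℤ) * ν₁.q z + e) := fun z => ((hqq z).2.mul_left _).add he
  have hgx' : ∀ z, (m₀ : ℤ) ≤ (m z : ℤ) * ν₁.q z + e := by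
    intro z
    have h1 : (m₀ : ℤ) ≤ m z := by exact_mod_cast hmz z
    have h2 := (hqq z).1
    have h3 : (0 : ℤ) ≤ m z := Int.natCast_nonneg _
    nlinarith
  -- the obstruction
  obtain ⟨σ, hσ⟩ : ∃ σ : (psp (fun z : ι × ℕ => X z.1) e he).A, σ = ν₁.Δ (ν₁.X G) := ⟨_, rfl⟩
  have σx : (psp (fun z : ι × ℕ => X z.1) e he).dx σ = 0 := by rw [hσ]; exact σ_dx ok₁ B
  have σD : (psp (fun z : ι × ℕ => X z.1) e he).D σ = 0 := by rw [hσ]; exact σ_D ok₁ B
  have σev : σ = (psp (fun z : ι × ℕ => X z.1) e he).ev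
      (ν₁.P * ((ν₁.φ⁻¹ : (psp (fun z : ι × ℕ => X z.1) e he).Aˣ) :
        (psp (fun z : ι × ℕ => X z.1) e he).A) * G) := by rw [hσ]; exact σ_eq ok₁ B
  have σd : σ ∈ (psp (fun z : ι × ℕ => X z.1) e he).Hd
      ((fun z => m z • ν₁.q z) + (fun _ => e) + (fun _ => 1)) := by
    rw [hσ]
    exact Hd_Δ ok₁ (X_d ok₁ B)
  have σL : (psp (fun z : ι × ℕ => X z.1) e he).Lv ν₁.L σ := by
    rw [hσ]
    exact s02_Lv_Δ ok₁ (X_l ok₁ B)
  obtain ⟨s₀, hs₀⟩ : ∃ s₀ : (∀ z : ι × ℕ, (X z.1).A), ∀ z : ι × ℕ, s₀ z =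
    coeff 0 (σ z : PowerSeries (X z.1).A) := ⟨_, fun _ => rfl⟩
  have σC : ∀ z : ι × ℕ, (σ z : PowerSeries (X z.1).A) = C (s₀ z) := by
    intro z
    have h1 : psdx (X z.1).A (σ z) = 0 := congrFun σx z
    have h2 := psev_of_psdx h1
    rw [psev_apply] at h2
    rw [hs₀]
    exact h2.symm
  have s_κ : ∀ z : ι × ℕ, ∃ r ∈ (X z.1).R,
      s₀ z = coeff 0 ((ν₁.Q : (psp (fun z : ι × ℕ => X z.1) e he).A) z :
        PowerSeries (X z.1).A) ^ κ * r := by
    intro z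
    obtain ⟨r, hr, h1⟩ := hdiv κ (by omega) _ hPB.hP
    refine ⟨coeff 0 (r z : PowerSeries (X z.1).A), hr z 0, ?_⟩
    have h2 : σ = (psp (fun z : ι × ℕ => X z.1) e he).ev
        ((ν₁.Q : (psp (fun z : ι × ℕ => X z.1) e he).A) ^ κ * r) := by
      rw [σev, ← h1, ← (psp (fun z : ι × ℕ => X z.1) e he).even_comm G _ B.G_s]
    have h3 : (σ z : PowerSeries (X z.1).A) = psev (X z.1).A
        ((((ν₁.Q : (psp (fun z : ι × ℕ => X z.1) e he).A) z : PowerSeries (X z.1).A)) ^ κ * r z) := by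
      rw [h2]
      rfl
    rw [hs₀, h3, psev_apply, coeff_C, if_pos rfl]
    exact s02_c0 _ _ _
  have Q_I0 : ∀ z : ι × ℕ, coeff 0 ((ν₁.Q : (psp (fun z : ι × ℕ => X z.1) e he).A) z :
      PowerSeries (X z.1).A) ∈ (X z.1).I := fun z => ok₁.Q_I z 0
  have s_I : ∀ z, s₀ z ∈ (X z.1).I := by
    intro z
    obtain ⟨r, hr, h1⟩ := s_κ z
    rw [h1]
    exact (X z.1).I_mul _ (I_pow_mem (X z.1) hκ (Q_I0 z)) _ hr
  have s_Iκ : ∀ z, s₀ z ∈ (X z.1).I ^ κ := by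
    intro z
    obtain ⟨r, hr, h1⟩ := s_κ z
    rw [h1]
    exact pow_mul_mem_I (X z.1) hκ (Q_I0 z) hr
  have s_D : ∀ z, (X z.1).D (s₀ z) = 0 := by
    intro z
    have h1 : psL (X z.1).D (σ z) = 0 := congrFun σD z
    rw [hs₀, ← coeff_psL, h1, map_zero]
  have s_L : ∀ z, (X z.1).Lv ν.L (s₀ z) := by
    intro z j hj
    have h1 : psL ((X z.1).pd j) (σ z) = 0 := congrFun (σL j (by rw [hL]; exact hj)) z
    rw [hs₀, ← coeff_psL, h1, map_zero]
  have s_d : ∀ z, s₀ z ∈ (X z.1).Hm ((m z : ℤ) * ν₁.q z + e + 1) := by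
    intro z
    have h1 : coeff 0 (σ z : PowerSeries (X z.1).A) ∈
      (X z.1).Hm (m z • ν₁.q z + e + 1 - (0 : ℕ) * e) := σd z 0
    rw [Nat.cast_zero, zero_mul, sub_zero, nsmul_eq_mul] at h1
    rw [hs₀]
    exact h1
  have hex := fun z : ι × ℕ => hK (X z.1) (hX z.1) ν.L ((m z : ℤ) * ν₁.q z + e + 1) (s₀ z)
    (hgx z).add_one (s_d z) (s_Iκ z) (s_D z) (s_L z)
  choose Y hY f y₀ y_R y_I y_d y_L y_p y_u y_t using hex
  obtain ⟨y, hy⟩ : ∃ y : (psp Y e he).A, y = fun z => C (y₀ z) := ⟨_, rfl⟩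
  refine ⟨Y, f, y, ?_⟩
  obtain ⟨ν₂, hν₂⟩ : ∃ ν₂ : ND (psp Y e he), ν₂ = nd ν Prod.fst f := ⟨_, rfl⟩
  have hν₂' : ν₂ = ν₁.map (pspm f e he) := by
    rw [hν₂, hν₁]
    rfl
  have ok₂ : ν₂.Ok := by rw [hν₂']; exact map_Ok _ ok₁
  obtain ⟨G₂, hG₂⟩ : ∃ G₂ : (psp Y e he).A,
    G₂ = ((punit ν₂.Q m : (psp Y e he).Aˣ) : (psp Y e he).A) := ⟨_, rfl⟩
  have hG₂' : G₂ = (pspm f e he).f G := by
    rw [hG₂, hν₂', hG]
    exact (congrArg Units.val (punit_map f ν₁.Q m)).symm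
  have hX₂ : ν₂.X G₂ = (pspm f e he).f (ν₁.X G) := by
    rw [hν₂', hG₂']
    have h1 : ((((ν₁.map (pspm f e he)).φ⁻¹ : (psp Y e he).Aˣ)) : (psp Y e he).A) =
        (pspm f e he).f ((ν₁.φ⁻¹ : (psp (fun z : ι × ℕ => X z.1) e he).Aˣ) :
          (psp (fun z : ι × ℕ => X z.1) e he).A) :=
      Units.coe_map_inv ((pspm f e he).f :
        (psp (fun z : ι × ℕ => X z.1) e he).A →* (psp Y e he).A) ν₁.φ
    unfold ND.X
    rw [h1, ← map_mul, (pspm f e he).int]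
  obtain ⟨xb, hxb⟩ : ∃ xb : (psp Y e he).A, xb = ν₂.X G₂ - y := ⟨_, rfl⟩
  have hbx : bx ν Prod.fst m f y = xb := by
    rw [hxb, hG₂, hν₂]
    rfl
  have y_x : (psp Y e he).dx y = 0 := by
    rw [hy]
    funext z
    exact s02_psdx_C _
  have y_I' : y ∈ (psp Y e he).I := by
    rw [hy]
    intro z n
    rw [coeff_C]
    split_ifs
    · exact y_I z
    · exact (Y z).I.zero_mem
  have pdl_y : ∀ l, (psp Y e he).pdl l y ∈ (psp Y e he).I := by
    intro l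
    induction l with
    | nil => exact y_I'
    | cons j l ih => exact (psp Y e he).pd_I j _ ih
  have Δy : ν₂.Δ y = (psp Y e he).D y := by
    unfold ND.Δ
    rw [y_x, mul_zero, add_zero]
  have hσ₂ : ν₂.Δ (ν₂.X G₂) = (pspm f e he).f σ := by
    rw [hX₂, hν₂', map_Δ, hσ]
  have Q_R : (ν₁.Q : (psp (fun z : ι × ℕ => X z.1) e he).A) ∈
      (psp (fun z : ι × ℕ => X z.1) e he).R :=
    (psp (fun z : ι × ℕ => X z.1) e he).I_le _ ok₁.Q_I
  -- the words
  have hword : ∀ l : List M, l.Nodup → (∀ j ∈ l, j ∈ ν.L) →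
      ∃ a r a' : (psp (fun z : ι × ℕ => X z.1) e he).A,
        a ∈ (psp (fun z : ι × ℕ => X z.1) e he).I ∧
        a' ∈ (psp (fun z : ι × ℕ => X z.1) e he).I ∧
        r ∈ (psp (fun z : ι × ℕ => X z.1) e he).R ∧
        a = (ν₁.Q : (psp (fun z : ι × ℕ => X z.1) e he).A) * r ∧
        (Even l.length → (psp (fun z : ι × ℕ => X z.1) e he).s a = a) ∧
        ν₂.rl l xb = (pspm f e he).f a + (psp Y e he).int ((pspm f e he).f a') -
          (psp Y e he).pdl l y := by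
    intro l hn hl
    have hl' : ∀ j ∈ l, j ∈ ν₁.L := by rw [hL]; exact hl
    obtain ⟨b, -, hbR, hb⟩ := hPB.hr l hn hl'
    obtain ⟨b', -, hbR', hb'⟩ := hPB.hi l hn hl'
    obtain ⟨r, hr, h1⟩ := hdiv 1 (by omega) b hbR
    obtain ⟨r', hr', h1'⟩ := hdiv 1 (by omega) b' hbR'
    rw [pow_one] at h1 h1'
    refine ⟨G * b, r, G * b', ?_, ?_, hr, h1, ?_, ?_⟩
    · rw [h1]
      exact (psp (fun z : ι × ℕ => X z.1) e he).I_mul _ ok₁.Q_I _ hr
    · rw [h1']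
      exact (psp (fun z : ι × ℕ => X z.1) e he).I_mul _ ok₁.Q_I _ hr'
    · intro hev
      rw [← hb, map_sub, s02_s_rl ok₁ (X_s ok₁ B) hl', s02_s_pdl (X_s ok₁ B), hev.neg_one_pow,
        one_smul, one_smul]
    · rw [hxb, s02_rl_sub, (rl_free ok₂ y_x l).1, hX₂]
      congr 1
      rw [hν₂', map_rl, (pspm f e he).int, ← hb', ← hb, ← map_add, sub_add_cancel]
  have h_R : ∀ l : List M, l.Nodup → (∀ j ∈ l, j ∈ ν.L) → ν₂.rl l xb ∈ (psp Y e he).I := by
    intro l hn hl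
    obtain ⟨a, r, a', ha, ha', -, -, -, h1⟩ := hword l hn hl
    rw [h1]
    exact (psp Y e he).I.sub_mem ((psp Y e he).I.add_mem ((pspm f e he).I _ ha)
      ((psp Y e he).int_I _ ((pspm f e he).I _ ha'))) (pdl_y l)
  have h_ev : ∀ l : List M, l.Nodup → (∀ j ∈ l, j ∈ ν.L) →
      ∃ a r : (psp (fun z : ι × ℕ => X z.1) e he).A,
        r ∈ (psp (fun z : ι × ℕ => X z.1) e he).R ∧
        a ∈ (psp (fun z : ι × ℕ => X z.1) e he).I ∧
        a = (ν₁.Q : (psp (fun z : ι × ℕ => X z.1) e he).A) * r ∧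
        (Even l.length → (psp (fun z : ι × ℕ => X z.1) e he).s a = a) ∧
        (psp Y e he).ev (ν₂.rl l xb) + (psp Y e he).pdl l y =
          (psp Y e he).ev ((pspm f e he).f a) := by
    intro l hn hl
    obtain ⟨a, r, a', ha, ha', hr, har, hs, h1⟩ := hword l hn hl
    refine ⟨a, r, hr, ha, har, hs, ?_⟩
    rw [h1, map_sub, map_add, (psp Y e he).ev_int, add_zero,
      (psp Y e he).ev_of _ (rl_free ok₂ y_x l).2, sub_add_cancel]
  have h_U : ∀ l : List M, Wd ν.L l → IsUnit ((psp Y e he).ev (ν₂.rl l xb)) := by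
    intro l hl
    obtain ⟨hn, hne, hev, hlL⟩ := hl
    obtain ⟨a, r, hr, ha, -, hs, h1⟩ := h_ev l hn hlL
    refine (Pi.isUnit_iff (M := fun z => PowerSeries (Y z).A)).2 fun z => ?_
    have h2 : ((psp Y e he).ev (ν₂.rl l xb)) z =
        (C ((f z).f (coeff 0 (a z : PowerSeries (X z.1).A)) - (Y z).pdl l (y₀ z)) :
          PowerSeries (Y z).A) := by
      have h3 := congrFun (eq_sub_of_add_eq h1) z
      rw [h3, hy, s02_pdl_C, map_sub]
      have h4 : ((psp Y e he).ev ((pspm f e he).f a)) z =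
          (C ((f z).f (coeff 0 (a z : PowerSeries (X z.1).A))) : PowerSeries (Y z).A) := by
        show psev (Y z).A ((psm (f z) e he).f (a z)) = _
        rw [psev_apply, psm_coeff]
      rw [← h4]
      rfl
    rw [h2]
    refine IsUnit.map (C (R := (Y z).A)) (y_u z l hn hne hev hlL ?_ _ ?_ ?_)
    · have h3 := hgx' z
      have h4 : (l.map xd).sum ≤ ∑ j : M, |xd j| := by
        have h5 : (l.map xd).sum = ∑ j ∈ l.toFinset, xd j :=
          (List.sum_toFinset xd hn).symm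
        rw [h5]
        refine (Finset.sum_le_sum fun j _ => le_abs_self (xd j)).trans ?_
        exact Finset.sum_le_sum_of_subset_of_nonneg (Finset.subset_univ _)
          fun j _ _ => abs_nonneg (xd j)
      have h5 : (m z : ℤ) * ν₁.q z + e + 1 - 1 = (m z : ℤ) * ν₁.q z + e := by ring
      rw [h5]
      linarith
    · exact (X z.1).I_le _ (ha z 0)
    · have h3 : psH (X z.1).s (a z) = a z := congrFun (hs hev) z
      rw [← coeff_psH, h3]
  refine ⟨hY, ?_, y_I', ?_, y_x, ?_, ?_, ?_, ?_, ?_, ?_, ?_, ?_⟩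
  · rw [hy]
    funext z
    refine (s02_psH_C _ _).trans ?_
    have h1 := y_d z
    rw [add_sub_cancel_right] at h1
    rw [Hm_s_even (Y z) (hgx z) h1]
  · rw [hy]
    intro z n
    rw [coeff_C]
    split_ifs with h
    · have h1 := y_d z
      rw [add_sub_cancel_right, hq] at h1
      show y₀ z ∈ (Y z).Hm (m z • ν.q z.1 + e - (n : ℕ) * e)
      rw [h, Nat.cast_zero, zero_mul, sub_zero, nsmul_eq_mul]
      exact h1
    · exact ((Y z).Hm _).zero_mem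
  · intro j hj
    rw [hy]
    funext z
    refine (s02_psL_C _ _).trans ?_
    rw [y_L z j hj]
    exact map_zero _
  · intro j
    rw [hbx, ← hν₂, hxb, s02_Δ_sub, Δy, hσ₂]
    funext z
    have h1 : ((pspm f e he).f σ - (psp Y e he).D y) z =
        (C ((f z).f (s₀ z) - (Y z).D (y₀ z)) : PowerSeries (Y z).A) := by
      have h2 : ((pspm f e he).f σ) z = (C ((f z).f (s₀ z)) : PowerSeries (Y z).A) := by
        show psF (f z).f (σ z) = _
        rw [σC]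
        exact s02_psF_C _ _
      have h3 : ((psp Y e he).D y) z = (C ((Y z).D (y₀ z)) : PowerSeries (Y z).A) := by
        rw [hy]
        exact s02_psL_C _ _
      rw [map_sub, ← h2, ← h3]
      rfl
    show psL ((Y z).pd j) (((pspm f e he).f σ - (psp Y e he).D y) z) = 0
    rw [h1]
    refine (s02_psL_C _ _).trans ?_
    rw [y_p z j (Finset.notMem_empty j)]
    exact map_zero _
  · rw [← hν₂, ← hG₂, hσ₂]
    refine (pspm f e he).I _ ?_
    intro z n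
    have h1 : coeff n (σ z : PowerSeries (X z.1).A) ∈ (X z.1).I := by
      rw [σC, coeff_C]
      split_ifs
      · exact s_I z
      · exact (X z.1).I.zero_mem
    exact h1
  · rw [← hν₂, ← hG₂]
    obtain ⟨r, hr, h1⟩ := hdiv 0 (by omega) _ hPB.hφ
    rw [pow_zero, one_mul] at h1
    have h2 : ((((ν₂.φ⁻¹ : (psp Y e he).Aˣ)) : (psp Y e he).A)) * G₂ =
        (pspm f e he).f r := by
      have h3 : (((ν₂.φ⁻¹ : (psp Y e he).Aˣ)) : (psp Y e he).A) =
          (pspm f e he).f ((ν₁.φ⁻¹ : (psp (fun z : ι × ℕ => X z.1) e he).Aˣ) :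
            (psp (fun z : ι × ℕ => X z.1) e he).A) := by
        rw [hν₂']
        exact Units.coe_map_inv ((pspm f e he).f :
          (psp (fun z : ι × ℕ => X z.1) e he).A →* (psp Y e he).A) ν₁.φ
      rw [h3, hG₂', ← map_mul, ← (psp (fun z : ι × ℕ => X z.1) e he).even_comm G _ B.G_s, h1]
    rw [h2]
    exact (pspm f e he).R _ hr
  · intro l hn hl
    rw [hbx, ← hν₂]
    exact h_R l hn hl
  · intro l hl
    rw [hbx, ← hν₂]
    exact h_U l hl
  · intro l hl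
    rw [hbx, ← hν₂]
    obtain ⟨a, r, hr, -, har, -, h1⟩ := h_ev l hl.1 hl.2.2.2
    refine ⟨(psp Y e he).ev ((pspm f e he).f r), (psp Y e he).ev_R _ ((pspm f e he).R _ hr), ?_⟩
    rw [h1, har, map_mul, map_mul, hν₂']
    rfl
  · intro z t ht
    rcases y_t z t ht with h1 | h1
    · exact Or.inl h1
    · refine Or.inr fun H hH ψ hψ => h1 H hH ψ fun l hn hne hev hl => ?_
      have h2 := hψ l ⟨hn, hne, hev, hl⟩
      have h3 : coeff 0 (y z : PowerSeries (Y z).A) = y₀ z := by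
        rw [hy, coeff_C, if_pos rfl]
      rwa [h3] at h2

end AnOC
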