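import Pool.Agent.Helper23.OC.D06
import Pool.Agent.Helper23.OC.F03
import Pool.Agent.Helper23.OC.B01
import Pool.Agent.Helper48.WL.W08

/-!
# Project OC, S04: the words (steps (3)): all the words become exact with poles in `Q V`

`word_step`: the node `ν' = nd ν p f` over `Y`, filtration from `map_Fil`, `S.Bt`, `exists_fil` for the word `y :: l` (`hR` from `S.hR` and `I_le`, `V` = the unit `S.unit`;
`hdone` from `Dn_exact`), `exists_child` with `u = rl l x_b` (`us`, `uΔ`: `Bt_s`, `Bt_Δ` (`l` is nonempty because `y :: l` has even length); `uf`: `S.hR`);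
`Nst` at `ℓ` for the child (`card (erase) = ℓ`), back: `η` for `ν̂` (poles `Q V`).
`words_all`: all nodup lists in order of decreasing length: induction on `n`: after finitely many tame extensions all words with `n ≤ length` are `Dn`
(`map_Dn` for the next extensions; inner induction over the finitely many lists of length `n`; `Dn_mono` for the maximum of the exponents). `Stg.push` after each step.
Composition of tame morphisms: `Tame_comp`.
-/

set_option autoImplicit false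

namespace AnOC
open AnWL PowerSeries

variable {M : Type} {xd : M → ℤ} {N : ℕ} {e : ℤ} {he : Even e} {ι ι' : Type}
  {X : ι → GA M xd N} {ν : ND (psp X e he)} {K : Set (GA M xd N)} {p : ι' → ι} {m : ι' → ℕ}
  {Y : ι' → GA M xd N} {f : ∀ z, Mor (X (p z)) (Y z)} {y : (psp Y e he).A}

theorem word_step [Fintype M] [DecidableEq M] {ℓ : ℕ} (hN : Nst K e he ℓ) (ok : ν.Ok)
    {F : ℕ → (ι → ℤ) → Submodule ℚ (psp X e he).A} (hF : ν.Fil F) (hcard : ν.L.card = ℓ + 1)
    (S : Stg K ν p m Y f y) {l : List M} (hl : Wd ν.L l)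
    (hdone : ∀ l' : List M, Wd ν.L l' → l.length < l'.length →
      ∃ c, (nd ν p f).Dn ((nd ν p f).rl l' (bx ν p m f y)) c) :
    ∃ (Y' : ι' → GA M xd N) (g : ∀ z, Mor (Y z) (Y' z)), (∀ z, Y' z ∈ K) ∧ (∀ z, (g z).Tame) ∧
      ∃ c, ((nd ν p f).map (pspm g e he)).Dn
        ((pspm g e he).f ((nd ν p f).rl l (bx ν p m f y))) c := by
  have ok₁ : (nd ν p f).Ok := nd_Ok ok p f
  obtain ⟨F₁, hF₁, -⟩ := map_Fil ((psq X p e he).comp (pspm f e he)) ok hF
  have hF₁' : (nd ν p f).Fil F₁ := hF₁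
  have B := S.Bt ok
  have hLL : (nd ν p f).L = ν.L := rfl
  have hRl : ∀ l' : List M, l'.Nodup → (∀ j ∈ l', j ∈ ν.L) →
      (nd ν p f).rl l' (bx ν p m f y) ∈ (psp Y e he).R := fun l' h1 h2 =>
    (psp Y e he).I_le _ (S.hR l' h1 h2)
  have xfn : (nd ν p f).Fn (bx ν p m f y) :=
    Fn_of_R B.x_l (hRl [] List.nodup_nil (fun j hj => absurd hj List.not_mem_nil))
  have hlv : ∀ l' : List M, (∀ j ∈ l', j ∈ ν.L) →
      (psp Y e he).Lv ν.L ((nd ν p f).rl l' (bx ν p m f y)) := fun l' h =>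
    (Fn_rl ok₁ xfn h).1
  obtain ⟨hl1, hl2, hl3, hl4⟩ := hl
  cases l with
  | nil => exact absurd rfl hl2
  | cons t l₀ =>
    have hl0 : ∀ j ∈ l₀, j ∈ ν.L := fun j hj => hl4 j (List.mem_cons_of_mem _ hj)
    have ht : t ∈ ν.L := hl4 t List.mem_cons_self
    have hodd : Odd l₀.length := by
      rw [List.length_cons] at hl3
      exact Nat.not_even_iff_odd.1 fun h => (Nat.not_even_iff_odd.2 h.add_one) hl3
    have hne : l₀ ≠ [] := by
      rintro rfl
      exact (Nat.not_odd_iff_even.2 ⟨0, rfl⟩) hodd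
    obtain ⟨V, hV⟩ := S.unit (l := t :: l₀) ⟨hl1, hl2, hl3, hl4⟩
    have hd' : ∀ l' : List M, l'.Nodup → (∀ j ∈ l', j ∈ (nd ν p f).L) → Even l'.length →
        (t :: l₀).length < l'.length →
        ∃ (c : ℕ) (z : (psp Y e he).A), (nd ν p f).Fn z ∧
          z ∈ (psp Y e he).Hd (c • ((fun z => m z • ν.q (p z) + e) -
            (l'.map (fun j (_ : ι') => xd j)).sum) - (fun _ => 1)) ∧
          (nd ν p f).Δ z = (nd ν p f).rl l' (bx ν p m f y) ^ c := by
      intro l' h1 h2 h3 h4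
      have hl'ne : l' ≠ [] := by
        rintro rfl
        exact absurd h4 (Nat.not_lt_zero _)
      obtain ⟨c, hc⟩ := hdone l' ⟨h1, hl'ne, h3, h2⟩ h4
      have hs : (psp Y e he).s ((nd ν p f).rl l' (bx ν p m f y)) =
          (nd ν p f).rl l' (bx ν p m f y) := by
        have h5 := Bt_s ok₁ B (l := l') h2
        rw [h3.neg_one_pow, one_smul] at h5
        exact h5
      obtain ⟨z, z1, z2, z3⟩ := Dn_exact ok₁ (Hd_rl ok₁ h2 B.x_d) hs (hlv l' h2)
        (Bt_Δ ok₁ B h2 hl'ne) hc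
      exact ⟨c, z, z1, z2, z3⟩
    obtain ⟨okh, F', hF', V0, V1, hr, hE⟩ := exists_fil ok₁ hF₁' B
      (fun l' h1 _ h3 => hRl l' h1 h3) hl1 hl4 hl3 hd' hV
    have us : (psp Y e he).s ((nd ν p f).rl l₀ (bx ν p m f y)) =
        -(nd ν p f).rl l₀ (bx ν p m f y) := by
      have h5 := Bt_s ok₁ B (l := l₀) hl0
      rw [hodd.neg_one_pow, neg_smul, one_smul] at h5
      exact h5
    have hsum : ((t :: l₀).map (fun j (_ : ι') => xd j)).sum =
        (fun _ => xd t) + (l₀.map (fun j (_ : ι') => xd j)).sum := by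
      rw [List.map_cons, List.sum_cons]
    rw [hsum] at V0 V1
    have eg : (fun z => m z • ν.q (p z) + e) - ((fun _ => xd t) +
        (l₀.map (fun j (_ : ι') => xd j)).sum) =
        (fun z => m z • ν.q (p z) + e) - (l₀.map (fun j (_ : ι') => xd j)).sum -
          (fun _ => xd t) := by abel
    rw [eg] at V0 V1
    obtain ⟨ν', F'', ok', hFil', hL', back⟩ := exists_child okh hF' (y := t) ht us
      (Hd_rl ok₁ hl0 B.x_d)
      (Fn_of_R (hlv l₀ hl0) (hRl l₀ (List.nodup_cons.1 hl1).2 hl0))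
      (Bt_Δ ok₁ B hl0 hne) hV V0 V1 hr hE
    have hc' : ν'.L.card = ℓ := by
      rw [hL']
      have h6 : (ν.L.erase t).card = ν.L.card - 1 := Finset.card_erase_of_mem ht
      change (ν.L.erase t).card = ℓ
      rw [h6, hcard, Nat.add_sub_cancel]
    obtain ⟨Y', g, hY', hg, η', e1, e2, e3⟩ := hN ι' Y S.hY ν' F'' ok' hFil' hc'
    obtain ⟨η, k1, k2, k3, k4⟩ := back _ _ _ _ (psp Y' e he) (pspm g e he) η' e1 e2 e3
    obtain ⟨k5, c, k6⟩ := k1
    refine ⟨Y', g, hY', hg, c, η, k5, k2, k3, ?_, k4⟩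
    have h7 : ((((nd ν p f).map (pspm g e he)).Q : (psp Y' e he).A) *
        (pspm g e he).f ((nd ν p f).rl (t :: l₀) (bx ν p m f y))) =
        (pspm g e he).f (((nd ν p f).Q * V : (psp Y e he).Aˣ) : (psp Y e he).A) := by
      rw [Units.val_mul, map_mul, hV]
      rfl
    rw [h7]
    exact k6

private theorem s04_comp {Y' Y'' : ι' → GA M xd N} (g : ∀ z, Mor (Y z) (Y' z))
    (g₂ : ∀ z, Mor (Y' z) (Y'' z)) (a : (psp Y e he).A) :
    (pspm (fun z => (g z).comp (g₂ z)) e he).f a = (pspm g₂ e he).f ((pspm g e he).f a) := by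
  funext z
  refine PowerSeries.ext fun n => ?_
  have h1 : coeff n ((psm ((g z).comp (g₂ z)) e he).f (a z) : PowerSeries (Y'' z).A) =
      ((g z).comp (g₂ z)).f (coeff n (a z : PowerSeries (Y z).A)) := psm_coeff _ e he n _
  have h2 : coeff n ((psm (g₂ z) e he).f ((psm (g z) e he).f (a z)) : PowerSeries (Y'' z).A) =
      (g₂ z).f (coeff n ((psm (g z) e he).f (a z) : PowerSeries (Y' z).A)) := psm_coeff _ e he n _
  have h3 : coeff n ((psm (g z) e he).f (a z) : PowerSeries (Y' z).A) =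
      (g z).f (coeff n (a z : PowerSeries (Y z).A)) := psm_coeff _ e he n _
  have h4 := congrArg (g₂ z).f h3
  exact h1.trans (h4.symm.trans h2.symm)

theorem words_all [Fintype M] [DecidableEq M] {ℓ : ℕ} (hN : Nst K e he ℓ) (ok : ν.Ok)
    {F : ℕ → (ι → ℤ) → Submodule ℚ (psp X e he).A} (hF : ν.Fil F) (hcard : ν.L.card = ℓ + 1)
    (S : Stg K ν p m Y f y) :
    ∃ (Y' : ι' → GA M xd N) (g : ∀ z, Mor (Y z) (Y' z)), (∀ z, Y' z ∈ K) ∧ (∀ z, (g z).Tame) ∧
      ∃ c, ∀ l : List M, Wd ν.L l → ((nd ν p f).map (pspm g e he)).Dn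
        ((pspm g e he).f ((nd ν p f).rl l (bx ν p m f y))) c := by
  classical
  have key : ∀ (n : ℕ) (T : Finset (List M)), T.card = n →
      (∀ l ∈ T, ∀ l', Wd ν.L l' → l.length < l'.length → l' ∈ T) →
      ∃ (Y' : ι' → GA M xd N) (g : ∀ z, Mor (Y z) (Y' z)), (∀ z, Y' z ∈ K) ∧ (∀ z, (g z).Tame) ∧
        ∀ l ∈ T, Wd ν.L l → ∃ c, ((nd ν p f).map (pspm g e he)).Dn
          ((pspm g e he).f ((nd ν p f).rl l (bx ν p m f y))) c := by
    intro n
    induction n with
    | zero =>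
      intro T hT _
      rw [Finset.card_eq_zero] at hT
      refine ⟨Y, fun z => Mor.id (Y z), S.hY, fun z => Tame_id (Y z), fun l hl => ?_⟩
      rw [hT] at hl
      exact absurd hl (Finset.notMem_empty l)
    | succ n ih =>
      intro T hT hup
      have hne : T.Nonempty := by
        rw [← Finset.card_pos, hT]
        exact Nat.succ_pos n
      obtain ⟨l, hl, hmin⟩ := Finset.exists_min_image T List.length hne
      obtain ⟨Y₁, g, hY₁, hg, hd⟩ := ih (T.erase l)
        (by rw [Finset.card_erase_of_mem hl, hT, Nat.add_sub_cancel])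
        (by
          intro l₁ hl₁ l₂ hW hlt
          have h1 := Finset.mem_of_mem_erase hl₁
          refine Finset.mem_erase.2 ⟨?_, hup l₁ h1 l₂ hW hlt⟩
          rintro rfl
          exact absurd hlt (not_lt.2 (hmin l₁ h1)))
      by_cases hWl : Wd ν.L l
      · have S₁ := S.push ok g hY₁ hg
        have e1 := nd_push (ν := ν) p f g
        have e2 := bx_push (ν := ν) p m f g y
        obtain ⟨Y₂, g₂, hY₂, hg₂, c, hc⟩ := word_step hN ok hF hcard S₁ hWl (by
          intro l' hW' hlt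
          obtain ⟨c, hc⟩ := hd l' (Finset.mem_erase.2 ⟨by
            rintro rfl
            exact lt_irrefl _ hlt, hup l hl l' hW' hlt⟩) hW'
          refine ⟨c, ?_⟩
          rw [e2, e1, map_rl]
          exact hc)
        rw [e2, e1, map_rl] at hc
        have hm : (nd ν p f).map (pspm (fun z => (g z).comp (g₂ z)) e he) =
            ((nd ν p f).map (pspm g e he)).map (pspm g₂ e he) :=
          map_map (pspm g e he) (pspm g₂ e he) (pspm (fun z => (g z).comp (g₂ z)) e he)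
            (s04_comp g g₂) (fun _ => rfl)
        refine ⟨Y₂, fun z => (g z).comp (g₂ z), hY₂, fun z => Tame_comp (hg z) (hg₂ z), ?_⟩
        intro l' hl' hW'
        rw [hm, s04_comp]
        by_cases hll : l' = l
        · subst hll
          exact ⟨c, hc⟩
        · obtain ⟨c', hc'⟩ := hd l' (Finset.mem_erase.2 ⟨hll, hl'⟩) hW'
          exact ⟨c', map_Dn (pspm g₂ e he) hc'⟩
      · refine ⟨Y₁, g, hY₁, hg, ?_⟩
        intro l' hl' hW'
        refine hd l' (Finset.mem_erase.2 ⟨?_, hl'⟩) hW'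
        rintro rfl
        exact hWl hW'
  obtain ⟨Y', g, hY', hg, hd⟩ := key _ (Finset.univ.image (Subtype.val : {l : List M // l.Nodup} → List M))
    rfl (fun _ _ l' hW _ => Finset.mem_image.2 ⟨⟨l', hW.1⟩, Finset.mem_univ _, rfl⟩)
  refine ⟨Y', g, hY', hg, ?_⟩
  have hd' : ∀ l : {l : List M // l.Nodup}, ∃ c, Wd ν.L l.1 →
      ((nd ν p f).map (pspm g e he)).Dn
        ((pspm g e he).f ((nd ν p f).rl l.1 (bx ν p m f y))) c := by
    intro l
    by_cases hW : Wd ν.L l.1
    · obtain ⟨c, hc⟩ := hd l.1 (Finset.mem_image.2 ⟨l, Finset.mem_univ _, rfl⟩) hW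
      exact ⟨c, fun _ => hc⟩
    · exact ⟨0, fun h => absurd h hW⟩
  choose c hc using hd'
  refine ⟨Finset.univ.sup c, fun l hW => ?_⟩
  have S₁ := S.push ok g hY' hg
  have e1 := nd_push (ν := ν) p f g
  have e2 := bx_push (ν := ν) p m f g y
  have h1 := S₁.hR l hW.1 hW.2.2.2
  have h2 := Bt_s (nd_Ok ok p _) (S₁.Bt ok) (l := l) hW.2.2.2
  rw [e2, e1, map_rl] at h1 h2
  rw [hW.2.2.1.neg_one_pow, one_smul] at h2
  have ok₂ : ((nd ν p f).map (pspm g e he)).Ok := map_Ok _ (nd_Ok ok p f)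
  exact Dn_mono ok₂ ((psp Y' e he).I_le _ h1) h2
    (Finset.le_sup (f := c) (Finset.mem_univ ⟨l, hW.1⟩)) (hc ⟨l, hW.1⟩ hW)

end AnOC
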