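import Pool.Agent.Helper23.OC.D06
import Pool.Agent.Helper23.OC.K01
import Pool.Agent.Helper48.WL.W15

/-!
# Project OC, S07: killing the bodies of the words (step (4)), constant exponent `m`

For each word `l` (`Wd`; finitely many): `V = rl l x_b`: even, in `I` (`S.hR`), closed (`Bt_Δ`), `ev V` a unit (`S.hU`); `exists_omega` (`b` from `hb`, `punit_const`) gives `Ω_l`, closed,
`x`-free, in `I`, even, `Ω_l z = C (ω_l z)` with `ω_l z = coeff 0 (Ω_l z)` closed, even, in `(Y z).I`, homogeneous. `kill_closed` (`W15`) for each `z` and the finite set of words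
(`Finset.univ.filter` on `{l : List M // l.Nodup}`, as in `W14`) gives `Y' z`, tame `g z`, `g (ω_l z) ∈ Nl` for all `l`. `Even (f a)`: the degree `B • gV` at `z`; if `ω = 0` it is in `Nl`; otherwise the parity
`s ω = ω = (-1)^degree ω` (a degree `g` with `ω ∈ Hm g`, `s ω = ω`, `ω ≠ 0` is even). Then in `psp Y'`: `ev V ^ B = (ev V ^ B - Ω) + Ω ∈ Nl`, `pow_Nl` (`x`-free, regular).
-/

set_option autoImplicit false

namespace AnOC
open AnWL PowerSeries

variable {M : Type} {xd : M → ℤ} {N : ℕ} {e : ℤ} {he : Even e} {ι ι' : Type}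
  {X : ι → GA M xd N} {ν : ND (psp X e he)} {K : Set (GA M xd N)} {p : ι' → ι} {m : ℕ}
  {Y : ι' → GA M xd N} {f : ∀ z, Mor (X (p z)) (Y z)} {y : (psp Y e he).A}

private theorem s07_omega (ok : ν.Ok)
    (S : Stg K ν p (fun _ => m) Y f y) {c cP c₁ : ℕ} {l : List M} (hl : Wd ν.L l)
    (hD : (nd ν p f).Dn ((nd ν p f).rl l (bx ν p (fun _ => m) f y)) c)
    (hP : ((nd ν p f).Q : (psp Y e he).A) ^ cP * (nd ν p f).P ∈ (psp Y e he).R)
    (hb : ∃ b, ((nd ν p f).Q : (psp Y e he).A) ^ c₁ * b ∈ (psp Y e he).R ∧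
      (nd ν p f).P * (psp Y e he).dx ((nd ν p f).rl l (bx ν p (fun _ => m) f y)) =
        ((punit (nd ν p f).Q (fun _ => m) : (psp Y e he).Aˣ) : (psp Y e he).A) * b)
    (hm : c₁ + (2 * c + cP + 1) ≤ m) :
    ∃ (B : ℕ) (Ω : (psp Y e he).A) (gV : ι' → ℤ), Ω ∈ (psp Y e he).I ∧
      Ω ∈ (psp Y e he).Hd gV ∧ (psp Y e he).s Ω = Ω ∧ (psp Y e he).D Ω = 0 ∧
      (psp Y e he).dx Ω = 0 ∧
      (psp Y e he).ev ((nd ν p f).rl l (bx ν p (fun _ => m) f y)) ^ B - Ω ∈ (psp Y e he).Nl := by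
  have ok₁ : (nd ν p f).Ok := nd_Ok ok p f
  have B := S.Bt ok
  have hRl : (nd ν p f).rl [] (bx ν p (fun _ => m) f y) ∈ (psp Y e he).R :=
    (psp Y e he).I_le _ (S.hR [] List.nodup_nil (fun j hj => absurd hj List.not_mem_nil))
  have xfn : (nd ν p f).Fn (bx ν p (fun _ => m) f y) := Fn_of_R B.x_l hRl
  have hlv : (psp Y e he).Lv ν.L ((nd ν p f).rl l (bx ν p (fun _ => m) f y)) :=
    (Fn_rl ok₁ xfn hl.2.2.2).1
  have hs : (psp Y e he).s ((nd ν p f).rl l (bx ν p (fun _ => m) f y)) =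
      (nd ν p f).rl l (bx ν p (fun _ => m) f y) := by
    have h5 := Bt_s ok₁ B (l := l) hl.2.2.2
    rw [hl.2.2.1.neg_one_pow, one_smul] at h5
    exact h5
  obtain ⟨η, η1, η2, η3, η4, η5⟩ := hD
  obtain ⟨b, hb1, hb2⟩ := hb
  rw [punit_const, Units.val_pow_eq_pow_val] at hb2
  obtain ⟨Bk, Ω, -, k1, k2, k3, k4, k5, -, -, k6⟩ := exists_omega ok₁ hs
    (S.hR l hl.1 hl.2.2.2) (Hd_rl ok₁ hl.2.2.2 B.x_d) hlv (Bt_Δ ok₁ B hl.2.2.2 hl.2.1)
    (S.hU l hl) η3 η2 η1 η5 η4 hP hb1 hb2 hm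
  exact ⟨Bk, Ω, _, k1, k2, k3, k4, k5, k6⟩

theorem kill_words [Fintype M] [DecidableEq M] {κ : ℕ} (hκ : 1 ≤ κ) (hK : EXT K κ) (ok : ν.Ok)
    (S : Stg K ν p (fun _ => m) Y f y) {c cP c₁ : ℕ}
    (hD : ∀ l : List M, Wd ν.L l → (nd ν p f).Dn ((nd ν p f).rl l (bx ν p (fun _ => m) f y)) c)
    (hP : ((nd ν p f).Q : (psp Y e he).A) ^ cP * (nd ν p f).P ∈ (psp Y e he).R)
    (hb : ∀ l : List M, Wd ν.L l → ∃ b, ((nd ν p f).Q : (psp Y e he).A) ^ c₁ * b ∈ (psp Y e he).R ∧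
      (nd ν p f).P * (psp Y e he).dx ((nd ν p f).rl l (bx ν p (fun _ => m) f y)) =
        ((punit (nd ν p f).Q (fun _ => m) : (psp Y e he).Aˣ) : (psp Y e he).A) * b)
    (hm : c₁ + (2 * c + cP + 1) ≤ m) :
    ∃ (Y' : ι' → GA M xd N) (g : ∀ z, Mor (Y z) (Y' z)), (∀ z, Y' z ∈ K) ∧ (∀ z, (g z).Tame) ∧
      ∀ l : List M, Wd ν.L l →
        (pspm g e he).f ((psp Y e he).ev ((nd ν p f).rl l (bx ν p (fun _ => m) f y))) ∈
          (psp Y' e he).Nl := by
  classical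
  have key : ∀ l : List M, Wd ν.L l → ∃ (B : ℕ) (Ω : (psp Y e he).A) (gV : ι' → ℤ),
      Ω ∈ (psp Y e he).I ∧
      Ω ∈ (psp Y e he).Hd gV ∧ (psp Y e he).s Ω = Ω ∧ (psp Y e he).D Ω = 0 ∧
      (psp Y e he).dx Ω = 0 ∧
      (psp Y e he).ev ((nd ν p f).rl l (bx ν p (fun _ => m) f y)) ^ B - Ω ∈ (psp Y e he).Nl :=
    fun l hl => s07_omega ok S hl (hD l hl) hP (hb l hl) hm
  choose! B Ω gV h1 h2 h3 h4 h5 h6 using key
  have hz : ∀ z : ι', ∃ (H : GA M xd N) (φ : Mor (Y z) H), H ∈ K ∧ φ.Tame ∧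
      ∀ l : List M, Wd ν.L l → φ.f (coeff 0 (Ω l z : PowerSeries (Y z).A)) ∈ H.Nl := by
    intro z
    have hsΩ : ∀ l : List M, Wd ν.L l →
        (Y z).s (coeff 0 (Ω l z : PowerSeries (Y z).A)) = coeff 0 (Ω l z : PowerSeries (Y z).A) := by
      intro l hl
      have k1 : (psn (Y z) e he).s (Ω l z) = Ω l z := congrFun (h3 l hl) z
      have k2 : coeff 0 ((psH (Y z).s) (Ω l z : PowerSeries (Y z).A)) =
          coeff 0 (Ω l z : PowerSeries (Y z).A) := congrArg (fun a : PowerSeries (Y z).A => coeff 0 a) k1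
      exact (coeff_psH (Y z).s 0 (Ω l z : PowerSeries (Y z).A)).symm.trans k2
    have hDΩ : ∀ l : List M, Wd ν.L l →
        (Y z).D (coeff 0 (Ω l z : PowerSeries (Y z).A)) = 0 := by
      intro l hl
      have k1 : (psn (Y z) e he).D (Ω l z) = 0 := congrFun (h4 l hl) z
      have k2 : coeff 0 ((psL (Y z).D) (Ω l z : PowerSeries (Y z).A)) =
          coeff 0 (0 : PowerSeries (Y z).A) := congrArg (fun a : PowerSeries (Y z).A => coeff 0 a) k1
      exact ((coeff_psL (Y z).D 0 (Ω l z : PowerSeries (Y z).A)).symm.trans k2).trans (map_zero _)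
    have hhΩ : ∀ l : List M, Wd ν.L l →
        coeff 0 (Ω l z : PowerSeries (Y z).A) ∈ (Y z).Hm (gV l z) := by
      intro l hl
      have k1 : coeff 0 (Ω l z : PowerSeries (Y z).A) ∈ (Y z).Hm (gV l z - ((0 : ℕ) : ℤ) * e) :=
        h2 l hl z 0
      rwa [Nat.cast_zero, zero_mul, sub_zero] at k1
    obtain ⟨H, hH, φ, hφ, hk⟩ := kill_closed K hκ hK (S.hY z)
      (Finset.univ.filter (fun l : {l : List M // l.Nodup} => Wd ν.L l.1))
      (fun l => coeff 0 (Ω l.1 z : PowerSeries (Y z).A))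
      (fun l => if Even (gV l.1 z) then gV l.1 z else 0)
      (by
        intro a _
        show Even (if Even (gV a.1 z) then gV a.1 z else 0)
        split_ifs with h
        · exact h
        · exact ⟨0, rfl⟩)
      (by
        intro a ha
        exact h1 a.1 (Finset.mem_filter.1 ha).2 z 0)
      (by
        intro a ha
        have hw := (Finset.mem_filter.1 ha).2
        show coeff 0 (Ω a.1 z : PowerSeries (Y z).A) ∈
          (Y z).Hm (if Even (gV a.1 z) then gV a.1 z else 0)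
        split_ifs with h
        · exact hhΩ a.1 hw
        · have k1 := (hhΩ a.1 hw).2
          rw [(Int.not_even_iff_odd.1 h).neg_one_zpow, hsΩ a.1 hw, neg_smul, one_smul] at k1
          have k2 : (2 : ℚ) • coeff 0 (Ω a.1 z : PowerSeries (Y z).A) = 0 := by
            rw [two_smul]
            nth_rewrite 2 [k1]
            exact add_neg_cancel _
          rw [(smul_eq_zero.1 k2).resolve_left (by norm_num)]
          exact ((Y z).Hm 0).zero_mem)
      (by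
        intro a ha
        exact hDΩ a.1 (Finset.mem_filter.1 ha).2)
    refine ⟨H, φ, hH, hφ, fun l hl => ?_⟩
    exact hk ⟨l, hl.1⟩ (Finset.mem_filter.2 ⟨Finset.mem_univ _, hl⟩)
  choose Y' g hY' hg hk using hz
  refine ⟨Y', g, hY', hg, fun l hl => ?_⟩
  have hV : (psp Y e he).ev ((nd ν p f).rl l (bx ν p (fun _ => m) f y)) ∈ (psp Y e he).R :=
    (psp Y e he).ev_R _ ((psp Y e he).I_le _ (S.hR l hl.1 hl.2.2.2))
  have hΩ : (pspm g e he).f (Ω l) ∈ (psp Y' e he).Nl := by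
    intro z
    show ((psm (g z) e he).f (Ω l z) : PowerSeries (Y' z).A) ∈ psI (Y' z).Nl
    intro n
    have k0 : psdx (Y z).A (Ω l z : PowerSeries (Y z).A) = 0 := congrFun (h5 l hl) z
    have k1 : coeff n ((psm (g z) e he).f (Ω l z) : PowerSeries (Y' z).A) =
        (g z).f (coeff n (Ω l z : PowerSeries (Y z).A)) := psm_coeff _ e he n _
    have k2 := ps_coeff_eq_of_psdx k0 n
    rw [k1, k2]
    split_ifs
    · exact hk z l hl
    · rw [map_zero]
      exact (Y' z).Nl.zero_mem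
  refine (psp Y' e he).pow_Nl _ ((pspm g e he).R _ hV) ?_ (B l) ?_
  · rw [(pspm g e he).dx, (psp Y e he).dx_ev, map_zero]
  · have k1 : (pspm g e he).f ((psp Y e he).ev ((nd ν p f).rl l (bx ν p (fun _ => m) f y))) ^ B l =
        (pspm g e he).f ((psp Y e he).ev ((nd ν p f).rl l (bx ν p (fun _ => m) f y)) ^ B l - Ω l) +
          (pspm g e he).f (Ω l) := by
      rw [← map_add, sub_add_cancel, map_pow]
    rw [k1]
    exact (psp Y' e he).Nl.add_mem ((pspm g e he).Nl _ (h6 l hl)) hΩ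

end AnOC
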