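import Pool.Agent.Helper23.OC.D06
import Pool.Agent.Helper48.WL.W08

/-!
# Project OC, S09: tameness of a finished stage

From `η`: `ζ = Q ^ c η ∈ R`, `Q ^ c = Δ ζ = D ζ + P dx ζ`; multiply by `Q ^ cP` (`Q ^ cP P ∈ R`) and apply `ev`: `ev Q ^ (c + cP) = ev (Q ^ cP) D (ev ζ) + ev (Q ^ cP P) ev (dx ζ) ∈ Nl`
(`D_Nl`; `Q ^ cP P` is odd and regular: `odd_Nl`, `ev_Nl`). So `ev Q ∈ Nl` (`pow_Nl`), `pdl l y = ev Q * r - ev (rl l x_b) ∈ Nl` (`S.hev`, `hk`), i.e. its coefficient `0` at `z`, which is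
`(Y z).pdl l (coeff 0 (y z))`, is in `(Y z).Nl`. `S.tm` with `ψ = Mor.id`.
-/

set_option autoImplicit false

namespace AnOC
open AnWL PowerSeries

variable {M : Type} {xd : M → ℤ} {N : ℕ} {e : ℤ} {he : Even e} {ι ι' : Type}
  {X : ι → GA M xd N} {ν : ND (psp X e he)} {K : Set (GA M xd N)} {p : ι' → ι} {m : ι' → ℕ}
  {Y : ι' → GA M xd N} {f : ∀ z, Mor (X (p z)) (Y z)} {y : (psp Y e he).A}

private theorem ev_Q_Nl {Γ : Type} [AddCommGroup Γ] {xg : M → Γ} {eg dg : Γ}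
    {G : NR M Γ xg eg dg} {μ : ND G} (ok : μ.Ok) {η : G.A} (hη : μ.Fn η) (h1 : μ.Δ η = 1) :
    G.ev (μ.Q : G.A) ∈ G.Nl := by
  obtain ⟨_, c, hc⟩ := hη
  obtain ⟨_, b, hb⟩ := ok.P_fn
  have hQ : (μ.Q : G.A) ∈ G.R := G.I_le _ ok.Q_I
  have h2 : μ.Δ ((μ.Q : G.A) ^ c * η) = (μ.Q : G.A) ^ c := by
    have h3 := Δ_Qpow ok (c : ℤ) η
    rw [zpow_natCast, Units.val_pow_eq_pow_val, h1, mul_one] at h3
    exact h3
  have h4 : (μ.Q : G.A) ^ (b + c) =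
      (μ.Q : G.A) ^ b * G.D ((μ.Q : G.A) ^ c * η) +
        ((μ.Q : G.A) ^ b * μ.P) * G.dx ((μ.Q : G.A) ^ c * η) := by
    have h3 : (μ.Q : G.A) ^ b * μ.Δ ((μ.Q : G.A) ^ c * η) =
        (μ.Q : G.A) ^ b * G.D ((μ.Q : G.A) ^ c * η) +
          ((μ.Q : G.A) ^ b * μ.P) * G.dx ((μ.Q : G.A) ^ c * η) := by
      unfold ND.Δ
      rw [mul_add, mul_assoc]
    rw [pow_add, ← h3, h2]
  have h5 : (μ.Q : G.A) ^ b * μ.P ∈ G.Nl := by
    refine G.odd_Nl _ hb ?_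
    rw [map_mul, map_pow, ok.Q_s, ok.P_s, mul_neg]
  have h6 : (μ.Q : G.A) ^ (b + c) ∈ G.Nl := by
    rw [h4]
    exact G.Nl.add_mem (G.mul_Nl _ (G.R.pow_mem hQ b) _ (G.D_Nl _ hc))
      (G.Nl_mul _ h5 _ (G.dx_R _ hc))
  have h7 := G.ev_Nl _ h6
  rw [map_pow] at h7
  exact G.pow_Nl _ (G.ev_R _ hQ) (G.dx_ev _) _ h7

private theorem psp_pdl (l : List M) (a : (psp Y e he).A) (z : ι') :
    coeff 0 ((psp Y e he).pdl l a z : PowerSeries (Y z).A) =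
      (Y z).pdl l (coeff 0 (a z : PowerSeries (Y z).A)) := by
  induction l with
  | nil => rfl
  | cons k l ih =>
    have h2 : (Y z).pdl (k :: l) (coeff 0 (a z : PowerSeries (Y z).A)) =
        (Y z).pd k ((Y z).pdl l (coeff 0 (a z : PowerSeries (Y z).A))) := rfl
    rw [h2, ← ih]
    exact coeff_psL ((Y z).pd k) 0 ((psp Y e he).pdl l a z : PowerSeries (Y z).A)

theorem tame_stage (ok : ν.Ok) (S : Stg K ν p m Y f y)
    (hk : ∀ l : List M, Wd ν.L l → (psp Y e he).ev ((nd ν p f).rl l (bx ν p m f y)) ∈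
      (psp Y e he).Nl)
    {η : (psp Y e he).A} (hη : (nd ν p f).Fn η) (h1 : (nd ν p f).Δ η = 1) (z : ι') :
    (f z).Tame := by
  intro t ht
  rcases S.tm z t ht with h2 | h2
  · exact Or.inl h2
  · refine Or.inr (h2 (Y z) (S.hY z) (Mor.id (Y z)) fun l hl => ?_)
    have hQ := ev_Q_Nl (nd_Ok ok p f) hη h1
    obtain ⟨r, hr, h3⟩ := S.hev l hl
    have h4 : (psp Y e he).pdl l y ∈ (psp Y e he).Nl := by
      rw [eq_sub_of_add_eq' h3]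
      exact (psp Y e he).Nl.sub_mem ((psp Y e he).Nl_mul _ hQ _ hr) (hk l hl)
    have h5 : coeff 0 ((psp Y e he).pdl l y z : PowerSeries (Y z).A) ∈ (Y z).Nl := h4 z 0
    rw [psp_pdl] at h5
    exact h5

end AnOC
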