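import Pool.Agent.Helper23.OC.T01
import Pool.Agent.Helper47.OC.S5e

/-!
# Project OC, T03: a power of `Q` is a polynomial in the bent coordinate modulo exact elements

`x = X - y` with `y` `x`-free, even, regular, `Δ y = D y`; `c = Δ x`, `x`-free (and `X_j`-free). `K` from `hF.ex`, `n = K + 1`; `a_i ∈ F n ⊆ F K` from `taylor_Q`,
`a_i = Δ z_i`, `z_i ∈ Fn` of degree `-(n (gG + e)) - d`; `z = Q^J ∑ J^i z_i`; `Q^J` closed: `Δ z = ∂^n (Q^J)`.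
The exact Taylor expansion is `S5Data.taylor` (Helper47/OC/S5a), `∂^n (Q^J) = Q^J ∑ J^i a_(n,i)` is `NR.s5Eo_pow` with
`φ := φ G⁻¹`, `m := 0` (S5d), the conclusion `S5Node.main` (S5e).
-/

set_option autoImplicit false

namespace AnOC
open AnWL.Nd

variable {M Γ : Type} [AddCommGroup Γ] {xd : M → Γ} {e d : Γ} {N : NR M Γ xd e d} {ν : ND N}
  {G : N.Aˣ} {mm : N.A} {gG : Γ}

/-- The elements `β_{k j}` lie in `F k`. -/
private theorem bet_mem (ok : ν.Ok) {F : ℕ → Γ → Submodule ℚ N.A} (hF : ν.Fil F)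
    (hG : ((G⁻¹ : N.Aˣ) : N.A) ∈ F 0 (-gG)) (k : ℕ) : ∀ j,
    bet (N.s5Eo (((G⁻¹ * ν.φ : N.Aˣ) : N.A)))
      (((ν.Q⁻¹ : N.Aˣ) : N.A) * ((((G⁻¹ * ν.φ : N.Aˣ) : N.A)) * N.dx (ν.Q : N.A))) 0 k j ∈
      F k (-(k • (gG + e))) := by
  have hE : ∀ k g a, a ∈ F k g → N.s5Eo (((G⁻¹ * ν.φ : N.Aˣ) : N.A)) a ∈ F (k + 1) (g - (gG + e)) := by
    intro k g a ha
    have h1 := hF.mul _ _ _ _ _ hG _ (hF.E_mem k g a ha)
    have e1 : -gG + (g - e) = g - (gG + e) := by abel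
    rw [zero_add, e1] at h1
    have e2 : N.s5Eo (((G⁻¹ * ν.φ : N.Aˣ) : N.A)) a = ((G⁻¹ : N.Aˣ) : N.A) * ν.E a := by
      show ((G⁻¹ * ν.φ : N.Aˣ) : N.A) * N.dx a = ((G⁻¹ : N.Aˣ) : N.A) * ((ν.φ : N.A) * N.dx a)
      rw [Units.val_mul, mul_assoc]
    rw [e2]
    exact h1
  have hω : ((ν.Q⁻¹ : N.Aˣ) : N.A) * ((((G⁻¹ * ν.φ : N.Aˣ) : N.A)) * N.dx (ν.Q : N.A)) ∈
      F 1 (-(gG + e)) := by
    have h1 := hF.mul _ _ _ _ _ hF.Q_mem' _ (hE 0 _ _ hF.Q_mem)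
    have e1 : -ν.q + (ν.q - (gG + e)) = -(gG + e) := by abel
    rw [e1] at h1
    exact h1
  induction k with
  | zero =>
    intro j
    rcases j with _ | j
    · show (1 : N.A) ∈ F 0 (-(0 • (gG + e)))
      rw [zero_smul, neg_zero]
      exact hF.one
    · exact Submodule.zero_mem _
  | succ k ih =>
    have e1 : -(k • (gG + e)) - (gG + e) = -((k + 1) • (gG + e)) := by rw [succ_nsmul]; abel
    have e2 : -(gG + e) + -(k • (gG + e)) = -((k + 1) • (gG + e)) := by rw [succ_nsmul]; abel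
    have h1 : ∀ j, ((ν.Q⁻¹ : N.Aˣ) : N.A) * ((((G⁻¹ * ν.φ : N.Aˣ) : N.A)) * N.dx (ν.Q : N.A)) *
        bet (N.s5Eo (((G⁻¹ * ν.φ : N.Aˣ) : N.A)))
          (((ν.Q⁻¹ : N.Aˣ) : N.A) * ((((G⁻¹ * ν.φ : N.Aˣ) : N.A)) * N.dx (ν.Q : N.A))) 0 k j ∈
        F (k + 1) (-((k + 1) • (gG + e))) := by
      intro j
      have := hF.mul _ _ _ _ _ hω _ (ih j)
      rw [e2, add_comm 1 k] at this
      exact this
    have h2 : ∀ j, N.s5Eo (((G⁻¹ * ν.φ : N.Aˣ) : N.A)) (bet (N.s5Eo (((G⁻¹ * ν.φ : N.Aˣ) : N.A)))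
          (((ν.Q⁻¹ : N.Aˣ) : N.A) * ((((G⁻¹ * ν.φ : N.Aˣ) : N.A)) * N.dx (ν.Q : N.A))) 0 k j) ∈
        F (k + 1) (-((k + 1) • (gG + e))) := by
      intro j
      have := hE _ _ _ (ih j)
      rw [e1] at this
      exact this
    intro j
    rcases j with _ | j
    · exact Submodule.sub_mem _ (h2 0) (Submodule.smul_mem _ _ (h1 0))
    · exact Submodule.add_mem _ (h1 j) (Submodule.sub_mem _ (h2 _) (Submodule.smul_mem _ _ (h1 _)))

private theorem bet_s {A : Type} [Ring A] [Algebra ℚ A] (s : A →ₐ[ℚ] A) (E : A →ₗ[ℚ] A) (ω : A)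
    (hE : ∀ a, s (E a) = E (s a)) (hω : s ω = ω) (m k : ℕ) : ∀ j,
    s (bet E ω m k j) = bet E ω m k j := by
  induction k with
  | zero =>
    intro j
    rcases j with _ | j
    · exact map_one s
    · exact map_zero s
  | succ k ih =>
    intro j
    rcases j with _ | j
    · show s (E (bet E ω m k 0) - ((m * k : ℕ) : ℚ) • (ω * bet E ω m k 0)) =
        E (bet E ω m k 0) - ((m * k : ℕ) : ℚ) • (ω * bet E ω m k 0)
      rw [map_sub, hE, ih, map_smul, map_mul, hω, ih]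
    · show s (ω * bet E ω m k j + (E (bet E ω m k (j + 1)) -
        ((m * k : ℕ) : ℚ) • (ω * bet E ω m k (j + 1)))) = ω * bet E ω m k j +
        (E (bet E ω m k (j + 1)) - ((m * k : ℕ) : ℚ) • (ω * bet E ω m k (j + 1)))
      rw [map_add, map_sub, map_smul, map_mul, map_mul, hE, hω, ih, ih]

theorem bent_poly (ok : ν.Ok) {F : ℕ → Γ → Submodule ℚ N.A} (hF : ν.Fil F)
    (B : ν.Gp (G : N.A) mm gG) (hG : ((G⁻¹ : N.Aˣ) : N.A) ∈ F 0 (-gG))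
    (hΨ : ((ν.φ⁻¹ : N.Aˣ) : N.A) * (G : N.A) ∈ N.R)
    {y : N.A} (y_s : N.s y = y) (y_I : y ∈ N.I) (y_d : y ∈ N.Hd (gG + e)) (y_x : N.dx y = 0)
    (y_l : N.Lv ν.L y) {c : N.A} (hc : ν.Δ (ν.X (G : N.A) - y) = c) (c_l : ∀ j, N.pd j c = 0)
    (σI : ν.Δ (ν.X (G : N.A)) ∈ N.I) :
    ∃ (J n : ℕ) (u : ℕ → N.A) (w : N.A), 1 ≤ J ∧ w ∈ N.R ∧ N.Lv ν.L w ∧
      w ∈ N.Hd (J • ν.q - d) ∧ N.s w = -w ∧
      (ν.Q : N.A) ^ J = ∑ k ∈ Finset.range n, (ν.X (G : N.A) - y) ^ k * u k + ν.Δ w ∧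
      (∀ k, u k ∈ N.I ∧ u k ∈ N.Hd (J • ν.q - k • (gG + e)) ∧ N.s (u k) = u k ∧ N.dx (u k) = 0 ∧
        N.Lv ν.L (u k)) ∧
      (∀ k, n ≤ k → u k = 0) ∧
      (∀ k : ℕ, N.D (u k) + ((k + 1 : ℕ) : ℚ) • (c * u (k + 1)) = 0) ∧
      IsUnit (∑ k ∈ Finset.range n, (-y) ^ k * u k) := by
  obtain ⟨Θ, hΘ⟩ : ∃ Θ : N.Aˣ, Θ = G⁻¹ * ν.φ := ⟨_, rfl⟩
  obtain ⟨ω, hω⟩ : ∃ ω : N.A, ω = ((ν.Q⁻¹ : N.Aˣ) : N.A) * ((Θ : N.A) * N.dx (ν.Q : N.A)) :=
    ⟨_, rfl⟩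
  -- parities
  have hs_inv : ∀ {u : N.Aˣ}, N.s (u : N.A) = u → N.s ((u⁻¹ : N.Aˣ) : N.A) = ((u⁻¹ : N.Aˣ) : N.A) := by
    intro u hu
    have h1 : N.s ((u : N.A) * ((u⁻¹ : N.Aˣ) : N.A)) = 1 := by rw [Units.mul_inv, map_one]
    rw [map_mul, hu] at h1
    exact (Units.isUnit u).mul_left_cancel (h1.trans (Units.mul_inv u).symm)
  have hΔ : ∀ a, ν.Δ a = N.s5Dl ν.P a := fun _ => rfl
  have hPs := ok.P_s
  have hGs := B.G_s
  have hφi := hs_inv ok.φ_s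
  have hGi : N.s ((G⁻¹ : N.Aˣ) : N.A) = ((G⁻¹ : N.Aˣ) : N.A) := hs_inv hGs
  have hQi := hs_inv ok.Q_s
  have hΘs : N.s (Θ : N.A) = Θ := by rw [hΘ, Units.val_mul, map_mul, hGi, ok.φ_s]
  have hωs : N.s ω = ω := by
    rw [hω, map_mul, map_mul, hQi, hΘs, N.s_dx, ok.Q_s]
  have hEs : ∀ a, N.s (N.s5Eo (Θ : N.A) a) = N.s5Eo (Θ : N.A) (N.s a) := by
    intro a
    rw [N.s5Eo_apply, N.s5Eo_apply, map_mul, hΘs, N.s_dx]
  have hΨs : N.s (((ν.φ⁻¹ : N.Aˣ) : N.A) * (G : N.A)) = ((ν.φ⁻¹ : N.Aˣ) : N.A) * (G : N.A) := by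
    rw [map_mul, hφi, hGs]
  have hXs : N.s (ν.X (G : N.A)) = ν.X (G : N.A) := N.s5s_int hΨs
  -- levels
  have hLinv : ∀ {u : N.Aˣ}, N.s (u : N.A) = u → N.Lv ν.L (u : N.A) →
      N.Lv ν.L ((u⁻¹ : N.Aˣ) : N.A) := by
    intro u hs hu j hj
    have h1 : N.pd j ((u : N.A) * ((u⁻¹ : N.Aˣ) : N.A)) = 0 := by rw [Units.mul_inv, N.s5pd_one]
    rw [N.pd_mul, hu j hj, zero_mul, zero_add, hs] at h1
    exact (Units.isUnit u).mul_right_eq_zero.1 h1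
  have hΨL : N.Lv ν.L (((ν.φ⁻¹ : N.Aˣ) : N.A) * (G : N.A)) :=
    N.s5Lv_mul ok.φ_fn'.1 B.G_f.1
  -- closedness
  have hDφ : N.s5Dl ν.P ((ν.φ⁻¹ : N.Aˣ) : N.A) = -(N.dx ν.P * ((ν.φ⁻¹ : N.Aˣ) : N.A)) := by
    have h1 : N.s5Dl ν.P ((ν.φ : N.A) * ((ν.φ⁻¹ : N.Aˣ) : N.A)) = 0 := by
      rw [Units.mul_inv, N.s5Dl_apply, N.s5D_one, N.s5dx_one, mul_zero, add_zero]
    have h2 : N.s5Dl ν.P (ν.φ : N.A) = (ν.φ : N.A) * N.dx ν.P := ok.Δφ
    rw [N.s5Dl_mul hPs, h2, ok.φ_s, mul_assoc, ← mul_add] at h1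
    have h3 := (Units.isUnit ν.φ).mul_right_eq_zero.1 h1
    rw [add_comm] at h3
    exact eq_neg_of_add_eq_zero_left h3
  have hDG : N.s5Dl ν.P (G : N.A) = 0 := B.G_Δ
  have hDΨ : N.s5Dl ν.P (((ν.φ⁻¹ : N.Aˣ) : N.A) * (G : N.A)) =
      -(N.dx ν.P * (((ν.φ⁻¹ : N.Aˣ) : N.A) * (G : N.A))) := by
    rw [N.s5Dl_mul hPs, hDφ, hDG, mul_zero, add_zero, neg_mul, mul_assoc]
  have hσ : N.s5Dl ν.P (ν.X (G : N.A)) = N.D (ν.X (G : N.A)) +
      ν.P * (((ν.φ⁻¹ : N.Aˣ) : N.A) * (G : N.A)) := by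
    rw [N.s5Dl_apply]
    congr 2
    exact N.dx_int _
  have hXR : ν.X (G : N.A) ∈ N.R := N.int_R _ hΨ
  have hPΨ : ν.P * (((ν.φ⁻¹ : N.Aˣ) : N.A) * (G : N.A)) ∈ N.R := by
    have h1 : ν.P * (((ν.φ⁻¹ : N.Aˣ) : N.A) * (G : N.A)) =
        N.s5Dl ν.P (ν.X (G : N.A)) - N.D (ν.X (G : N.A)) := by rw [hσ]; abel
    rw [h1]
    exact N.R.sub_mem (N.I_le _ σI) (N.D_R _ hXR)
  have s5 : S5Data N ν.L ν.P (((ν.φ⁻¹ : N.Aˣ) : N.A) * (G : N.A)) (ν.X (G : N.A)) (gG + e) :=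
    { P_odd := hPs
      P_Hd := ok.P_d
      P_Lv := ok.P_fn.1
      Ψ_mem := hΨ
      PΨ_mem := hPΨ
      Ψ_Hd := by
        have h1 := N.Hd_inv 0 ν.φ ok.φ_d
        exact N.s5Hd_mul h1 B.G_d (by abel)
      Ψ_Lv := hΨL
      Ψ_even := hΨs
      DlΨ := hDΨ
      dxX := N.dx_int _
      evX := N.ev_int _ }
  have hDX0 : N.dx (N.s5Dl ν.P (ν.X (G : N.A))) = 0 := by
    have e1 : N.dx (N.s5Dl ν.P (ν.X (G : N.A))) = N.s5Dl ν.P (N.dx (ν.X (G : N.A))) +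
        N.dx ν.P * N.dx (ν.X (G : N.A)) := by
      rw [N.s5Dl_apply, N.s5Dl_apply, map_add, N.dx_mul, N.dx_D]
      abel
    rw [e1, s5.dxX, hDΨ, neg_add_cancel]
  have hDy : N.s5Dl ν.P y = N.D y := N.s5Dl_free _ y_x
  have hc' : N.s5Dl ν.P (ν.X (G : N.A) - y) = c := hc
  have hcx : N.dx c = 0 := by
    rw [← hc', map_sub, map_sub, hDX0, hDy, N.dx_D, y_x, map_zero, sub_zero]
  have hsDl : ∀ a, N.s (N.s5Dl ν.P a) = -N.s5Dl ν.P (N.s a) := by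
    intro a
    rw [N.s5Dl_apply, N.s5Dl_apply, map_add, N.s_D, map_mul, hPs, N.s_dx, neg_mul, neg_add]
  have hcs : N.s c = -c := by
    rw [← hc', hsDl, map_sub, hXs, y_s]
  have hDD : ∀ a, N.s5Dl ν.P (N.s5Dl ν.P a) = 0 := by
    intro a
    have h1 : N.s5Dl ν.P ν.P = 0 := ok.ΔP
    have e1 : N.s5Dl ν.P (N.D a) = ν.P * N.D (N.dx a) := by
      rw [N.s5Dl_apply, N.D_D, zero_add, N.dx_D]
    have e2 : N.s5Dl ν.P (N.dx a) = N.D (N.dx a) + ν.P * N.dx (N.dx a) := rfl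
    have e3 : ν.P * ν.P = 0 := by
      have h2 := N.odd_anti _ _ hPs hPs
      have h3 : (2 : ℚ) • (ν.P * ν.P) = 0 := by
        rw [two_smul]
        nth_rewrite 2 [h2]
        exact add_neg_cancel _
      exact (smul_eq_zero.1 h3).resolve_left (by norm_num)
    rw [N.s5Dl_apply ν.P a, map_add, e1, N.s5Dl_mul hPs, h1, zero_mul, zero_add, hPs, e2,
      mul_add, ← mul_assoc]
    simp only [neg_mul, e3, zero_mul, neg_zero, add_zero, add_neg_cancel]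
  have hΘG : (Θ : N.A) * (((ν.φ⁻¹ : N.Aˣ) : N.A) * (G : N.A)) = (ν.Q : N.A) ^ 0 := by
    rw [pow_zero, hΘ, Units.val_mul, mul_assoc, Units.mul_inv_cancel_left, Units.inv_mul]
  have node : S5Node N ν.L ν.P (((ν.φ⁻¹ : N.Aˣ) : N.A) * (G : N.A)) (ν.X (G : N.A))
      (ν.X (G : N.A) - y) y c Θ ν.Q 0 ν.q (gG + e) (gG + e) :=
    { s5 := s5
      be := by rw [zero_smul, zero_add]
      φ_even := hΘs
      T_Hd := ok.Q_d
      T_even := ok.Q_s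
      T_I := ok.Q_I
      T_Lv := ok.Q_lv
      DlT := ok.ΔQ
      ΨT := hΘG
      X_eq := by abel
      w_mem := N.I_le _ y_I
      w_even := y_s
      w_Hd := y_d
      w_Lv := y_l
      w_free := y_x
      DlX := hc'
      g_odd := hcs
      g_free := hcx
      DlDl := fun a _ => hDD a }
  -- the primitives
  obtain ⟨K, hK⟩ := hF.ex
  have hmono : ∀ k l, k ≤ l → ∀ g, F l g ≤ F k g := by
    intro k l hkl
    induction hkl with
    | refl => exact fun g => le_rfl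
    | step h ih => exact fun g => (hF.mono _ g).trans (ih g)
  have hbF : ∀ k j, bet (N.s5Eo (Θ : N.A)) ω 0 k j ∈ F k (-(k • (gG + e))) := by
    intro k j
    rw [hω, hΘ]
    exact bet_mem ok hF hG k j
  have hbs : ∀ k j, N.s (bet (N.s5Eo (Θ : N.A)) ω 0 k j) = bet (N.s5Eo (Θ : N.A)) ω 0 k j :=
    fun k j => bet_s N.s _ _ hEs hωs 0 k j
  have hz : ∀ j, ∃ z, ν.Fn z ∧ z ∈ N.Hd (-((K + 1 + 1) • (gG + e)) - d) ∧ N.s z = -z ∧
      N.s5Dl ν.P z = bet (N.s5Eo (Θ : N.A)) ω 0 (K + 1 + 1) j := by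
    intro j
    obtain ⟨z, hz1, hz2, hz3⟩ := hK _ _ (hmono K (K + 1 + 1) (by omega) _ (hbF (K + 1 + 1) j))
    obtain ⟨c1, hc1⟩ := hz1.2
    refine ⟨(1 / 2 : ℚ) • (z - N.s z), ⟨?_, c1, ?_⟩, ?_, ?_, ?_⟩
    · refine N.s5Lv_smul _ (N.s5Lv_sub hz1.1 fun i hi => ?_)
      have h1 := N.s_pd i z
      rw [hz1.1 i hi, map_zero] at h1
      exact (neg_eq_zero.1 h1.symm)
    · rw [mul_smul_comm, mul_sub]
      refine N.R.smul_mem (N.R.sub_mem hc1 ?_) _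
      have h1 := N.s_R _ hc1
      rwa [map_mul, map_pow, ok.Q_s] at h1
    · exact Submodule.smul_mem _ _ (Submodule.sub_mem _ hz2 (N.Hd_s _ _ hz2))
    · rw [map_smul, map_sub, N.s_s, ← smul_neg, neg_sub]
    · have h1 : N.s5Dl ν.P (N.s z) = -N.s5Dl ν.P z := by
        have h2 := hsDl z
        have h3 : N.s5Dl ν.P z = bet (N.s5Eo (Θ : N.A)) ω 0 (K + 1 + 1) j := hz3
        rw [h3, hbs] at h2
        rw [h3, h2, neg_neg]
      rw [map_smul, map_sub, h1, sub_neg_eq_add, ← two_smul ℚ, smul_smul]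
      norm_num
      exact hz3
  choose z hz1 hz2 hz3 hz4 using hz
  -- the poles
  have hpole : ∀ (S : Finset ℕ) (f : ℕ → N.A), (∀ j ∈ S, ν.Fn (f j)) →
      ∃ c : ℕ, ∀ j ∈ S, (ν.Q : N.A) ^ c * f j ∈ N.R := by
    intro S f
    induction S using Finset.induction_on with
    | empty => exact fun _ => ⟨0, fun j hj => absurd hj (Finset.notMem_empty j)⟩
    | insert a S _ ih =>
      intro hS
      obtain ⟨c1, hc1⟩ := ih fun j hj => hS j (Finset.mem_insert_of_mem hj)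
      obtain ⟨-, c2, hc2⟩ := hS a (Finset.mem_insert_self a S)
      refine ⟨c1 + c2, fun j hj => ?_⟩
      have hQR : (ν.Q : N.A) ∈ N.R := N.I_le _ ok.Q_I
      rcases Finset.mem_insert.1 hj with rfl | hj
      · rw [pow_add, mul_assoc]
        exact N.R.mul_mem (N.R.pow_mem hQR _) hc2
      · rw [add_comm, pow_add, mul_assoc]
        exact N.R.mul_mem (N.R.pow_mem hQR _) (hc1 j hj)
  have hQR : (ν.Q : N.A) ∈ N.R := N.I_le _ ok.Q_I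
  have hpole2 : ∀ k, ∃ c : ℕ, ∀ j, (ν.Q : N.A) ^ c * bet (N.s5Eo (Θ : N.A)) ω 0 k j ∈ N.R := by
    intro k
    obtain ⟨c1, hc1⟩ := hpole (Finset.range (k + 1)) (fun j => bet (N.s5Eo (Θ : N.A)) ω 0 k j)
      fun j _ => hF.fn _ _ _ (hbF k j)
    refine ⟨c1, fun j => ?_⟩
    by_cases hj : j < k + 1
    · exact hc1 j (Finset.mem_range.2 hj)
    · rw [bet_big _ _ _ k j (by omega), mul_zero]
      exact N.R.zero_mem
  choose C hC using hpole2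
  obtain ⟨c3, hc3⟩ := hpole (Finset.range (K + 3)) z fun j _ => hz1 j
  obtain ⟨cc, hcc⟩ : ∃ cc, cc = c3 + ∑ k ∈ Finset.range (K + 3), C k := ⟨_, rfl⟩
  have hraise : ∀ {a b : ℕ} {y : N.A}, a ≤ b → (ν.Q : N.A) ^ a * y ∈ N.R →
      (ν.Q : N.A) ^ b * y ∈ N.R := by
    intro a b y hab hy
    obtain ⟨i, rfl⟩ := Nat.exists_eq_add_of_le' hab
    rw [pow_add, mul_assoc]
    exact N.R.mul_mem (N.R.pow_mem hQR _) hy
  obtain ⟨z', hz'⟩ : ∃ z' : ℕ → N.A, z' = fun j => if j < K + 3 then z j else 0 := ⟨_, rfl⟩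
  have hz'1 : ∀ j, (ν.Q : N.A) ^ cc * z' j ∈ N.R := by
    intro j
    rw [hz']
    dsimp only
    split_ifs with hj
    · exact hraise (by omega) (hc3 j (Finset.mem_range.2 hj))
    · rw [mul_zero]; exact N.R.zero_mem
  have hbR : ∀ k ≤ K + 1 + 1, ∀ j, (ν.Q : N.A) ^ cc * bet (N.s5Eo (Θ : N.A)) ω 0 k j ∈ N.R := by
    intro k hk j
    refine hraise ?_ (hC k j)
    have := Finset.single_le_sum (f := C) (fun i _ => Nat.zero_le _)
      (Finset.mem_range.2 (show k < K + 3 by omega))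
    omega
  obtain ⟨p, ζ, hp0, hζs, hp1, hp2, hp3, hp4, hp5, hp6, hζR, hζH, hζL, hfin⟩ :=
    node.main (K + 1) cc (by omega) ω (by
      rw [hω, Units.mul_inv_cancel_left]) hbR
      (fun k _ j => (hF.fn _ _ _ (hbF k j)).1)
      (fun k _ j => hF.hd _ _ (hbF k j)) (fun k _ j => hbs k j) z' hz'1
      (fun j => by
        rw [hz']; dsimp only
        split_ifs
        · exact (hz1 j).1
        · exact N.s5Lv_zero _)
      (fun j => by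
        rw [hz']; dsimp only
        split_ifs
        · exact hz2 j
        · exact Submodule.zero_mem _)
      (fun j => by
        rw [hz']; dsimp only
        split_ifs
        · exact hz3 j
        · rw [map_zero, neg_zero])
      (fun j => by
        rw [hz']; dsimp only
        split_ifs with hj
        · exact hz4 j
        · rw [map_zero, bet_big _ _ _ _ _ (by omega)])
      (0 * (K + 1 + 1) + cc + 1) rfl
  obtain ⟨x, hx⟩ : ∃ x, x = ν.X (G : N.A) - y := ⟨_, rfl⟩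
  have hxs : N.s x = x := by rw [hx, map_sub, hXs, y_s]
  have hxc : ∀ (k : ℕ) (a : N.A), x ^ k * a = a * x ^ k := fun k a =>
    N.even_comm _ a (by rw [map_pow, hxs])
  refine ⟨0 * (K + 1 + 1) + cc + 1, p.natDegree + 1, fun k => p.coeff k, ζ, by omega, hζR, hζL,
    hζH, hζs, ?_, fun k => ⟨hp2 k, hp4 k, hp0 k, hp1 k, hp3 k⟩, ?_, ?_, ?_⟩
  · rw [← hx] at hfin ⊢
    rw [hfin, N.s5eval_big p x (Nat.lt_succ_self _)]
    congr 1
    exact Finset.sum_congr rfl fun k _ => (hxc k _).symm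
  · intro k hk
    exact Polynomial.coeff_eq_zero_of_natDegree_lt (by omega)
  · intro k
    have := hp5 k
    rwa [Polynomial.coeff_zero] at this
  · have h1 : (∑ k ∈ Finset.range (p.natDegree + 1), (-y) ^ k * p.coeff k) = p.eval (-y) := by
      rw [N.s5eval_big p (-y) (Nat.lt_succ_self _)]
      refine Finset.sum_congr rfl fun k _ => ?_
      exact N.even_comm _ _ (by rw [map_pow, map_neg, y_s])
    rw [h1, hp6]
    exact (((Units.isUnit ν.Q).map N.ev).pow _)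

end AnOC
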