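import Pool.Agent.Helper23.OC.S02
import Pool.Agent.Helper23.OC.S04
import Pool.Agent.Helper23.OC.S07
import Pool.Agent.Helper23.OC.S09
import Pool.Agent.Helper23.OC.T03
import Pool.Agent.Helper47.OC.Last

/-!
# Project OC, S10: `N(ℓ)` for all `ℓ`

`last` (step (5) for a stage over `ι` with constant exponent `m`) is in `Helper47/OC/Last.lean`.

`Nst_all`: induction on `ℓ`. `exists_stage`: stage over `ι × ℕ` with exponent `m₀ + k`. If `card L = ℓ' + 1`: `words_all` (`N(ℓ')`), `Stg.push`; if `card L = 0` there are no words. So all words are `Dn` with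
a uniform `c`. `exists_deep` for the node over `ι × ℕ` (`Gp_punit`): uniform `c₁`; `cP` from `P_fn`. Choose `k` with `c₁ + (2 c + cP + 1) ≤ m = m₀ + k`, pull back along
`i ↦ (i, k)` (`Stg.pull`, `map_Dn`, `nd_pull`, `bx_pull`; the image of `G b`), `kill_words`, `Stg.push`, `last`, `Stg.push`, `tame_stage`.
-/

set_option autoImplicit false

namespace AnOC
open AnWL PowerSeries

variable {M : Type} {xd : M → ℤ} {N : ℕ} {e : ℤ} {he : Even e}

section
variable {ι ι' ι'' : Type} {X : ι → GA M xd N} {ν : ND (psp X e he)} {K : Set (GA M xd N)}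
  {p : ι' → ι} {m : ι' → ℕ} {Y : ι' → GA M xd N} {f : ∀ z, Mor (X (p z)) (Y z)}
  {y : (psp Y e he).A}

/-- The words after an extension. -/
private theorem rl_push {Y' : ι' → GA M xd N} (g : ∀ z, Mor (Y z) (Y' z)) (l : List M) :
    (nd ν p (fun z => (f z).comp (g z))).rl l
      (bx ν p m (fun z => (f z).comp (g z)) ((pspm g e he).f y)) =
      (pspm g e he).f ((nd ν p f).rl l (bx ν p m f y)) := by
  rw [bx_push, nd_push]
  exact map_rl _ _ _

private theorem rl_pull (q : ι'' → ι') (l : List M) :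
    (nd ν (fun z => p (q z)) (fun z => f (q z))).rl l
      (bx ν (fun z => p (q z)) (fun z => m (q z)) (fun z => f (q z)) ((psq Y q e he).f y)) =
      (psq Y q e he).f ((nd ν p f).rl l (bx ν p m f y)) := by
  rw [bx_pull, nd_pull]
  exact map_rl _ _ _

end

/-- Step (4) and (5) for a stage with all the words exact. -/
private theorem close_stage [Fintype M] [DecidableEq M] {K : Set (GA M xd N)} {κ : ℕ}
    (hκ : 1 ≤ κ) (hK : EXT K κ) {ℓ R₀ : ℕ} (hS : SSb K ℓ R₀)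
    (hP : IPos K) (hnt : ∀ G ∈ K, Nontrivial G.A) (he2 : 2 ≤ e) {ι : Type} {X : ι → GA M xd N}
    {ν : ND (psp X e he)} (ok : ν.Ok) {F : ℕ → (ι → ℤ) → Submodule ℚ (psp X e he).A}
    (hF : ν.Fil F) (hcard : ν.L.card = ℓ) {m₀ : ℕ} {Y : ι × ℕ → GA M xd N}
    {f : ∀ z : ι × ℕ, Mor (X z.1) (Y z)} {y : (psp Y e he).A}
    (S : Stg K ν Prod.fst (fun z => m₀ + z.2) Y f y) {c : ℕ}
    (hD : ∀ l : List M, Wd ν.L l → (nd ν Prod.fst f).Dn
      ((nd ν Prod.fst f).rl l (bx ν Prod.fst (fun z => m₀ + z.2) f y)) c) :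
    ∃ (Y' : ι → GA M xd N) (f' : ∀ i, Mor (X i) (Y' i)), (∀ i, Y' i ∈ K) ∧ (∀ i, (f' i).Tame) ∧
      ∃ η : (psp Y' e he).A, (ν.map (pspm f' e he)).Fn η ∧ η ∈ (psp Y' e he).Hd (fun _ => -1) ∧
        (ν.map (pspm f' e he)).Δ η = 1 := by
  have ok₁ : (nd ν Prod.fst f).Ok := nd_Ok ok _ f
  -- uniform bounds for the poles
  obtain ⟨c₁, hc₁⟩ := exists_deep ok₁ (Gp_punit ok₁ (fun z => m₀ + z.2)) (S.Bt ok).E_x
  obtain ⟨-, cP, hcP⟩ := ok₁.P_fn
  -- the choice of the exponent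
  obtain ⟨k, hk⟩ : ∃ k, k = c₁ + (2 * c + cP + 1) := ⟨_, rfl⟩
  let q : ι → ι × ℕ := fun i => (i, k)
  have S₂ : Stg K ν (fun i => i) (fun _ => m₀ + k) (fun i => Y (q i)) (fun i => f (q i))
      ((psq Y q e he).f y) := by
    have h := S.pull ok q
    exact h
  have ok₂ : (nd ν (fun i => i) (fun i => f (q i))).Ok := nd_Ok ok _ _
  have hnd : nd ν (fun i => i) (fun i => f (q i)) = (nd ν Prod.fst f).map (psq Y q e he) :=
    nd_pull Prod.fst q f
  have hrl : ∀ l : List M, (nd ν (fun i => i) (fun i => f (q i))).rl l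
      (bx ν (fun i => i) (fun _ => m₀ + k) (fun i => f (q i)) ((psq Y q e he).f y)) =
      (psq Y q e he).f ((nd ν Prod.fst f).rl l (bx ν Prod.fst (fun z => m₀ + z.2) f y)) := by
    intro l
    have h := rl_pull (ν := ν) (p := Prod.fst) (m := fun z : ι × ℕ => m₀ + z.2) (f := f) (y := y) q l
    exact h
  have hD₂ : ∀ l : List M, Wd ν.L l → (nd ν (fun i => i) (fun i => f (q i))).Dn
      ((nd ν (fun i => i) (fun i => f (q i))).rl l
        (bx ν (fun i => i) (fun _ => m₀ + k) (fun i => f (q i)) ((psq Y q e he).f y))) c := by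
    intro l hl
    rw [hrl, hnd]
    exact map_Dn _ (hD l hl)
  have hP₂ : ((nd ν (fun i => i) (fun i => f (q i))).Q : (psp (fun i => Y (q i)) e he).A) ^ cP *
      (nd ν (fun i => i) (fun i => f (q i))).P ∈ (psp (fun i => Y (q i)) e he).R := by
    rw [hnd]
    have h := (psq Y q e he).R _ hcP
    rw [map_mul, map_pow] at h
    exact h
  have hb₂ : ∀ l : List M, Wd ν.L l → ∃ b,
      ((nd ν (fun i => i) (fun i => f (q i))).Q : (psp (fun i => Y (q i)) e he).A) ^ c₁ * b ∈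
        (psp (fun i => Y (q i)) e he).R ∧
      (nd ν (fun i => i) (fun i => f (q i))).P * (psp (fun i => Y (q i)) e he).dx
        ((nd ν (fun i => i) (fun i => f (q i))).rl l
          (bx ν (fun i => i) (fun _ => m₀ + k) (fun i => f (q i)) ((psq Y q e he).f y))) =
        ((punit (nd ν (fun i => i) (fun i => f (q i))).Q (fun _ => m₀ + k) :
          (psp (fun i => Y (q i)) e he).Aˣ) : (psp (fun i => Y (q i)) e he).A) * b := by
    intro l hl
    obtain ⟨b, hb, hb'⟩ := hc₁ l hl.1 hl.2.2.2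
    refine ⟨(psq Y q e he).f b, ?_, ?_⟩
    · rw [hnd]
      have h := (psq Y q e he).R _ hb
      rw [map_mul, map_pow] at h
      exact h
    · rw [hrl, (psq Y q e he).dx, hnd]
      have h := congrArg (psq Y q e he).f hb'
      rw [map_mul, map_mul] at h
      exact h
  obtain ⟨Y₃, g₃, hY₃, hg₃, hk₃⟩ := kill_words hκ hK ok S₂ hD₂ hP₂ hb₂ (by omega)
  have S₃ := S₂.push ok g₃ hY₃ hg₃
  obtain ⟨Y₄, g₄, hY₄, hg₄, η, hη, hηd, hη1⟩ := last hS hP hnt he2 ok hF hcard S₃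
  have S₄ := S₃.push ok g₄ hY₄ hg₄
  have hnd₄ := nd_push (ν := ν) (he := he) (fun i => i)
    (fun i => (f (q i)).comp (g₃ i)) g₄
  rw [← hnd₄] at hη hη1
  refine ⟨Y₄, fun i => ((f (q i)).comp (g₃ i)).comp (g₄ i), hY₄, ?_, η, ?_, hηd, ?_⟩
  · intro i
    refine tame_stage ok S₄ ?_ hη hη1 i
    intro l hl
    rw [rl_push, (pspm g₄ e he).ev, rl_push, (pspm g₃ e he).ev]
    exact (pspm g₄ e he).Nl _ (hk₃ l hl)
  · rw [← nd_id]
    exact hη
  · rw [← nd_id]
    exact hη1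

private theorem Nst_of [Fintype M] [DecidableEq M] (K : Set (GA M xd N)) {κ : ℕ} {n₀ : ℤ}
    (hκ : 1 ≤ κ) (hK : EXT K κ) (hKo : EXTo K κ n₀)
    (hS : ∀ ℓ, SSb K ℓ (bb (Fintype.card M) ℓ + κ))
    (hP : IPos K) (hnt : ∀ G ∈ K, Nontrivial G.A) (he2 : 2 ≤ e) (ℓ : ℕ)
    (h : ℓ = 0 ∨ ∃ ℓ', ℓ = ℓ' + 1 ∧ Nst K e he ℓ') : Nst K e he ℓ := by
  intro ι X hX ν F ok hF hcard
  obtain ⟨m₀, Y, f, y, S⟩ := exists_stage K hκ hKo hP hnt he2 X hX ok
  rcases h with h | ⟨ℓ', rfl, hN⟩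
  · refine close_stage hκ hK (hS ℓ) hP hnt he2 ok hF hcard S (c := 0) ?_
    intro l hl
    exfalso
    rw [h, Finset.card_eq_zero] at hcard
    obtain ⟨-, h2, -, h4⟩ := hl
    obtain ⟨j, l', rfl⟩ := List.exists_cons_of_ne_nil h2
    have h5 := h4 j List.mem_cons_self
    rw [hcard] at h5
    exact absurd h5 (Finset.notMem_empty j)
  · obtain ⟨Y', g, hY', hg, c, hD⟩ := words_all hN ok hF hcard S
    refine close_stage hκ hK (hS _) hP hnt he2 ok hF hcard (S.push ok g hY' hg) (c := c) ?_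
    intro l hl
    rw [rl_push, nd_push]
    exact hD l hl

theorem Nst_all [Fintype M] [DecidableEq M] (K : Set (GA M xd N)) {κ : ℕ} {n₀ : ℤ} (hκ : 1 ≤ κ)
    (hK : EXT K κ) (hKo : EXTo K κ n₀) (hS : ∀ ℓ, SSb K ℓ (bb (Fintype.card M) ℓ + κ))
    (hP : IPos K) (hnt : ∀ G ∈ K, Nontrivial G.A) (he2 : 2 ≤ e) (ℓ : ℕ) : Nst K e he ℓ := by
  induction ℓ with
  | zero => exact Nst_of K hκ hK hKo hS hP hnt he2 0 (Or.inl rfl)
  | succ ℓ ih => exact Nst_of K hκ hK hKo hS hP hnt he2 (ℓ + 1) (Or.inr ⟨ℓ, rfl, ih⟩)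

end AnOC
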