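import Pool.Agent.Helper23.OC.A02

/-!
# Project OC, T01: step 1: the coordinate `X = int (φ⁻¹ G)`, `E X = G`

`G` even closed of level `L` (in the applications `G = Q ^ m`). `X = int (φ⁻¹ G)`: `E X = φ dx X = G`, `ev X = 0`; `σ = Δ X`:
`E σ = Δ (E X) = 0` so `dx σ = 0`; `σ = ev σ = D (ev X) + ev (P φ⁻¹ G) = ev (P φ⁻¹ G)`; `0 = Δ σ = D σ`.
`GF a`: `a ∈ G Fn`. `GF` is stable under `r j`, `E`, `pd j`, `dx`, left multiplication by `Fn` (`r j (G b) = G ((mm Q⁻¹ r j Q) b + r j b)`; for `pd j`, `dx`: the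
relations `dx G = (mm Q⁻¹ dx Q) G`, `pd j G = (mm Q⁻¹ pd j Q) G` hold as well: hypotheses `hGx`, `hGp`).
`rl_X`: `rl l X - pdl l X ∈ G Fn`: induction on `l`: `r j (pdl l X + G b) = pd j (pdl l X) + ρ j dx (pdl l X) + r j (G b)`,
`dx (pdl l X) = pdl l (φ⁻¹ G) ∈ G Fn`. `pdl_X`: `pdl l X = int (G b)` with `b ∈ Fn` (`int_pd`).
-/

set_option autoImplicit false

namespace AnOC
open AnWL.Nd

variable {M Γ : Type} [AddCommGroup Γ] {xd : M → Γ} {e d : Γ} {N : NR M Γ xd e d} {ν : ND N}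

/-- `G` = a power of `Q`. -/
structure ND.Gp (ν : ND N) (G mm : N.A) (gG : Γ) : Prop where
  G_s : N.s G = G
  G_d : G ∈ N.Hd gG
  G_f : ν.Fn G
  G_Δ : ν.Δ G = 0
  G_x : N.dx G = mm * (((ν.Q⁻¹ : N.Aˣ) : N.A) * N.dx (ν.Q : N.A)) * G
  G_p : ∀ j, N.pd j G = mm * (((ν.Q⁻¹ : N.Aˣ) : N.A) * N.pd j (ν.Q : N.A)) * G
  m_s : N.s mm = mm
  m_R : mm ∈ N.R
  m_d : mm ∈ N.Hd 0
  m_D : N.D mm = 0
  m_dx : N.dx mm = 0
  m_pd : ∀ j, N.pd j mm = 0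

/-- `a ∈ G Fn`. -/
def ND.GF (ν : ND N) (G a : N.A) : Prop := ∃ b, ν.Fn b ∧ a = G * b

variable {G mm : N.A} {gG : Γ}

theorem GF_add (ok : ν.Ok) {a b : N.A} (ha : ν.GF G a) (hb : ν.GF G b) : ν.GF G (a + b) := by
  obtain ⟨x, hx, rfl⟩ := ha
  obtain ⟨y, hy, rfl⟩ := hb
  exact ⟨x + y, Fn_add ok hx hy, (mul_add _ _ _).symm⟩

theorem GF_mul (ok : ν.Ok) (B : ν.Gp G mm gG) {f a : N.A} (hf : ν.Fn f) (ha : ν.GF G a) :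
    ν.GF G (f * a) := by
  obtain ⟨b, hb, rfl⟩ := ha
  refine ⟨f * b, Fn_mul ok hf hb, ?_⟩
  rw [← mul_assoc, ← N.even_comm G f B.G_s, mul_assoc]

theorem GF_pd (ok : ν.Ok) (B : ν.Gp G mm gG) {a : N.A} (ha : ν.GF G a) (j : M) :
    ν.GF G (N.pd j a) := by
  obtain ⟨b, hb, rfl⟩ := ha
  have hm : ν.Fn mm := Fn_of_R (fun j _ => B.m_pd j) B.m_R
  refine ⟨mm * (((ν.Q⁻¹ : N.Aˣ) : N.A) * N.pd j (ν.Q : N.A)) * b + N.pd j b,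
    Fn_add ok (Fn_mul ok (Fn_mul ok hm (Fn_mul ok (Fn_Qinv ok) (Fn_pd ok (Fn_Q ok) j))) hb)
      (Fn_pd ok hb j), ?_⟩
  rw [N.pd_mul, B.G_p, B.G_s, mul_add]
  congr 1
  rw [← N.even_comm G _ B.G_s, mul_assoc]

theorem GF_dx (ok : ν.Ok) (B : ν.Gp G mm gG) {a : N.A} (ha : ν.GF G a) : ν.GF G (N.dx a) := by
  obtain ⟨b, hb, rfl⟩ := ha
  have hm : ν.Fn mm := Fn_of_R (fun j _ => B.m_pd j) B.m_R
  refine ⟨mm * (((ν.Q⁻¹ : N.Aˣ) : N.A) * N.dx (ν.Q : N.A)) * b + N.dx b,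
    Fn_add ok (Fn_mul ok (Fn_mul ok hm (Fn_mul ok (Fn_Qinv ok) (Fn_dx ok (Fn_Q ok)))) hb)
      (Fn_dx ok hb), ?_⟩
  rw [N.dx_mul, B.G_x, mul_add]
  congr 1
  rw [← N.even_comm G _ B.G_s, mul_assoc]

theorem GF_r (ok : ν.Ok) (B : ν.Gp G mm gG) {a : N.A} (ha : ν.GF G a) {j : M} (hj : j ∈ ν.L) :
    ν.GF G (ν.r j a) :=
  GF_add ok (GF_pd ok B ha j) (GF_mul ok B (ok.ρ_fn j hj) (GF_dx ok B ha))

theorem GF_E (ok : ν.Ok) (B : ν.Gp G mm gG) {a : N.A} (ha : ν.GF G a) : ν.GF G (ν.E a) :=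
  GF_mul ok B ok.φ_fn (GF_dx ok B ha)

/-- The coordinate `X`. -/
def ND.X (ν : ND N) (G : N.A) : N.A := N.int (((ν.φ⁻¹ : N.Aˣ) : N.A) * G)

theorem X_s (ok : ν.Ok) (B : ν.Gp G mm gG) : N.s (ν.X G) = ν.X G := by
  unfold ND.X
  rw [← N.int_s, map_mul, N.s_inv ok.φ_s, B.G_s]

theorem X_d (ok : ν.Ok) (B : ν.Gp G mm gG) : ν.X G ∈ N.Hd (gG + e) := by
  have h1 := N.Hd_inv _ _ ok.φ_d
  have h2 := N.Hd_int _ _ (N.Hd_mul _ _ _ _ h1 B.G_d)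
  rw [neg_zero, zero_add] at h2
  exact h2

theorem X_l (ok : ν.Ok) (B : ν.Gp G mm gG) : N.Lv ν.L (ν.X G) :=
  Lv_int (Lv_mul ok.φ_fn'.1 B.G_f.1)

theorem X_ev (G : N.A) : N.ev (ν.X G) = 0 := N.ev_int _

theorem X_dx (G : N.A) : N.dx (ν.X G) = ((ν.φ⁻¹ : N.Aˣ) : N.A) * G := N.dx_int _

theorem X_E (G : N.A) : ν.E (ν.X G) = G := by
  unfold ND.E
  rw [X_dx, Units.mul_inv_cancel_left]

/-- `σ = Δ X`. -/
theorem σ_eq (ok : ν.Ok) (B : ν.Gp G mm gG) :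
    ν.Δ (ν.X G) = N.ev (ν.P * ((ν.φ⁻¹ : N.Aˣ) : N.A) * G) := by
  have h0 : N.dx (ν.Δ (ν.X G)) = 0 := by
    have h1 : ν.E (ν.Δ (ν.X G)) = 0 := by
      rw [← ok.ΔE, X_E, B.G_Δ]
    unfold ND.E at h1
    exact (Units.mul_right_eq_zero _).1 h1
  rw [← N.ev_of _ h0]
  unfold ND.Δ
  rw [map_add, N.ev_D, X_ev, map_zero, zero_add, X_dx, mul_assoc]

theorem σ_dx (ok : ν.Ok) (B : ν.Gp G mm gG) : N.dx (ν.Δ (ν.X G)) = 0 := by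
  have h1 : ν.E (ν.Δ (ν.X G)) = 0 := by
    rw [← ok.ΔE, X_E, B.G_Δ]
  unfold ND.E at h1
  exact (Units.mul_right_eq_zero _).1 h1

theorem σ_D (ok : ν.Ok) (B : ν.Gp G mm gG) : N.D (ν.Δ (ν.X G)) = 0 := by
  have h1 := ok.ΔΔ (ν.X G)
  have h2 : N.D (ν.Δ (ν.X G)) + ν.P * N.dx (ν.Δ (ν.X G)) = 0 := h1
  rwa [σ_dx ok B, mul_zero, add_zero] at h2

theorem pdl_X (ok : ν.Ok) (B : ν.Gp G mm gG) (l : List M) :
    ∃ b, ν.Fn b ∧ N.pdl l (ν.X G) = N.int (G * b) := by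
  induction l with
  | nil =>
    refine ⟨((ν.φ⁻¹ : N.Aˣ) : N.A), ok.φ_fn', ?_⟩
    show N.int _ = _
    rw [N.even_comm G _ B.G_s]
  | cons j l ih =>
    obtain ⟨b, hb, h⟩ := ih
    obtain ⟨c, hc, h'⟩ := GF_pd ok B (⟨b, hb, rfl⟩ : ν.GF G (G * b)) j
    refine ⟨c, hc, ?_⟩
    show N.pd j (N.pdl l (ν.X G)) = _
    rw [h, ← N.int_pd, h']

theorem rl_X (ok : ν.Ok) (B : ν.Gp G mm gG) {l : List M} (hl : ∀ j ∈ l, j ∈ ν.L) :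
    ν.GF G (ν.rl l (ν.X G) - N.pdl l (ν.X G)) := by
  induction l with
  | nil => exact ⟨0, Fn_zero, by rw [mul_zero]; exact sub_self _⟩
  | cons j l ih =>
    have ih' := ih fun i hi => hl i (List.mem_cons_of_mem _ hi)
    have hj := hl j List.mem_cons_self
    obtain ⟨b, hb, h⟩ := pdl_X ok B l
    have h1 : N.dx (N.pdl l (ν.X G)) = G * b := by rw [h, N.dx_int]
    have h2 : ν.rl (j :: l) (ν.X G) - N.pdl (j :: l) (ν.X G) =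
        ν.ρ j * (G * b) + ν.r j (ν.rl l (ν.X G) - N.pdl l (ν.X G)) := by
      show ν.r j (ν.rl l (ν.X G)) - N.pd j (N.pdl l (ν.X G)) = _
      unfold ND.r
      rw [map_sub, map_sub, h1, mul_sub]
      abel
    rw [h2]
    exact GF_add ok (GF_mul ok B (ok.ρ_fn j hj) ⟨b, hb, rfl⟩) (GF_r ok B ih' hj)

/-- Words of an `x`-free element. -/
theorem rl_free (ok : ν.Ok) {y : N.A} (hy : N.dx y = 0) (l : List M) :
    ν.rl l y = N.pdl l y ∧ N.dx (N.pdl l y) = 0 := by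
  induction l with
  | nil => exact ⟨rfl, hy⟩
  | cons j l ih =>
    refine ⟨?_, ?_⟩
    · show ν.r j (ν.rl l y) = N.pd j (N.pdl l y)
      rw [ih.1]
      unfold ND.r
      rw [ih.2, mul_zero, add_zero]
    · show N.dx (N.pd j (N.pdl l y)) = 0
      rw [N.dx_pd, ih.2, map_zero]

end AnOC
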